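import Pool.Agent.Run7.h307.LR.Prod

/-!
# The second order inequality for the product of the positive eigenvalues
-/

set_option autoImplicit false

open Matrix Finset Filter Topology Asymptotics
open Pool.Agent.Y262.QE

noncomputable section

namespace Pool.Agent.Run7.h307.LR

variable {H : Type} [NormedAddCommGroup H] [InnerProductSpace ℝ H]

theorem gram_herm {ι : Type*} (b : H →L[ℝ] H →L[ℝ] ℝ) (sb : ∀ u v, b u v = b v u) (v : ι → H) :
    (gram b v).IsHermitian := by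
  ext i l
  simp only [conjTranspose_apply, star_trivial, gram]
  exact sb _ _

theorem gram_psd {ι : Type*} [Fintype ι] (b : H →L[ℝ] H →L[ℝ] ℝ) (sb : ∀ u v, b u v = b v u)
    (nb : ∀ v, 0 ≤ b v v) (v : ι → H) : (gram b v).PosSemidef := by
  refine PosSemidef.of_dotProduct_mulVec_nonneg (gram_herm b sb v) fun x => ?_
  have h := nb (comb v x)
  rw [form_comb] at h
  refine h.trans (le_of_eq ?_)
  simp only [dotProduct, mulVec, star_trivial, gram, mul_sum]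
  refine sum_congr rfl fun i _ => sum_congr rfl fun l _ => ?_
  ring

theorem id_isBigO : (fun ε : ℝ => ε) =O[𝓝 0] (fun _ => (1 : ℝ)) :=
  (continuous_id.tendsto (0 : ℝ)).isBigO_one ℝ

theorem mul_isBigO {f : ℝ → ℝ} (h : f =O[𝓝 0] fun ε : ℝ => ε ^ 3) :
    (fun ε => ε * f ε) =O[𝓝 0] fun ε : ℝ => ε ^ 3 := by
  have := id_isBigO.mul h
  simpa using this

/-- expansion of the Gram matrix -/
theorem entry (b H1 H2 : H →L[ℝ] H →L[ℝ] ℝ) (b' : ℝ → H →L[ℝ] H →L[ℝ] ℝ)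
    (hexp : ∀ u v, (fun ε => b' ε u v - (b u v + ε * H1 u v + ε ^ 2 / 2 * H2 u v)) =O[𝓝 0]
      fun ε : ℝ => ε ^ 3) (x y d d' : H) (h1 : b x d' = 0) (h2 : b d y = 0) :
    (fun ε => b' ε (x + ε • d) (y + ε • d') - (b x y + ε * H1 x y +
      ε ^ 2 * (H2 x y / 2 + H1 x d' + H1 d y + b d d'))) =O[𝓝 0] fun ε : ℝ => ε ^ 3 := by
  have r1 := hexp x y
  have r2 := mul_isBigO (hexp x d')
  have r3 := mul_isBigO (hexp d y)
  have r4 := mul_isBigO (mul_isBigO (hexp d d'))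
  have r5 : (fun ε : ℝ => (H2 x d' / 2 + H2 d y / 2 + H1 d d') * ε ^ 3) =O[𝓝 0]
      fun ε : ℝ => ε ^ 3 := (isBigO_refl _ _).const_mul_left _
  have r6 : (fun ε : ℝ => ε * ((H2 d d' / 2) * ε ^ 3)) =O[𝓝 0] fun ε : ℝ => ε ^ 3 :=
    mul_isBigO ((isBigO_refl _ _).const_mul_left _)
  refine (((((r1.add r2).add r3).add r4).add r5).add r6).congr_left fun ε => ?_
  simp only [map_add, map_smul, _root_.add_apply, _root_.smul_apply, smul_eq_mul]
  linear_combination (-ε) * h1 + (-ε) * h2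

theorem sum_isBigO {ι : Type*} (s : Finset ι) (f : ι → ℝ → ℝ)
    (h : ∀ i ∈ s, f i =O[𝓝 0] fun ε : ℝ => ε ^ 3) :
    (fun ε => ∑ i ∈ s, f i ε) =O[𝓝 0] fun ε : ℝ => ε ^ 3 :=
  (IsBigO.sum h).congr_left fun ε => Finset.sum_apply ε s f

/-- the square of an expansion -/
theorem sq_entry (g : ℝ → ℝ) (x y : ℝ) (h : (fun ε => g ε - (ε * x + ε ^ 2 * y)) =O[𝓝 0]
    fun ε : ℝ => ε ^ 3) : (fun ε => g ε ^ 2 - ε ^ 2 * x ^ 2) =O[𝓝 0] fun ε : ℝ => ε ^ 3 := by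
  have h1 : (fun ε : ℝ => g ε - (ε * x + ε ^ 2 * y)) =O[𝓝 0] fun _ => (1 : ℝ) := by
    refine h.trans ?_
    have := (continuous_pow 3).tendsto (0 : ℝ)
    exact this.isBigO_one ℝ
  have h2 := h1.mul h
  have h3 : (fun ε : ℝ => 2 * (x + ε * y) * (ε * (g ε - (ε * x + ε ^ 2 * y)))) =O[𝓝 0]
      fun ε : ℝ => ε ^ 3 := by
    have h4 : (fun ε : ℝ => 2 * (x + ε * y)) =O[𝓝 0] fun _ => (1 : ℝ) := by
      have : Continuous fun ε : ℝ => 2 * (x + ε * y) := by fun_prop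
      exact (this.tendsto 0).isBigO_one ℝ
    simpa using h4.mul (mul_isBigO h)
  have h5 : (fun ε : ℝ => (2 * x * y + ε * y ^ 2) * ε ^ 3) =O[𝓝 0] fun ε : ℝ => ε ^ 3 := by
    have h4 : (fun ε : ℝ => (2 * x * y + ε * y ^ 2)) =O[𝓝 0] fun _ => (1 : ℝ) := by
      have : Continuous fun ε : ℝ => (2 * x * y + ε * y ^ 2) := by fun_prop
      exact (this.tendsto 0).isBigO_one ℝ
    simpa using h4.mul (isBigO_refl (fun ε : ℝ => ε ^ 3) (𝓝 0))
  have h6 : (fun ε : ℝ => (g ε - (ε * x + ε ^ 2 * y)) * (g ε - (ε * x + ε ^ 2 * y))) =O[𝓝 0]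
      fun ε : ℝ => ε ^ 3 := by simpa using h2
  refine ((h6.add h3).add h5).congr_left fun ε => ?_
  ring

section core

variable (κ m : ℕ)

/-- the index of a test vector -/
def ix : Fin κ ⊕ Fin m → ℕ := Sum.elim (fun i => (i : ℕ)) fun r => κ + (r : ℕ)

theorem ix_inj : Function.Injective (ix κ m) := by
  rintro (i | i) (r | r) h
  · simp only [ix, Sum.elim_inl] at h
    rw [Fin.ext h]
  · simp only [ix, Sum.elim_inl, Sum.elim_inr] at h
    have := i.2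
    omega
  · simp only [ix, Sum.elim_inl, Sum.elim_inr] at h
    have := r.2
    omega
  · simp only [ix, Sum.elim_inr] at h
    have : (i : ℕ) = r := by omega
    rw [Fin.ext this]

theorem ix_lt (p : Fin κ ⊕ Fin m) : ix κ m p < κ + m := by
  rcases p with i | i
  · have := i.2
    simp only [ix, Sum.elim_inl]
    omega
  · have := i.2
    simp only [ix, Sum.elim_inr]
    omega

theorem ix_sum (f : ℕ → ℝ) : ∑ p, f (ix κ m p) = ∑ l ∈ range (κ + m), f l := by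
  rw [Fintype.sum_sum_type, ← Fin.sum_univ_eq_sum_range, Fin.sum_univ_add]
  rfl

end core

theorem arith {e2 A C1 C2 L x2 lG sEv sE gz cE sG Xr Xz Y P q2 κK : ℝ}
    (hlogs : lG + sEv ≤ gz + (sE + e2 * cE)) (hlog : sG - (1 / 2 + 2 * (A * L)) * q2 ≤ lG)
    (k1 : -(C1 * A ^ 3) ≤ sG - (Xz + Xr + e2 * Y)) (k2 : q2 - e2 * x2 ≤ C2 * A ^ 3)
    (hgz : gz ≤ Xz + e2 * κK) (t1 : 2 * (A * L) * q2 ≤ 2 * L * (x2 + 1) * A ^ 3)
    (t2 : e2 * P ≤ e2 * (Y - x2 / 2)) :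
    sEv ≤ sE - Xr - e2 * (P - cE - κK) + (C1 + C2 / 2 + 2 * L * (x2 + 1)) * A ^ 3 := by
  linarith

theorem core (a b : H →L[ℝ] H →L[ℝ] ℝ) (hF : Fm a b) (e : ℕ → H) (E : ℕ → ℝ) (hE : Eg a b e E)
    (H1 H2 : H →L[ℝ] H →L[ℝ] ℝ) (s1 : ∀ u v, H1 u v = H1 v u)
    (b' : ℝ → H →L[ℝ] H →L[ℝ] ℝ) (hF' : ∀ ε, Fm a (b' ε))
    (hexp : ∀ u v, (fun ε => b' ε u v - (b u v + ε * H1 u v + ε ^ 2 / 2 * H2 u v)) =O[𝓝 0]
      fun ε : ℝ => ε ^ 3)
    (K : ℝ) (hup : ∀ᶠ ε in 𝓝 (0 : ℝ), ∀ v, b' ε v v ≤ b v v + ε * H1 v v + ε ^ 2 * K * b v v)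
    (hBes : ∀ (i : ℕ) (s : Finset ℕ), ∑ l ∈ s, (H1 (e i) (e l)) ^ 2 ≤ H2 (e i) (e i))
    (κ m : ℕ) (h0 : ∀ i < κ, E i = 0) (hp : ∀ i, κ ≤ i → 0 < E i)
    (hp' : ∀ ε i, κ ≤ i → 0 < Ev a (b' ε) i)
    (S : Finset ℕ) (hS : ∀ k ∈ S, κ + m ≤ k) (c : ℕ → ℕ → ℝ) :
    ∃ C : ℝ, ∀ᶠ ε in 𝓝 (0 : ℝ), ∑ r ∈ range m, Real.log (Ev a (b' ε) (κ + r)) ≤
      ∑ r ∈ range m, Real.log (E (κ + r)) -
        ε * (∑ r ∈ range m, H1 (e (κ + r)) (e (κ + r))) -
      ε ^ 2 * (∑ r ∈ range m, ∑ k ∈ S, ((H1 (e (κ + r)) (e k)) ^ 2 / 2 +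
        2 * c r k * H1 (e (κ + r)) (e k) - c r k ^ 2 * (E k / E (κ + r) - 1)) - κ * K) +
      C * |ε| ^ 3 := by
  set ι := Fin κ ⊕ Fin m
  set z : Fin κ → H := fun i => e i with hz
  set d : ℕ → H := fun r => ∑ k ∈ S, c r k • e k with hd
  set v : ℝ → Fin m → H := fun ε r => e (κ + r) + ε • d r with hv
  set eb : ι → H := fun p => e (ix κ m p) with heb
  set db : ι → H := Sum.elim (fun _ => 0) fun r => d r with hdb
  have hw : ∀ ε p, (Sum.elim z (v ε)) p = eb p + ε • db p := by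
    intro ε p
    rcases p with i | i
    · simp only [Sum.elim_inl, hz, heb, hdb, ix, smul_zero, add_zero]
    · simp only [Sum.elim_inr, hv, heb, hdb, ix]
  have hbd : ∀ (l r : ℕ), l < κ + m → b (e l) (d r) = 0 := by
    intro l r hl
    simp only [hd, map_sum, map_smul, smul_eq_mul]
    refine sum_eq_zero fun k hk => ?_
    rw [hE.orth, if_neg (by have := hS k hk; omega), mul_zero]
  have hbdb : ∀ p q, b (eb p) (db q) = 0 := by
    intro p q
    rcases q with i | i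
    · simp only [hdb, Sum.elim_inl, map_zero]
    · simp only [hdb, Sum.elim_inr]
      exact hbd _ _ (ix_lt κ m p)
  have hdbb : ∀ p q, b (db p) (eb q) = 0 := fun p q => by rw [hF.sb, hbdb]
  have horth : ∀ p q, b (eb p) (eb q) = (1 : Matrix ι ι ℝ) p q := by
    intro p q
    rw [hE.orth, one_apply]
    exact if_congr (ix_inj κ m).eq_iff rfl rfl
  set X : ι → ι → ℝ := fun p q => H1 (eb p) (eb q) with hX
  set Y : ι → ι → ℝ := fun p q => H2 (eb p) (eb q) / 2 + H1 (eb p) (db q) + H1 (db p) (eb q) +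
    b (db p) (db q) with hY
  set G : ℝ → Matrix ι ι ℝ := fun ε => gram (b' ε) (Sum.elim z (v ε)) with hG
  have hent : ∀ p q, (fun ε => (G ε p q - (1 : Matrix ι ι ℝ) p q) - (ε * X p q + ε ^ 2 * Y p q))
      =O[𝓝 0] fun ε : ℝ => ε ^ 3 := by
    intro p q
    refine (entry b H1 H2 b' hexp (eb p) (eb q) (db p) (db q) (hbdb p q) (hdbb p q)).congr_left
      fun ε => ?_
    simp only [hG, gram, hw, horth]
    ring
  have hs1 : (fun ε => ∑ p, (G ε p p - 1) - (ε * ∑ p, X p p + ε ^ 2 * ∑ p, Y p p)) =O[𝓝 0]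
      fun ε : ℝ => ε ^ 3 := by
    refine (sum_isBigO univ _ fun p _ => hent p p).congr_left fun ε => ?_
    simp only [one_apply_eq, sum_sub_distrib, sum_add_distrib, mul_sum]
  have hs2 : (fun ε => ∑ p, ∑ q, (G ε p q - (1 : Matrix ι ι ℝ) p q) ^ 2 -
      ε ^ 2 * ∑ p, ∑ q, X p q ^ 2) =O[𝓝 0] fun ε : ℝ => ε ^ 3 := by
    refine (sum_isBigO univ _ fun p _ => sum_isBigO univ _ fun q _ =>
      sq_entry _ _ _ (hent p q)).congr_left fun ε => ?_
    simp only [sum_sub_distrib, mul_sum]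
  obtain ⟨C1, hC1⟩ := hs1.bound
  obtain ⟨C2, hC2⟩ := hs2.bound
  set x2 := ∑ p, ∑ q, X p q ^ 2 with hx2
  have hx2n : 0 ≤ x2 := sum_nonneg fun p _ => sum_nonneg fun q _ => sq_nonneg _
  set L := Real.sqrt (x2 + 1) with hL
  have hL0 : 0 < L := Real.sqrt_pos.2 (by linarith)
  have hLL : L ^ 2 = x2 + 1 := Real.sq_sqrt (by linarith)
  have hsmall : ∀ᶠ ε in 𝓝 (0 : ℝ), |ε| * (|C2| + 2 * L + 1) ≤ 1 := by
    have : Continuous fun ε : ℝ => |ε| * (|C2| + 2 * L + 1) := by fun_prop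
    have h1 := this.tendsto 0
    simp only [abs_zero, zero_mul] at h1
    exact h1.eventually (ge_mem_nhds one_pos)
  refine ⟨|C1| + |C2| / 2 + 2 * L * (x2 + 1), ?_⟩
  filter_upwards [hC1, hC2, hsmall, hup] with ε g1 g2 g3 g4
  set A := |ε| with hA
  have hA0 : 0 ≤ A := abs_nonneg _
  have hAsq : A ^ 2 = ε ^ 2 := sq_abs ε
  have hn3 : ‖ε ^ 3‖ = A ^ 3 := by rw [norm_pow, Real.norm_eq_abs]
  rw [hn3, Real.norm_eq_abs] at g1 g2
  have hA3 : 0 ≤ A ^ 3 := pow_nonneg hA0 3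
  have k1 := (abs_le.1 (g1.trans (mul_le_mul_of_nonneg_right (le_abs_self C1) hA3))).1
  have k2 := (abs_le.1 (g2.trans (mul_le_mul_of_nonneg_right (le_abs_self C2) hA3))).2
  set q2 := ∑ p, ∑ q, (G ε p q - (1 : Matrix ι ι ℝ) p q) ^ 2 with hq2
  have hc2 : 0 ≤ |C2| := abs_nonneg _
  have hAC : A * |C2| ≤ 1 := by nlinarith
  have hAL : A * L ≤ 1 / 2 := by nlinarith
  have hq2b : q2 ≤ (A * L) ^ 2 := by
    have e1 : |C2| * A ^ 3 = (A * |C2|) * A ^ 2 := by ring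
    have e2 : (A * L) ^ 2 = A ^ 2 * (x2 + 1) := by rw [mul_pow, hLL]
    rw [e2]
    have : (A * |C2|) * A ^ 2 ≤ 1 * A ^ 2 := mul_le_mul_of_nonneg_right hAC (sq_nonneg _)
    rw [← hAsq] at k2
    nlinarith
  have hGH : (G ε).IsHermitian := gram_herm _ (hF' ε).sb _
  obtain ⟨hPD, hlog⟩ := logdet_lower (G ε) hGH (A * L) (by positivity) hAL hq2b
  have hprod := prod_ev a (b' ε) (hF' ε) z (v ε) (fun i w => by
    rw [hz, hE.eig, h0 i i.2, zero_mul]) hPD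
  -- upper bounds
  have hu1 := det_upper (gram (b' ε) z) (gram_psd _ (hF' ε).sb (hF' ε).nb z) (fun _ => 1)
    fun _ => one_pos
  have hEp : ∀ r : Fin m, 0 < E (κ + r) := fun r => hp _ (Nat.le_add_right _ _)
  have hu2 := det_upper (gram a (v ε)) (gram_psd _ hF.sa hF.na (v ε)) (fun r => E (κ + r)) hEp
  -- sums over `S`
  have hH1d : ∀ (x : H) (r : ℕ), H1 x (d r) = ∑ k ∈ S, c r k * H1 x (e k) := by
    intro x r
    simp only [hd, map_sum, map_smul, smul_eq_mul]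
  have hbdd : ∀ r : ℕ, b (d r) (d r) = ∑ k ∈ S, c r k ^ 2 := by
    intro r
    have e1 : ∀ k ∈ S, b (d r) (e k) = c r k := by
      intro k hk
      rw [hF.sb]
      simp only [hd, map_sum, map_smul, smul_eq_mul, hE.orth, mul_ite, mul_one, mul_zero,
        sum_ite_eq, if_pos hk]
    have e2 : b (d r) (d r) = ∑ k ∈ S, c r k * b (d r) (e k) := by
      conv_lhs => enter [2]; rw [hd]
      simp only [map_sum, map_smul, smul_eq_mul]
    rw [e2]
    refine sum_congr rfl fun k hk => ?_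
    rw [e1 k hk]
    ring
  have hadd : ∀ r : ℕ, a (d r) (d r) = ∑ k ∈ S, c r k ^ 2 * E k := by
    intro r
    have e1 : ∀ k ∈ S, a (d r) (e k) = E k * c r k := by
      intro k hk
      rw [hF.sa, hE.eig]
      congr 1
      simp only [hd, map_sum, map_smul, smul_eq_mul, hE.orth, mul_ite, mul_one, mul_zero,
        sum_ite_eq, if_pos hk]
    have e2 : a (d r) (d r) = ∑ k ∈ S, c r k * a (d r) (e k) := by
      conv_lhs => enter [2]; rw [hd]
      simp only [map_sum, map_smul, smul_eq_mul]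
    rw [e2]
    refine sum_congr rfl fun k hk => ?_
    rw [e1 k hk]
    ring
  have hgz : ∑ i : Fin κ, (gram (b' ε) z i i / 1 - 1) ≤
      ∑ i : Fin κ, ε * H1 (e i) (e i) + ε ^ 2 * (κ * K) := by
    have : ∀ i : Fin κ, gram (b' ε) z i i / 1 - 1 ≤ ε * H1 (e i) (e i) + ε ^ 2 * K := by
      intro i
      have h1 := g4 (e i)
      rw [hE.orth, if_pos rfl] at h1
      simp only [gram, hz, div_one]
      linarith
    refine (sum_le_sum fun i _ => this i).trans (le_of_eq ?_)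
    rw [sum_add_distrib]
    simp only [sum_const, card_univ, Fintype.card_fin, nsmul_eq_mul]
    ring
  have hgv : ∑ r : Fin m, (gram a (v ε) r r / E (κ + r) - 1) =
      ε ^ 2 * ∑ r : Fin m, ∑ k ∈ S, c r k ^ 2 * (E k / E (κ + r)) := by
    rw [mul_sum]
    refine sum_congr rfl fun r _ => ?_
    have e1 : a (e (κ + r)) (d r) = 0 := by
      rw [hE.eig, hbd _ _ (by have := r.2; omega), mul_zero]
    have e2 : a (e (κ + r)) (e (κ + r)) = E (κ + r) := by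
      rw [hE.eig, hE.orth, if_pos rfl, mul_one]
    have e3 : gram a (v ε) r r = E (κ + r) + ε ^ 2 * a (d r) (d r) := by
      simp only [gram, hv, map_add, map_smul, _root_.add_apply, _root_.smul_apply, smul_eq_mul]
      rw [hF.sa (d r) (e (κ + r)), e1, e2]
      ring
    have hne := (hEp r).ne'
    rw [e3, hadd, add_div, div_self hne, add_sub_cancel_left, mul_div_assoc, sum_div]
    congr 1
    refine sum_congr rfl fun k _ => ?_
    rw [mul_div_assoc]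
  -- the diagonal
  have hX1 : ∑ p, X p p = ∑ i : Fin κ, H1 (e i) (e i) + ∑ r : Fin m, H1 (e (κ + r)) (e (κ + r)) := by
    rw [Fintype.sum_sum_type]
    rfl
  have hBes' : ∀ p, ∑ q, X p q ^ 2 + ∑ k ∈ S, H1 (eb p) (e k) ^ 2 ≤ H2 (eb p) (eb p) := by
    intro p
    have h1 := hBes (ix κ m p) (range (κ + m) ∪ S)
    rw [sum_union] at h1
    · refine le_trans (le_of_eq ?_) h1
      congr 1
      exact ix_sum κ m fun l => H1 (eb p) (e l) ^ 2
    · rw [Finset.disjoint_left]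
      intro k hk hk'
      have := hS k hk'
      rw [Finset.mem_range] at hk
      omega
  have hY1 : ∑ r : Fin m, ∑ k ∈ S, (H1 (e (κ + r)) (e k) ^ 2 / 2 +
      2 * c r k * H1 (e (κ + r)) (e k) + c r k ^ 2) ≤ ∑ p, Y p p - x2 / 2 := by
    have h1 : ∑ p, Y p p - x2 / 2 = ∑ p, (Y p p - (∑ q, X p q ^ 2) / 2) := by
      rw [sum_sub_distrib, hx2, sum_div]
    rw [h1, Fintype.sum_sum_type]
    have h2 : 0 ≤ ∑ i : Fin κ, (Y (Sum.inl i) (Sum.inl i) - (∑ q, X (Sum.inl i) q ^ 2) / 2) := by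
      refine sum_nonneg fun i _ => ?_
      have h3 := hBes' (Sum.inl i)
      have h4 : 0 ≤ ∑ k ∈ S, H1 (eb (Sum.inl i)) (e k) ^ 2 := sum_nonneg fun k _ => sq_nonneg _
      have h5 : Y (Sum.inl i) (Sum.inl i) = H2 (eb (Sum.inl i)) (eb (Sum.inl i)) / 2 := by
        simp only [hY, hdb, Sum.elim_inl, map_zero, _root_.zero_apply, add_zero]
      rw [h5]
      linarith
    refine le_add_of_nonneg_of_le h2 (sum_le_sum fun r _ => ?_)
    have h3 := hBes' (Sum.inr r)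
    have h5 : Y (Sum.inr r) (Sum.inr r) = H2 (e (κ + r)) (e (κ + r)) / 2 +
        2 * ∑ k ∈ S, c r k * H1 (e (κ + r)) (e k) + ∑ k ∈ S, c r k ^ 2 := by
      have h6 : Y (Sum.inr r) (Sum.inr r) = H2 (e (κ + r)) (e (κ + r)) / 2 +
          H1 (e (κ + r)) (d r) + H1 (d r) (e (κ + r)) + b (d r) (d r) := rfl
      rw [h6, s1 (d r), hH1d, hbdd]
      ring
    have h7 : eb (Sum.inr r) = e (κ + r) := rfl
    rw [h7] at h3
    rw [h5, sum_add_distrib, sum_add_distrib, ← sum_div]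
    have h8 : ∑ k ∈ S, 2 * c r k * H1 (e (κ + r)) (e k) =
        2 * ∑ k ∈ S, c r k * H1 (e (κ + r)) (e k) := by
      rw [mul_sum]
      exact sum_congr rfl fun k _ => by ring
    rw [h8]
    linarith
  -- logarithms
  have hP0 : 0 < ∏ r : Fin m, Ev a (b' ε) (κ + r) :=
    prod_pos fun r _ => hp' ε _ (Nat.le_add_right _ _)
  have hPE : 0 < ∏ r : Fin m, E (κ + r) := prod_pos fun r _ => hEp r
  have hGd : 0 < (G ε).det := hPD.det_pos
  have hz0 : 0 ≤ (gram (b' ε) z).det := (gram_psd _ (hF' ε).sb (hF' ε).nb z).det_nonneg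
  have ha0 : 0 ≤ (gram a (v ε)).det := (gram_psd _ hF.sa hF.na (v ε)).det_nonneg
  have hchain : (G ε).det * ∏ r : Fin m, Ev a (b' ε) (κ + r) ≤
      Real.exp (∑ i : Fin κ, (gram (b' ε) z i i / 1 - 1)) * ((∏ r : Fin m, E (κ + r)) *
        Real.exp (∑ r : Fin m, (gram a (v ε) r r / E (κ + r) - 1))) := by
    refine hprod.trans (mul_le_mul ?_ hu2 ha0 (Real.exp_pos _).le)
    simpa using hu1
  have hlogs := Real.log_le_log (mul_pos hGd hP0) hchain
  rw [Real.log_mul hGd.ne' hP0.ne', Real.log_mul (Real.exp_pos _).ne'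
    (mul_pos hPE (Real.exp_pos _)).ne', Real.log_mul hPE.ne' (Real.exp_pos _).ne', Real.log_exp,
    Real.log_exp, Real.log_prod (fun r _ => (hp' ε _ (Nat.le_add_right _ _)).ne'),
    Real.log_prod (fun r _ => (hEp r).ne'), hgv] at hlogs
  -- sums over `Fin m` and over `range m`
  simp only [← Fin.sum_univ_eq_sum_range] at *
  have hsplit : ∑ r : Fin m, ∑ k ∈ S, (H1 (e (κ + r)) (e k) ^ 2 / 2 +
        2 * c r k * H1 (e (κ + r)) (e k) - c r k ^ 2 * (E k / E (κ + r) - 1)) =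
      ∑ r : Fin m, ∑ k ∈ S, (H1 (e (κ + r)) (e k) ^ 2 / 2 +
        2 * c r k * H1 (e (κ + r)) (e k) + c r k ^ 2) -
      ∑ r : Fin m, ∑ k ∈ S, c r k ^ 2 * (E k / E (κ + r)) := by
    rw [← sum_sub_distrib]
    refine sum_congr rfl fun r _ => ?_
    rw [← sum_sub_distrib]
    exact sum_congr rfl fun k _ => by ring
  rw [hsplit]
  have hq2n : 0 ≤ q2 := sum_nonneg fun p _ => sum_nonneg fun q _ => sq_nonneg _
  have t1 : 2 * (A * L) * q2 ≤ 2 * L * (x2 + 1) * A ^ 3 := by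
    have : 2 * (A * L) * q2 ≤ 2 * (A * L) * (A * L) ^ 2 :=
      mul_le_mul_of_nonneg_left hq2b (by positivity)
    refine this.trans (le_of_eq ?_)
    rw [← hLL]
    ring
  have t2 : ε ^ 2 * ∑ r : Fin m, ∑ k ∈ S, (H1 (e (κ + r)) (e k) ^ 2 / 2 +
      2 * c r k * H1 (e (κ + r)) (e k) + c r k ^ 2) ≤ ε ^ 2 * (∑ p, Y p p - x2 / 2) :=
    mul_le_mul_of_nonneg_left hY1 (sq_nonneg _)
  have t3 : ε * ∑ p, X p p = ε * ∑ i : Fin κ, H1 (e i) (e i) +
      ε * ∑ r : Fin m, H1 (e (κ + r)) (e (κ + r)) := by rw [hX1]; ring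
  have t4 : ∑ i : Fin κ, ε * H1 (e i) (e i) = ε * ∑ i : Fin κ, H1 (e i) (e i) := by rw [mul_sum]
  rw [t4] at hgz
  rw [t3] at k1
  exact arith hlogs hlog k1 k2 hgz t1 t2

end Pool.Agent.Run7.h307.LR
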