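import Pool.Agent.Y264.QR.All
import Pool.Agent.Run7.h307.LR.Core

/-!
# Expansion of the forms of the metrics `exp (φ + t h) g`
-/

set_option autoImplicit false

open Set Filter Topology MeasureTheory Asymptotics
open scoped Real ContDiff ENNReal
open Pool.Agent.Y262.QE Pool.Agent.Y264.QR

noncomputable section

namespace Pool.Agent.Run7.h307.LR

section

variable {M : Type} [MetricSpace M] [CompactSpace M] [MeasurableSpace M] [BorelSpace M]
  {μ : Measure M} [IsFiniteMeasure μ] {H : Type} [NormedAddCommGroup H] [InnerProductSpace ℝ H]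
  (i : H →L[ℝ] Lp ℝ 2 μ)

theorem habs (φ : C(M, ℝ)) (x : M) : |φ x| ≤ ‖φ‖ := by
  rw [← Real.norm_eq_abs]
  exact φ.norm_coe_le_norm x

theorem int_uv (u v : H) : Integrable (fun x => i u x * i v x) μ :=
  (Lp.memLp (i u)).integrable_mul (Lp.memLp (i v))

theorem int_w (w : C(M, ℝ)) (u v : H) : Integrable (fun x => w x * (i u x * i v x)) μ :=
  (int_uv i u v).bdd_mul w.continuous.measurable.aestronglyMeasurable
    (Eventually.of_forall fun x => w.norm_coe_le_norm x)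

/-- the form with the weight `w` -/
def wf (w : C(M, ℝ)) (u v : H) : ℝ := ∫ x, w x * (i u x * i v x) ∂μ

theorem wf_add (w w' : C(M, ℝ)) (u v : H) : wf i (w + w') u v = wf i w u v + wf i w' u v := by
  unfold wf
  rw [← integral_add (int_w i w u v) (int_w i w' u v)]
  refine integral_congr_ae (Eventually.of_forall fun x => ?_)
  simp only [ContinuousMap.add_apply]
  ring

theorem wf_smul (c : ℝ) (w : C(M, ℝ)) (u v : H) : wf i (c • w) u v = c * wf i w u v := by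
  unfold wf
  rw [← integral_const_mul]
  refine integral_congr_ae (Eventually.of_forall fun x => ?_)
  simp only [ContinuousMap.smul_apply, smul_eq_mul]
  ring

theorem wf_mono {w w' : C(M, ℝ)} (h : ∀ x, w x ≤ w' x) (v : H) : wf i w v v ≤ wf i w' v v := by
  refine integral_mono (int_w i w v v) (int_w i w' v v) fun x => ?_
  exact mul_le_mul_of_nonneg_right (h x) (mul_self_nonneg _)

theorem wf_abs {w : C(M, ℝ)} {C : ℝ} (h : ∀ x, |w x| ≤ C) (u v : H) :
    |wf i w u v| ≤ C * ∫ x, |i u x * i v x| ∂μ := by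
  unfold wf
  rw [← integral_const_mul, ← Real.norm_eq_abs]
  refine (norm_integral_le_integral_norm _).trans ?_
  refine integral_mono (int_w i w u v).norm ((int_uv i u v).abs.const_mul C) fun x => ?_
  simp only [norm_mul, Real.norm_eq_abs, abs_mul]
  exact mul_le_mul_of_nonneg_right (h x) (by positivity)

theorem exists_form (w : C(M, ℝ)) : ∃ B : H →L[ℝ] H →L[ℝ] ℝ, ∀ u v, B u v = wf i w u v := by
  obtain ⟨B, hB⟩ := Pool.Agent.Y469.QE.mul M μ (fun x => w x) w.continuous.measurable _ (habs w)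
  refine ⟨B.bilinearComp i i, fun u v => ?_⟩
  rw [ContinuousLinearMap.bilinearComp_apply, hB]
  rfl

/-- the exponential of a continuous function -/
def cexp (φ : C(M, ℝ)) : C(M, ℝ) := ⟨fun x => Real.exp (φ x), Real.continuous_exp.comp φ.continuous⟩

theorem cexp_apply (φ : C(M, ℝ)) (x : M) : cexp φ x = Real.exp (φ x) := rfl

theorem b_eq {b : C(M, ℝ) → H →L[ℝ] H →L[ℝ] ℝ} (hB : IsB μ i b) (φ : C(M, ℝ)) (u v : H) :
    b φ u v = wf i (cexp φ) u v := hB φ u v

theorem cexp_bd (φ : C(M, ℝ)) (x : M) : cexp φ x ≤ Real.exp ‖φ‖ :=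
  Real.exp_le_exp.2 ((le_abs_self _).trans (habs φ x))

/-- the expansion -/
theorem hexp {b : C(M, ℝ) → H →L[ℝ] H →L[ℝ] ℝ} (hB : IsB μ i b) (φ h : C(M, ℝ)) (u v : H) :
    (fun ε : ℝ => b (φ + ε • h) u v - (b φ u v + ε * wf i (h * cexp φ) u v +
      ε ^ 2 / 2 * wf i (h * h * cexp φ) u v)) =O[𝓝 0] fun ε : ℝ => ε ^ 3 := by
  have hsm : ∀ᶠ ε in 𝓝 (0 : ℝ), |ε| * ‖h‖ ≤ 1 := by
    have : Continuous fun ε : ℝ => |ε| * ‖h‖ := by fun_prop
    have h1 := this.tendsto 0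
    simp only [abs_zero, zero_mul] at h1
    exact h1.eventually (ge_mem_nhds one_pos)
  refine IsBigO.of_bound (Real.exp ‖φ‖ * ‖h‖ ^ 3 * ∫ x, |i u x * i v x| ∂μ) ?_
  filter_upwards [hsm] with ε hε
  have e1 : b (φ + ε • h) u v - (b φ u v + ε * wf i (h * cexp φ) u v +
      ε ^ 2 / 2 * wf i (h * h * cexp φ) u v) =
      wf i (cexp (φ + ε • h) + (-1 : ℝ) • (cexp φ + ε • (h * cexp φ) +
        (ε ^ 2 / 2) • (h * h * cexp φ))) u v := by
    rw [b_eq i hB, b_eq i hB, wf_add, wf_smul, wf_add, wf_add, wf_smul, wf_smul]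
    ring
  rw [e1, Real.norm_eq_abs, norm_pow, Real.norm_eq_abs]
  refine (wf_abs i (C := Real.exp ‖φ‖ * ‖h‖ ^ 3 * |ε| ^ 3) (fun x => ?_) u v).trans
    (le_of_eq (by ring))
  have e2 : (cexp (φ + ε • h) + (-1 : ℝ) • (cexp φ + ε • (h * cexp φ) +
      (ε ^ 2 / 2) • (h * h * cexp φ))) x =
      Real.exp (φ x) * (Real.exp (ε * h x) - ∑ m ∈ Finset.range 3, (ε * h x) ^ m / m.factorial) := by
    simp only [ContinuousMap.add_apply, ContinuousMap.smul_apply, ContinuousMap.mul_apply,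
      cexp_apply, smul_eq_mul, Finset.sum_range_succ, Finset.sum_range_zero, Nat.factorial,
      Real.exp_add]
    push_cast
    ring
  have hx : |ε * h x| ≤ 1 := by
    rw [abs_mul]
    exact (mul_le_mul_of_nonneg_left (habs h x) (abs_nonneg _)).trans hε
  have h3 := Real.exp_bound hx (n := 3) (by norm_num)
  rw [e2, abs_mul, abs_of_pos (Real.exp_pos _)]
  have h4 : |ε * h x| ^ 3 * ((3 : ℕ).succ / ((3 : ℕ).factorial * (3 : ℕ) : ℝ)) ≤ (|ε| * ‖h‖) ^ 3 := by
    have h5 : |ε * h x| ≤ |ε| * ‖h‖ := by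
      rw [abs_mul]
      exact mul_le_mul_of_nonneg_left (habs h x) (abs_nonneg _)
    have h6 : |ε * h x| ^ 3 ≤ (|ε| * ‖h‖) ^ 3 := pow_le_pow_left₀ (abs_nonneg _) h5 3
    have h7 : ((3 : ℕ).succ / ((3 : ℕ).factorial * (3 : ℕ) : ℝ)) ≤ 1 := by
      norm_num [Nat.factorial]
    calc _ ≤ |ε * h x| ^ 3 * 1 := mul_le_mul_of_nonneg_left h7 (by positivity)
      _ ≤ _ := by rw [mul_one]; exact h6
  calc Real.exp (φ x) * _ ≤ Real.exp ‖φ‖ * (|ε| * ‖h‖) ^ 3 :=
        mul_le_mul (cexp_bd φ x) (h3.trans h4) (abs_nonneg _) (Real.exp_pos _).le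
    _ = _ := by ring

theorem hup {b : C(M, ℝ) → H →L[ℝ] H →L[ℝ] ℝ} (hB : IsB μ i b) (φ h : C(M, ℝ)) :
    ∀ᶠ ε in 𝓝 (0 : ℝ), ∀ v, b (φ + ε • h) v v ≤ b φ v v + ε * wf i (h * cexp φ) v v +
      ε ^ 2 * ‖h‖ ^ 2 * b φ v v := by
  have hsm : ∀ᶠ ε in 𝓝 (0 : ℝ), |ε| * ‖h‖ ≤ 1 := by
    have : Continuous fun ε : ℝ => |ε| * ‖h‖ := by fun_prop
    have h1 := this.tendsto 0
    simp only [abs_zero, zero_mul] at h1
    exact h1.eventually (ge_mem_nhds one_pos)
  filter_upwards [hsm] with ε hε v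
  rw [b_eq i hB, b_eq i hB, ← wf_smul, ← wf_smul, ← wf_add, ← wf_add]
  refine wf_mono i (fun x => ?_) v
  simp only [ContinuousMap.add_apply, ContinuousMap.smul_apply, ContinuousMap.mul_apply,
    cexp_apply, smul_eq_mul, Real.exp_add]
  have h5 : |ε * h x| ≤ |ε| * ‖h‖ := by
    rw [abs_mul]
    exact mul_le_mul_of_nonneg_left (habs h x) (abs_nonneg _)
  have h6 := (abs_le.1 (Real.abs_exp_sub_one_sub_id_le (h5.trans hε))).2
  have h7 : (ε * h x) ^ 2 ≤ ε ^ 2 * ‖h‖ ^ 2 := by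
    rw [← sq_abs (ε * h x), ← sq_abs ε, ← mul_pow]
    exact pow_le_pow_left₀ (abs_nonneg _) h5 2
  have h8 : 0 < Real.exp (φ x) := Real.exp_pos _
  have h9 : Real.exp (ε * h x) ≤ 1 + ε * h x + ε ^ 2 * ‖h‖ ^ 2 := by linarith
  calc Real.exp (φ x) * Real.exp (ε * h x)
      ≤ Real.exp (φ x) * (1 + ε * h x + ε ^ 2 * ‖h‖ ^ 2) := mul_le_mul_of_nonneg_left h9 h8.le
    _ = _ := by ring

theorem bes {b : C(M, ℝ) → H →L[ℝ] H →L[ℝ] ℝ} (hB : IsB μ i b) (φ h : C(M, ℝ))
    (H1 : H →L[ℝ] H →L[ℝ] ℝ) (hH1 : ∀ u v, H1 u v = wf i (h * cexp φ) u v) (e : ℕ → H)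
    (orth : ∀ l r, b φ (e l) (e r) = if l = r then 1 else 0) (l : ℕ) (s : Finset ℕ) :
    ∑ r ∈ s, (H1 (e l) (e r)) ^ 2 ≤ wf i (h * h * cexp φ) (e l) (e l) := by
  set y : H := ∑ r ∈ s, H1 (e l) (e r) • e r with hy
  have e1 : H1 (e l) y = ∑ r ∈ s, (H1 (e l) (e r)) ^ 2 := by
    simp only [hy, map_sum, map_smul, smul_eq_mul, pow_two]
  have e2 : b φ y y = ∑ r ∈ s, (H1 (e l) (e r)) ^ 2 := by
    have e3 : ∀ r ∈ s, b φ y (e r) = H1 (e l) (e r) := by
      intro r hr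
      simp only [hy, map_sum, map_smul, _root_.sum_apply, _root_.smul_apply, smul_eq_mul, orth,
        mul_ite, mul_one, mul_zero, Finset.sum_ite_eq', if_pos hr]
    have e4 : b φ y y = ∑ r ∈ s, H1 (e l) (e r) * b φ y (e r) := by
      conv_lhs => enter [2]; rw [hy]
      simp only [map_sum, map_smul, smul_eq_mul]
    rw [e4]
    refine Finset.sum_congr rfl fun r hr => ?_
    rw [e3 r hr, pow_two]
  have h0 : 0 ≤ wf i (h * h * cexp φ) (e l) (e l) - 2 * H1 (e l) y + b φ y y := by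
    rw [hH1, b_eq i hB]
    unfold wf
    have hA := int_w (μ := μ) i (h * h * cexp φ) (e l) (e l)
    have hB' := (int_w (μ := μ) i (h * cexp φ) (e l) y).const_mul 2
    have hC := int_w (μ := μ) i (cexp φ) y y
    have hAB : Integrable (fun x => (h * h * cexp φ) x * (i (e l) x * i (e l) x) -
      2 * ((h * cexp φ) x * (i (e l) x * i y x))) μ := hA.sub hB'
    rw [← integral_const_mul, ← integral_sub hA hB', ← integral_add hAB hC]
    refine integral_nonneg fun x => ?_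
    simp only [ContinuousMap.mul_apply, cexp_apply, Pi.zero_apply]
    have : h x * h x * Real.exp (φ x) * (i (e l) x * i (e l) x) -
        2 * (h x * Real.exp (φ x) * (i (e l) x * i y x)) + Real.exp (φ x) * (i y x * i y x) =
        Real.exp (φ x) * (h x * i (e l) x - i y x) ^ 2 := by ring
    rw [this]
    positivity
  rw [e1, e2] at h0
  linarith

end

end Pool.Agent.Run7.h307.LR
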