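import Pool.Agent.Run7.h307.LR.RA
import Pool.Agent.Run7.h307.LR.Wf
import Pool.Agent.Q205.QLim.One

/-!
# The sum rule, abstract form
-/

set_option autoImplicit false

open Set Filter Topology MeasureTheory Asymptotics
open scoped Real ContDiff ENNReal
open Pool.Agent.Y262.QE Pool.Agent.Y264.QR

noncomputable section

namespace Pool.Agent.Run7.h307.LR

/-- the term of a pair of levels -/
def term (x Ei Ek : ℝ) : ℝ≥0∞ := ENNReal.ofReal (x ^ 2 * (Ek + Ei)) / ENNReal.ofReal (Ek - Ei)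

/-- the sum over the pairs of levels on the two sides of the level `j` -/
def QQ (X : ℕ → ℕ → ℝ) (E : ℕ → ℝ) (j : ℕ) : ℝ≥0∞ :=
  ∑ i ∈ Finset.range (j + 1), ∑' k, if j < k ∧ 0 < E i then term (X i k) (E i) (E k) else 0

theorem fin_le {f : ℝ → ℝ} {t : ℝ} {X : ℕ → ℕ → ℝ} {E : ℕ → ℝ} {κ m : ℕ} (hmono : Monotone E)
    (hp : ∀ i, κ ≤ i → 0 < E i) {S : Finset ℕ} (hS : ∀ k ∈ S, κ + m ≤ k)
    (hlow : ∀ c : ℕ → ℕ → ℝ, Low f t (∑ r ∈ Finset.range m, ∑ k ∈ S, ((X (κ + r) k) ^ 2 / 2 +
      2 * c r k * X (κ + r) k - c r k ^ 2 * (E k / E (κ + r) - 1)))) :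
    ∑ r ∈ Finset.range m, ∑ k ∈ S, term (X (κ + r) k) (E (κ + r)) (E k) ≤ q2 f t := by
  have hE0 : ∀ r, 0 < E (κ + r) := fun r => hp _ (Nat.le_add_right _ _)
  by_cases hA : ∃ r ∈ Finset.range m, ∃ k ∈ S, E k = E (κ + r) ∧ X (κ + r) k ≠ 0
  · obtain ⟨r0, hr0, k0, hk0, hEE, hX⟩ := hA
    have hx2 : 0 < X (κ + r0) k0 ^ 2 := by positivity
    have hbig : ∀ y : ℝ, 0 ≤ y → ENNReal.ofReal (4 * y * X (κ + r0) k0 ^ 2) ≤ q2 f t := by
      intro y hy
      refine le_trans (ENNReal.ofReal_le_ofReal ?_)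
        (le_q2 (hlow fun r k => if r = r0 ∧ k = k0 then y * X (κ + r) k else 0))
      have h1 : ∀ r ∈ Finset.range m, 0 ≤ ∑ k ∈ S, ((X (κ + r) k) ^ 2 / 2 +
          2 * (if r = r0 ∧ k = k0 then y * X (κ + r) k else 0) * X (κ + r) k -
          (if r = r0 ∧ k = k0 then y * X (κ + r) k else 0) ^ 2 * (E k / E (κ + r) - 1)) := by
        intro r hr
        refine Finset.sum_nonneg fun k hk => ?_
        by_cases h : r = r0 ∧ k = k0
        · obtain ⟨rfl, rfl⟩ := h
          rw [if_pos ⟨rfl, rfl⟩, hEE, div_self (hE0 r).ne', sub_self, mul_zero, sub_zero]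
          have : 0 ≤ y * X (κ + r) k ^ 2 := by positivity
          nlinarith
        · rw [if_neg h]
          have : 0 ≤ X (κ + r) k ^ 2 := sq_nonneg _
          simp only [mul_zero, zero_mul, add_zero]
          nlinarith
      have h2 : 2 * y * X (κ + r0) k0 ^ 2 ≤ ∑ k ∈ S, ((X (κ + r0) k) ^ 2 / 2 +
          2 * (if r0 = r0 ∧ k = k0 then y * X (κ + r0) k else 0) * X (κ + r0) k -
          (if r0 = r0 ∧ k = k0 then y * X (κ + r0) k else 0) ^ 2 * (E k / E (κ + r0) - 1)) := by
        have h3 : ∀ k ∈ S, 0 ≤ ((X (κ + r0) k) ^ 2 / 2 +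
          2 * (if r0 = r0 ∧ k = k0 then y * X (κ + r0) k else 0) * X (κ + r0) k -
          (if r0 = r0 ∧ k = k0 then y * X (κ + r0) k else 0) ^ 2 * (E k / E (κ + r0) - 1)) := by
          intro k hk
          by_cases h : k = k0
          · subst h
            rw [if_pos ⟨rfl, rfl⟩, hEE, div_self (hE0 r0).ne', sub_self, mul_zero, sub_zero]
            have : 0 ≤ y * X (κ + r0) k ^ 2 := by positivity
            nlinarith
          · rw [if_neg (fun h' => h h'.2)]
            have : 0 ≤ X (κ + r0) k ^ 2 := sq_nonneg _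
            simp only [mul_zero, zero_mul, add_zero]
            nlinarith
        refine le_trans ?_ (Finset.single_le_sum h3 hk0)
        rw [if_pos ⟨rfl, rfl⟩, hEE, div_self (hE0 r0).ne', sub_self, mul_zero, sub_zero]
        nlinarith
      have h4 := Finset.single_le_sum h1 hr0
      linarith
    have htop : q2 f t = ⊤ := by
      by_contra hne
      have h1 := hbig (((q2 f t).toReal + 1) / (4 * X (κ + r0) k0 ^ 2)) (by positivity)
      have h2 : 4 * (((q2 f t).toReal + 1) / (4 * X (κ + r0) k0 ^ 2)) * X (κ + r0) k0 ^ 2 =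
          (q2 f t).toReal + 1 := by
        field_simp
      rw [h2] at h1
      have h3 := ENNReal.ofReal_le_iff_le_toReal hne |>.1 h1
      linarith
    rw [htop]
    exact le_top
  · push Not at hA
    set c : ℕ → ℕ → ℝ := fun r k => if E k = E (κ + r) then 0 else
      X (κ + r) k * E (κ + r) / (E k - E (κ + r)) with hc
    have hval : ∀ r ∈ Finset.range m, ∀ k ∈ S,
        term (X (κ + r) k) (E (κ + r)) (E k) = ENNReal.ofReal (2 * ((X (κ + r) k) ^ 2 / 2 +
          2 * c r k * X (κ + r) k - c r k ^ 2 * (E k / E (κ + r) - 1))) ∧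
        0 ≤ 2 * ((X (κ + r) k) ^ 2 / 2 +
          2 * c r k * X (κ + r) k - c r k ^ 2 * (E k / E (κ + r) - 1)) := by
      intro r hr k hk
      by_cases h : E k = E (κ + r)
      · have hx := hA r hr k hk h
        simp only [hc, if_pos h, hx, term]
        simp
      · have hle : E (κ + r) ≤ E k := hmono (by
          have := hS k hk
          have := Finset.mem_range.1 hr
          omega)
        have hlt : 0 < E k - E (κ + r) := sub_pos.2 (lt_of_le_of_ne hle (Ne.symm h))
        have hE := hE0 r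
        have e1 : 2 * ((X (κ + r) k) ^ 2 / 2 +
            2 * c r k * X (κ + r) k - c r k ^ 2 * (E k / E (κ + r) - 1)) =
            X (κ + r) k ^ 2 * (E k + E (κ + r)) / (E k - E (κ + r)) := by
          simp only [hc, if_neg h]
          field_simp
          ring
        rw [e1]
        refine ⟨?_, ?_⟩
        · rw [term, ENNReal.ofReal_div_of_pos hlt]
        · have := hE.trans_le hle
          positivity
    have e2 : ∑ r ∈ Finset.range m, ∑ k ∈ S, term (X (κ + r) k) (E (κ + r)) (E k) =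
        ENNReal.ofReal (2 * ∑ r ∈ Finset.range m, ∑ k ∈ S, ((X (κ + r) k) ^ 2 / 2 +
          2 * c r k * X (κ + r) k - c r k ^ 2 * (E k / E (κ + r) - 1))) := by
      rw [Finset.mul_sum, ENNReal.ofReal_sum_of_nonneg]
      · refine Finset.sum_congr rfl fun r hr => ?_
        rw [Finset.mul_sum, ENNReal.ofReal_sum_of_nonneg fun k hk => (hval r hr k hk).2]
        exact Finset.sum_congr rfl fun k hk => (hval r hr k hk).1
      · intro r hr
        rw [Finset.mul_sum]
        exact Finset.sum_nonneg fun k hk => (hval r hr k hk).2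
    rw [e2]
    exact le_q2 (hlow c)

theorem QQ_le {f : ℝ → ℝ} {t : ℝ} {X : ℕ → ℕ → ℝ} {E : ℕ → ℝ} {κ m j : ℕ} (hmono : Monotone E)
    (h0 : ∀ i < κ, E i = 0) (hp : ∀ i, κ ≤ i → 0 < E i) (hj : j + 1 = κ + m)
    (hlow : ∀ S : Finset ℕ, (∀ k ∈ S, κ + m ≤ k) → ∀ c : ℕ → ℕ → ℝ,
      Low f t (∑ r ∈ Finset.range m, ∑ k ∈ S, ((X (κ + r) k) ^ 2 / 2 +
      2 * c r k * X (κ + r) k - c r k ^ 2 * (E k / E (κ + r) - 1)))) :
    QQ X E j ≤ q2 f t := by
  unfold QQ
  rw [hj, ← Summable.tsum_finsetSum fun _ _ => ENNReal.summable, ENNReal.tsum_eq_iSup_sum]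
  refine iSup_le fun S => ?_
  refine le_trans (le_of_eq ?_)
    (fin_le (X := X) (S := S.filter fun k => κ + m ≤ k) hmono hp (fun k hk => (Finset.mem_filter.1 hk).2)
      (hlow _ fun k hk => (Finset.mem_filter.1 hk).2))
  have e1 : ∀ i k, (if j < k ∧ 0 < E i then term (X i k) (E i) (E k) else 0) =
      if κ + m ≤ k then (if κ ≤ i then term (X i k) (E i) (E k) else 0) else 0 := by
    intro i k
    by_cases hk : κ + m ≤ k
    · rw [if_pos hk]
      by_cases hi : κ ≤ i
      · rw [if_pos hi, if_pos ⟨by omega, hp i hi⟩]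
      · rw [if_neg hi, if_neg]
        rintro ⟨-, h⟩
        rw [h0 i (by omega)] at h
        exact lt_irrefl _ h
    · rw [if_neg hk, if_neg]
      rintro ⟨h, -⟩
      omega
  have e2 : (Finset.range (κ + m)).filter (fun i => κ ≤ i) =
      (Finset.range m).image fun r => κ + r := by
    ext i
    simp only [Finset.mem_filter, Finset.mem_range, Finset.mem_image]
    constructor
    · rintro ⟨h1, h2⟩
      exact ⟨i - κ, by omega, by omega⟩
    · rintro ⟨r, h1, rfl⟩
      omega
  have e3 : ∀ k, ∑ i ∈ Finset.range (κ + m), (if κ ≤ i then term (X i k) (E i) (E k) else 0) =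
      ∑ r ∈ Finset.range m, term (X (κ + r) k) (E (κ + r)) (E k) := by
    intro k
    rw [← Finset.sum_filter, e2, Finset.sum_image]
    intro x _ y _ h
    exact Nat.add_left_cancel h
  calc ∑ k ∈ S, ∑ i ∈ Finset.range (κ + m),
        (if j < k ∧ 0 < E i then term (X i k) (E i) (E k) else 0)
      = ∑ k ∈ S, if κ + m ≤ k then
          ∑ r ∈ Finset.range m, term (X (κ + r) k) (E (κ + r)) (E k) else 0 := by
        refine Finset.sum_congr rfl fun k _ => ?_
        simp only [e1]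
        by_cases hk : κ + m ≤ k
        · simp only [if_pos hk]
          exact e3 k
        · simp only [if_neg hk, Finset.sum_const_zero]
    _ = ∑ k ∈ S.filter (fun k => κ + m ≤ k),
          ∑ r ∈ Finset.range m, term (X (κ + r) k) (E (κ + r)) (E k) :=
        (Finset.sum_filter _ _).symm
    _ = _ := Finset.sum_comm

section

variable {M : Type} [MetricSpace M] [CompactSpace M] [MeasurableSpace M] [BorelSpace M]
  {μ : Measure M} [IsFiniteMeasure μ] {H : Type} [NormedAddCommGroup H] [InnerProductSpace ℝ H]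
  {i : H →L[ℝ] Lp ℝ 2 μ} {a : H →L[ℝ] H →L[ℝ] ℝ} {b : C(M, ℝ) → H →L[ℝ] H →L[ℝ] ℝ}

/-- minus the sum of the logarithms of the positive eigenvalues, made convex -/
def fN (a : H →L[ℝ] H →L[ℝ] ℝ) (b : C(M, ℝ) → H →L[ℝ] H →L[ℝ] ℝ) (φ h : C(M, ℝ)) (κ m : ℕ)
    (t : ℝ) : ℝ :=
  -(∑ r ∈ Finset.range m, Real.log (Ev a (b (φ + t • h)) (κ + r))) + κ * ‖h‖ ^ 2 * t ^ 2

theorem low (hSf : Sf μ i a) (hB : IsB μ i b) {κ : ℕ} (h0 : ∀ φ, ∀ l < κ, Ev a (b φ) l = 0)
    (hp : ∀ φ l, κ ≤ l → 0 < Ev a (b φ) l) (φ h : C(M, ℝ)) (m : ℕ) (t : ℝ) (e : ℕ → H) (E : ℕ → ℝ)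
    (hE : Eg a (b (φ + t • h)) e E) (S : Finset ℕ) (hS : ∀ k ∈ S, κ + m ≤ k) (c : ℕ → ℕ → ℝ) :
    Low (fN a b φ h κ m) t (∑ r ∈ Finset.range m, ∑ k ∈ S,
      ((wf i (h * cexp (φ + t • h)) (e (κ + r)) (e k)) ^ 2 / 2 +
      2 * c r k * wf i (h * cexp (φ + t • h)) (e (κ + r)) (e k) -
        c r k ^ 2 * (E k / E (κ + r) - 1))) := by
  obtain ⟨hF, hA, -, -⟩ := Pool.Agent.Q205.QLim.facts μ i a b hSf hB
  obtain ⟨H1, hH1⟩ := exists_form i (h * cexp (φ + t • h))
  obtain ⟨H2, hH2⟩ := exists_form i (h * h * cexp (φ + t • h))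
  have hmm : ∀ l, Ev a (b (φ + t • h)) l = E l :=
    Pool.Agent.Y592.QE.mm H a (b (φ + t • h)) (hF _) e E hE
  have hsym : ∀ u v, H1 u v = H1 v u := by
    intro u v
    rw [hH1, hH1]
    unfold wf
    refine integral_congr_ae (Eventually.of_forall fun x => ?_)
    simp only
    ring
  obtain ⟨C, hC⟩ := core a (b (φ + t • h)) (hF _) e E hE H1 H2 hsym
    (fun ε => b (φ + t • h + ε • h)) (fun ε => hF _)
    (fun u v => by
      have := hexp i hB (φ + t • h) h u v
      simpa only [hH1, hH2] using this)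
    (‖h‖ ^ 2) (by
      filter_upwards [hup i hB (φ + t • h) h] with ε hε v
      rw [hH1]
      exact hε v)
    (fun l s => by
      rw [hH2]
      exact bes i hB (φ + t • h) h H1 hH1 e hE.orth l s)
    κ m (fun l hl => by rw [← hmm, h0 _ l hl]) (fun l hl => by rw [← hmm]; exact hp _ l hl)
    (fun ε l hl => hp _ l hl) S hS c
  refine ⟨∑ r ∈ Finset.range m, H1 (e (κ + r)) (e (κ + r)) + 2 * κ * ‖h‖ ^ 2 * t, C, ?_⟩
  filter_upwards [hC] with ε hε
  have e1 : φ + (t + ε) • h = φ + t • h + ε • h := by rw [add_smul, add_assoc]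
  simp only [fN, e1, hmm]
  simp only [hH1] at hε ⊢
  linarith

theorem slp_tendsto {g : ℝ → ℝ} {α β a' b' : ℝ} (ha : HasDerivAt g a' α) (hb : HasDerivAt g b' β) :
    Tendsto (fun r => slp g α β r) (𝓝[>] 0) (𝓝 (b' - a')) := by
  have h1 := hb.tendsto_slope_zero_right
  have ha2 : HasDerivAt (fun r : ℝ => g (α - r)) (-a') 0 := by
    have h3 : HasDerivAt g a' (α - 0) := by rwa [sub_zero]
    exact HasDerivAt.comp_const_sub α 0 h3
  have h2 := ha2.tendsto_slope_zero_right
  have h3 := h1.add h2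
  have e : b' + -a' = b' - a' := by ring
  rw [e] at h3
  refine h3.congr' ?_
  filter_upwards [self_mem_nhdsWithin] with r hr
  simp only [slp, zero_add, sub_zero, smul_eq_mul]
  ring

theorem bound [Nonempty M] (hSf : Sf μ i a) (hB : IsB μ i b) (hW : Wl μ a b)
    (hex : ∀ φ, ∃ (e : ℕ → H) (E : ℕ → ℝ), Eg a (b φ) e E) (φ h : C(M, ℝ)) {α β : ℝ} (hαβ : α ≤ β)
    {η : ℝ} (hη : 0 < η) :
    ∀ᶠ j : ℕ in atTop, ∃ q : ℝ → ℝ≥0∞, Measurable q ∧ (∀ t e E, Eg a (b (φ + t • h)) e E →
      QQ (fun l k => wf i (h * cexp (φ + t • h)) (e l) (e k)) E j ≤ q t) ∧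
      ∫⁻ t in Icc α β, q t ≤
        ENNReal.ofReal (j * (avg μ h (φ + β • h) - avg μ h (φ + α • h) + η)) := by
  obtain ⟨hF, hA, hexp, -⟩ := Pool.Agent.Q205.QLim.facts μ i a b hSf hB
  obtain ⟨l1, l2, -, l4, l5⟩ := Pool.Agent.Y390.QR.LIP.lip M μ H a b hF hexp
  have hpi : 0 < 4 * π := by positivity
  -- the number of zero eigenvalues
  have hexp0 : ∃ j, 0 < Ev a (b φ) j := by
    have h1 := (hW φ).eventually (lt_mem_nhds (div_pos hpi (hA φ)))
    obtain ⟨j, hj⟩ := h1.exists
    refine ⟨j, ?_⟩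
    have : (0 : ℝ) < (j : ℝ) + 1 := by positivity
    exact (div_pos_iff_of_pos_right this).1 hj
  classical
  set κ := Nat.find hexp0 with hκ
  have h0 : ∀ ψ : C(M, ℝ), ∀ l < κ, Ev a (b ψ) l = 0 := by
    intro ψ l hl
    rcases l5 l with h | h
    · exact h ψ
    · exact absurd (h φ) (Nat.find_min hexp0 hl)
  have hp : ∀ (ψ : C(M, ℝ)) l, κ ≤ l → 0 < Ev a (b ψ) l := by
    intro ψ l hl
    rcases l5 l with h | h
    · have h1 := (Nat.find_spec hexp0).trans_le (l2 φ _ _ hl)
      rw [h φ] at h1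
      exact absurd h1 (lt_irrefl _)
    · exact h ψ
  -- the convex functions
  have hcont : ∀ m, Continuous (fN a b φ h κ m) := by
    intro m
    unfold fN
    refine Continuous.add (Continuous.neg (continuous_finsetSum _ fun r _ => ?_)) (by fun_prop)
    exact ((l4 (κ + r)).comp (by fun_prop : Continuous fun t : ℝ => φ + t • h)).log
      fun t => (hp _ _ (Nat.le_add_right _ _)).ne'
  have hconv : ∀ m, ConvexOn ℝ univ (fN a b φ h κ m) := by
    intro m
    refine convex_of_low _ (hcont m) fun t => ?_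
    obtain ⟨e, E, hE⟩ := hex (φ + t • h)
    have := low hSf hB h0 hp φ h m t e E hE ∅ (fun k hk => absurd hk (Finset.notMem_empty k))
      fun _ _ => 0
    simpa using this
  -- the limit
  set A : ℝ → ℝ := fun t => ∫ x, Real.exp ((φ + t • h) x) ∂μ with hAdef
  have hA0 : ∀ t, 0 < A t := fun t => hA (φ + t • h)
  set cm : ℕ → ℝ := fun m => (m : ℝ)⁻¹ * ∑ r ∈ Finset.range m, Real.log ((κ : ℝ) + r + 1) with hcm
  have hlim : ∀ t, Tendsto (fun m : ℕ => fN a b φ h κ m t / m + cm m) atTop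
      (𝓝 (Real.log (A t) - Real.log (4 * π))) := by
    intro t
    set u : ℕ → ℝ := fun n => Real.log (Ev a (b (φ + t • h)) (κ + n) / ((κ : ℝ) + n + 1)) with hu
    have hut : Tendsto u atTop (𝓝 (Real.log (4 * π / A t))) := by
      have h1 := (hW (φ + t • h)).comp (tendsto_add_atTop_nat κ)
      have h2 := (h1.log (div_pos hpi (hA0 t)).ne')
      refine h2.congr fun n => ?_
      simp only [Function.comp, hu]
      rw [add_comm n κ]
      push_cast
      rfl
    have h3 := (hut.cesaro).neg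
    have h4 : Tendsto (fun m : ℕ => κ * ‖h‖ ^ 2 * t ^ 2 * (m : ℝ)⁻¹) atTop (𝓝 0) := by
      have := (tendsto_inv_atTop_nhds_zero_nat (𝕜 := ℝ)).const_mul (κ * ‖h‖ ^ 2 * t ^ 2)
      rwa [mul_zero] at this
    have h5 := h3.add h4
    have e : -Real.log (4 * π / A t) + 0 = Real.log (A t) - Real.log (4 * π) := by
      rw [Real.log_div hpi.ne' (hA0 t).ne']
      ring
    rw [e] at h5
    refine h5.congr fun m => ?_
    have e2 : ∑ r ∈ Finset.range m, u r = ∑ r ∈ Finset.range m,
        Real.log (Ev a (b (φ + t • h)) (κ + r)) -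
        ∑ r ∈ Finset.range m, Real.log ((κ : ℝ) + r + 1) := by
      rw [← Finset.sum_sub_distrib]
      refine Finset.sum_congr rfl fun r _ => ?_
      have : (0 : ℝ) < (κ : ℝ) + r + 1 := by positivity
      rw [hu]
      exact Real.log_div (hp _ _ (Nat.le_add_right _ _)).ne' this.ne'
    rw [e2]
    simp only [fN, hcm, div_eq_mul_inv]
    ring
  have hslim : ∀ r : ℝ, Tendsto (fun m : ℕ => slp (fN a b φ h κ m) α β r / m) atTop
      (𝓝 (slp (fun t => Real.log (A t)) α β r)) := by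
    intro r
    have h1 := (((hlim (β + r)).sub (hlim β)).div_const r).sub
      (((hlim α).sub (hlim (α - r))).div_const r)
    have e1 : (Real.log (A (β + r)) - Real.log (4 * π) - (Real.log (A β) - Real.log (4 * π))) / r -
        (Real.log (A α) - Real.log (4 * π) - (Real.log (A (α - r)) - Real.log (4 * π))) / r =
        slp (fun t => Real.log (A t)) α β r := by
      unfold slp
      ring
    rw [e1] at h1
    refine h1.congr fun m => ?_
    unfold slp
    ring
  -- the derivative of the logarithm of the area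
  have hder : ∀ t, HasDerivAt (fun t => Real.log (A t)) (avg μ h (φ + t • h)) t := fun t =>
    (Pool.Agent.Y155.QR.hdA μ φ h t).log (hA (φ + t • h)).ne'
  set D := avg μ h (φ + β • h) - avg μ h (φ + α • h) with hD
  have h6 := (slp_tendsto (hder α) (hder β)).eventually
    (gt_mem_nhds (show D < D + η / 4 by linarith))
  obtain ⟨r, hr, hr0⟩ := (h6.and self_mem_nhdsWithin).exists
  have h7 := (hslim r).eventually (gt_mem_nhds (show slp (fun t => Real.log (A t)) α β r <
    D + η / 2 by linarith))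
  have h8 : Tendsto (fun j : ℕ => j + 1 - κ) atTop atTop := by
    refine tendsto_atTop.2 fun N => ?_
    filter_upwards [eventually_ge_atTop (N + κ)] with j hj
    omega
  have h9 := h8.eventually h7
  have h10 : ∀ᶠ j : ℕ in atTop, (1 + κ) * (|D| + η) ≤ (j : ℝ) * (η / 2) := by
    have : Tendsto (fun j : ℕ => (j : ℝ) * (η / 2)) atTop atTop :=
      tendsto_natCast_atTop_atTop.atTop_mul_const (by positivity)
    exact this.eventually_ge_atTop _
  filter_upwards [h9, h10, eventually_ge_atTop κ] with j k1 k2 k3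
  set m := j + 1 - κ with hm
  have hjm : j + 1 = κ + m := by omega
  have hm0 : 0 < m := by omega
  refine ⟨q2 (fN a b φ h κ m), meas_q2 (hcont m), fun t e E hE => ?_, ?_⟩
  · have hmm : ∀ l, Ev a (b (φ + t • h)) l = E l :=
      Pool.Agent.Y592.QE.mm H a (b (φ + t • h)) (hF _) e E hE
    exact QQ_le hE.mono (fun l hl => by rw [← hmm, h0 _ l hl])
      (fun l hl => by rw [← hmm]; exact hp _ l hl) hjm
      fun S hS c => low hSf hB h0 hp φ h m t e E hE S hS c
  · refine (int_q2 (hconv m) (hcont m) hαβ hr0).trans (ENNReal.ofReal_le_ofReal ?_)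
    have hmR : (0 : ℝ) < m := by exact_mod_cast hm0
    rw [div_lt_iff₀ hmR] at k1
    have hcast : (m : ℝ) = j + 1 - κ := by
      have : (j : ℝ) + 1 = κ + m := by exact_mod_cast hjm
      linarith
    refine k1.le.trans ?_
    rw [hcast]
    have hκ0 : (0 : ℝ) ≤ κ := Nat.cast_nonneg _
    have hDa : D ≤ |D| := le_abs_self D
    have hDb : -D ≤ |D| := neg_le_abs D
    have hb1 : (1 - (κ : ℝ)) * (D + η / 2) ≤ (1 + κ) * (|D| + η) := by
      have : |(1 - (κ : ℝ)) * (D + η / 2)| ≤ (1 + κ) * (|D| + η) := by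
        rw [abs_mul]
        refine mul_le_mul ?_ ?_ (abs_nonneg _) (by positivity)
        · rw [abs_le]
          constructor <;> linarith
        · rw [abs_le]
          constructor <;> linarith [abs_nonneg D]
      exact (le_abs_self _).trans this
    nlinarith

end

end Pool.Agent.Run7.h307.LR
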