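import Pool.Agent.Run7.h307.LR.Abs

/-!
# Close pairs of levels
-/

set_option autoImplicit false

open Set Filter Topology MeasureTheory Asymptotics
open scoped Real ContDiff ENNReal
open Pool.Agent.Y262.QE Pool.Agent.Y264.QR

noncomputable section

namespace Pool.Agent.Run7.h307.LR

/-- the sum of the squares over the close pairs of levels on the two sides of the level `j` -/
def CC (X : ℕ → ℕ → ℝ) (E : ℕ → ℝ) (c s : ℝ) (j : ℕ) : ℝ≥0∞ :=
  ∑ i ∈ Finset.range (j + 1), ∑' k, if j < k ∧ c * E k - c * E i ≤ s then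
    ENNReal.ofReal (X i k ^ 2) else 0

theorem term_ge {x Ei Ek c s L : ℝ} (hs : 0 < s) (hL : 0 < L) (hc : 0 < c) (hE : Ei ≤ Ek)
    (hcs : c * Ek - c * Ei ≤ s) (hLi : L ≤ c * Ei) :
    ENNReal.ofReal (x ^ 2) ≤ ENNReal.ofReal (s / (2 * L)) * term x Ei Ek := by
  have hEi : 0 < Ei := by
    by_contra h
    push Not at h
    nlinarith
  unfold term
  rcases eq_or_lt_of_le hE with h | h
  · subst h
    rw [sub_self, ENNReal.ofReal_zero]
    by_cases hx : x = 0
    · subst hx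
      simp
    · have h1 : ENNReal.ofReal (x ^ 2 * (Ei + Ei)) ≠ 0 := by
        rw [ne_eq, ENNReal.ofReal_eq_zero, not_le]
        positivity
      rw [ENNReal.div_zero h1, ENNReal.mul_top]
      · exact le_top
      · rw [ne_eq, ENNReal.ofReal_eq_zero, not_le]
        positivity
  · have hd : 0 < Ek - Ei := sub_pos.2 h
    rw [← ENNReal.ofReal_div_of_pos hd, ← ENNReal.ofReal_mul (by positivity)]
    refine ENNReal.ofReal_le_ofReal ?_
    have h1 : s / (2 * L) * (x ^ 2 * (Ek + Ei) / (Ek - Ei)) =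
        x ^ 2 * ((s * (Ek + Ei)) / (2 * L * (Ek - Ei))) := by
      field_simp
    rw [h1]
    have h2 : 1 ≤ (s * (Ek + Ei)) / (2 * L * (Ek - Ei)) := by
      rw [le_div_iff₀ (by positivity), one_mul]
      have h3 : 2 * L * (Ek - Ei) ≤ 2 * (c * Ei) * (Ek - Ei) := by nlinarith
      have h4 : 2 * (c * Ei) * (Ek - Ei) = 2 * Ei * (c * Ek - c * Ei) := by ring
      nlinarith
    nlinarith [sq_nonneg x]

theorem CC_le {X : ℕ → ℕ → ℝ} {E : ℕ → ℝ} {c s L : ℝ} {j : ℕ} (hmono : Monotone E) (hs : 0 < s)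
    (hL : 0 < L) (hc : 0 < c) (hj : L + s ≤ c * E (j + 1)) :
    CC X E c s j ≤ ENNReal.ofReal (s / (2 * L)) * QQ X E j := by
  unfold CC QQ
  rw [Finset.mul_sum]
  refine Finset.sum_le_sum fun i hi => ?_
  rw [← ENNReal.tsum_mul_left]
  refine ENNReal.tsum_le_tsum fun k => ?_
  by_cases h : j < k ∧ c * E k - c * E i ≤ s
  · have h1 : E (j + 1) ≤ E k := hmono h.1
    have h2 : c * E (j + 1) ≤ c * E k := mul_le_mul_of_nonneg_left h1 hc.le
    have hLi : L ≤ c * E i := by linarith [h.2]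
    have hEi : 0 < E i := by
      by_contra h'
      push Not at h'
      nlinarith
    rw [if_pos h, if_pos ⟨h.1, hEi⟩]
    have hik : i ≤ k := by
      have := Finset.mem_range.1 hi
      omega
    exact term_ge hs hL hc (hmono hik) h.2 hLi
  · rw [if_neg h]
    exact zero_le

section

variable {M : Type} [MetricSpace M] [CompactSpace M] [MeasurableSpace M] [BorelSpace M]
  {μ : Measure M} [IsFiniteMeasure μ] {H : Type} [NormedAddCommGroup H] [InnerProductSpace ℝ H]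
  {i : H →L[ℝ] Lp ℝ 2 μ} {a : H →L[ℝ] H →L[ℝ] ℝ} {b : C(M, ℝ) → H →L[ℝ] H →L[ℝ] ℝ}

theorem area_le (φ h : C(M, ℝ)) (t t' : ℝ) :
    ∫ x, Real.exp ((φ + t • h) x) ∂μ ≤
      Real.exp (‖h‖ * |t - t'|) * ∫ x, Real.exp ((φ + t' • h) x) ∂μ := by
  rw [← integral_const_mul]
  refine integral_mono (Pool.Agent.Y155.QR.int_cont μ (by fun_prop))
    (Pool.Agent.Y155.QR.int_cont μ (by fun_prop)) fun x => ?_
  simp only
  rw [← Real.exp_add]
  refine Real.exp_le_exp.2 ?_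
  simp only [ContinuousMap.add_apply, ContinuousMap.smul_apply, smul_eq_mul]
  have h1 : (t - t') * h x ≤ ‖h‖ * |t - t'| := by
    calc (t - t') * h x ≤ |(t - t') * h x| := le_abs_self _
      _ = |t - t'| * |h x| := abs_mul _ _
      _ ≤ |t - t'| * ‖h‖ := mul_le_mul_of_nonneg_left (habs h x) (abs_nonneg _)
      _ = _ := mul_comm _ _
  linarith

/-- Weyl's law is uniform on compact intervals -/
theorem weyl_unif [Nonempty M] (hSf : Sf μ i a) (hB : IsB μ i b) (hW : Wl μ a b) (φ h : C(M, ℝ))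
    (α β : ℝ) {ε : ℝ} (hε : 0 < ε) (hε1 : ε < 1) :
    ∀ᶠ j : ℕ in atTop, ∀ t ∈ Icc α β, (1 - ε) * (j + 1) ≤
      (∫ x, Real.exp ((φ + t • h) x) ∂μ) / (4 * π) * Ev a (b (φ + t • h)) j := by
  obtain ⟨hF, hA, hexp, -⟩ := Pool.Agent.Q205.QLim.facts μ i a b hSf hB
  obtain ⟨l1, -, l3, -, -⟩ := Pool.Agent.Y390.QR.LIP.lip M μ H a b hF hexp
  have hpi : 0 < 4 * π := by positivity
  have hloc : ∀ t₀ ∈ Icc α β, ∃ U ∈ 𝓝 t₀, ∀ᶠ j : ℕ in atTop, ∀ t ∈ U, (1 - ε) * (j + 1) ≤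
      (∫ x, Real.exp ((φ + t • h) x) ∂μ) / (4 * π) * Ev a (b (φ + t • h)) j := by
    intro t₀ _
    have hU : ∀ᶠ t in 𝓝 t₀, Real.exp (2 * (‖h‖ * |t₀ - t|)) < 1 / (1 - ε / 2) := by
      have hc : Continuous fun t : ℝ => Real.exp (2 * (‖h‖ * |t₀ - t|)) := by fun_prop
      have h1 := hc.tendsto t₀
      simp only [sub_self, abs_zero, mul_zero, Real.exp_zero] at h1
      refine h1.eventually (gt_mem_nhds ?_)
      rw [lt_div_iff₀ (by linarith)]
      linarith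
    refine ⟨_, hU, ?_⟩
    have hW1 := (hW (φ + t₀ • h)).const_mul ((∫ x, Real.exp ((φ + t₀ • h) x) ∂μ) / (4 * π))
    have e1 : (∫ x, Real.exp ((φ + t₀ • h) x) ∂μ) / (4 * π) *
        (4 * π / ∫ x, Real.exp ((φ + t₀ • h) x) ∂μ) = 1 := by
      have := (hA (φ + t₀ • h)).ne'
      field_simp
    rw [e1] at hW1
    have hpos : (1 - ε) / (1 - ε / 2) < 1 := by
      rw [div_lt_one (by linarith)]
      linarith
    filter_upwards [hW1.eventually (lt_mem_nhds hpos)] with j hj t ht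
    have hj1 : (0 : ℝ) < (j : ℝ) + 1 := by positivity
    have ht' : Real.exp (2 * (‖h‖ * |t₀ - t|)) < 1 / (1 - ε / 2) := ht
    set A0 := ∫ x, Real.exp ((φ + t₀ • h) x) ∂μ with hA0
    set A1 := ∫ x, Real.exp ((φ + t • h) x) ∂μ with hA1
    set V0 := Ev a (b (φ + t₀ • h)) j with hV0
    set V1 := Ev a (b (φ + t • h)) j with hV1
    have k1 : A0 ≤ Real.exp (‖h‖ * |t₀ - t|) * A1 := area_le φ h t₀ t
    have k2 : V0 ≤ Real.exp (‖h‖ * |t₀ - t|) * V1 := by
      have h1 := l3 (φ + t₀ • h) (φ + t • h) j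
      have e2 : (φ + t₀ • h) - (φ + t • h) = (t₀ - t) • h := by
        rw [sub_smul]
        abel
      rw [e2, norm_smul, Real.norm_eq_abs, mul_comm |t₀ - t|] at h1
      exact h1
    have hA1p : 0 < A1 := hA (φ + t • h)
    have hV0n : 0 ≤ V0 := l1 _ _
    have hV1n : 0 ≤ V1 := l1 _ _
    have k3 : A0 * V0 ≤ Real.exp (2 * (‖h‖ * |t₀ - t|)) * (A1 * V1) := by
      calc A0 * V0 ≤ (Real.exp (‖h‖ * |t₀ - t|) * A1) * (Real.exp (‖h‖ * |t₀ - t|) * V1) :=
            mul_le_mul k1 k2 hV0n (by positivity)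
        _ = _ := by
          rw [two_mul, Real.exp_add]
          ring
    have k4 : A0 * V0 ≤ 1 / (1 - ε / 2) * (A1 * V1) :=
      k3.trans (mul_le_mul_of_nonneg_right ht'.le (by positivity))
    have k5 : (1 - ε) / (1 - ε / 2) * (j + 1) ≤ A0 / (4 * π) * V0 := by
      have h1 : (1 - ε) / (1 - ε / 2) < A0 / (4 * π) * (V0 / (j + 1)) := hj
      have h2 : A0 / (4 * π) * (V0 / (j + 1)) * (j + 1) = A0 / (4 * π) * V0 := by
        field_simp
      rw [← h2]
      exact mul_le_mul_of_nonneg_right h1.le hj1.le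
    have h2e : 0 < 1 - ε / 2 := by linarith
    have k6 : (1 - ε / 2) * (A0 / (4 * π) * V0) ≤ A1 / (4 * π) * V1 := by
      have h3 : (1 - ε / 2) * (A0 * V0) ≤ A1 * V1 := by
        have := mul_le_mul_of_nonneg_left k4 h2e.le
        rwa [← mul_assoc (1 - ε / 2) (1 / (1 - ε / 2)), mul_one_div_cancel h2e.ne', one_mul]
          at this
      have h4 : (1 - ε / 2) * (A0 / (4 * π) * V0) = (1 - ε / 2) * (A0 * V0) / (4 * π) := by ring
      have h5 : A1 / (4 * π) * V1 = A1 * V1 / (4 * π) := by ring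
      rw [h4, h5]
      exact div_le_div_of_nonneg_right h3 hpi.le
    refine le_trans ?_ k6
    have h6 := mul_le_mul_of_nonneg_left k5 h2e.le
    refine le_trans (le_of_eq ?_) h6
    have h7 : (1 - ε / 2) * ((1 - ε) / (1 - ε / 2)) = 1 - ε := by
      rw [mul_div_assoc', mul_comm, mul_div_assoc, div_self h2e.ne', mul_one]
    rw [← mul_assoc, h7]
  choose! U hU hUj using hloc
  obtain ⟨T, hT, hcov⟩ := isCompact_Icc.elim_nhds_subcover U fun t ht => hU t ht
  have hall : ∀ᶠ j : ℕ in atTop, ∀ t₀ ∈ T, ∀ t ∈ U t₀, (1 - ε) * (j + 1) ≤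
      (∫ x, Real.exp ((φ + t • h) x) ∂μ) / (4 * π) * Ev a (b (φ + t • h)) j :=
    (Finset.eventually_all T).2 fun t₀ ht₀ => hUj t₀ (hT t₀ ht₀)
  filter_upwards [hall] with j hj t ht
  obtain ⟨t₀, ht₀, ht'⟩ := mem_iUnion₂.1 (hcov ht)
  exact hj t₀ ht₀ t ht'

theorem close_bound [Nonempty M] (hSf : Sf μ i a) (hB : IsB μ i b) (hW : Wl μ a b)
    (hex : ∀ φ, ∃ (e : ℕ → H) (E : ℕ → ℝ), Eg a (b φ) e E) (φ h : C(M, ℝ)) {α β : ℝ} (hαβ : α ≤ β)
    {s η : ℝ} (hs : 0 < s) (hη : 0 < η) :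
    ∀ᶠ j : ℕ in atTop, ∃ q : ℝ → ℝ≥0∞, Measurable q ∧
      (∀ t ∈ Icc α β, ∀ e E, Eg a (b (φ + t • h)) e E →
        CC (fun l k => wf i (h * cexp (φ + t • h)) (e l) (e k)) E
          ((∫ x, Real.exp ((φ + t • h) x) ∂μ) / (4 * π)) s j ≤ q t) ∧
      ∫⁻ t in Icc α β, q t ≤
        ENNReal.ofReal (s / 2 * (avg μ h (φ + β • h) - avg μ h (φ + α • h) + η)) := by
  obtain ⟨hF, hA, -, -⟩ := Pool.Agent.Q205.QLim.facts μ i a b hSf hB
  have hpi : 0 < 4 * π := by positivity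
  set D := avg μ h (φ + β • h) - avg μ h (φ + α • h) with hD
  set ε := η / (4 * (|D| + η)) with hε
  have hDη : 0 < |D| + η := by positivity
  have hε0 : 0 < ε := by positivity
  have hε1 : ε ≤ 1 / 4 := by
    rw [hε, div_le_iff₀ (by positivity)]
    have := abs_nonneg D
    linarith
  have h1 := bound hSf hB hW hex φ h hαβ (show 0 < η / 2 by positivity)
  have h2 := (tendsto_add_atTop_nat 1).eventually (weyl_unif hSf hB hW φ h α β hε0 (by linarith))
  have h3 : ∀ᶠ j : ℕ in atTop, s ≤ ε * (j : ℝ) ∧ 0 < (j : ℝ) := by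
    have h4 : Tendsto (fun j : ℕ => ε * (j : ℝ)) atTop atTop :=
      tendsto_natCast_atTop_atTop.const_mul_atTop hε0
    exact (h4.eventually_ge_atTop _).and (tendsto_natCast_atTop_atTop.eventually_gt_atTop 0)
  filter_upwards [h1, h2, h3] with j ⟨q, hq1, hq2, hq3⟩ k2 ⟨k3, k4⟩
  set L := (1 - 2 * ε) * (j : ℝ) with hL
  have hL0 : 0 < L := mul_pos (by linarith) k4
  refine ⟨fun t => ENNReal.ofReal (s / (2 * L)) * q t, hq1.const_mul _, fun t ht e E hE => ?_, ?_⟩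
  · have hmm : ∀ l, Ev a (b (φ + t • h)) l = E l :=
      Pool.Agent.Y592.QE.mm H a (b (φ + t • h)) (hF _) e E hE
    have hc : 0 < (∫ x, Real.exp ((φ + t • h) x) ∂μ) / (4 * π) := div_pos (hA _) hpi
    have h5 := k2 t ht
    rw [hmm] at h5
    push_cast at h5
    refine (CC_le hE.mono hs hL0 hc ?_).trans (mul_le_mul_right (hq2 t e E hE) _)
    refine le_trans ?_ h5
    rw [hL]
    nlinarith
  · rw [lintegral_const_mul _ hq1]
    refine (mul_le_mul_right hq3 _).trans ?_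
    rw [← ENNReal.ofReal_mul (by positivity)]
    refine ENNReal.ofReal_le_ofReal ?_
    have e1 : s / (2 * L) * (j * (D + η / 2)) = s / 2 * ((D + η / 2) / (1 - 2 * ε)) := by
      rw [hL]
      have : (1 - 2 * ε) ≠ 0 := by
        have : 0 < 1 - 2 * ε := by linarith
        exact this.ne'
      field_simp
    rw [e1]
    refine mul_le_mul_of_nonneg_left ?_ (by positivity)
    rw [div_le_iff₀ (by linarith)]
    have h6 : 2 * ε * (D + η) ≤ η / 2 := by
      have h7 : 2 * ε * (D + η) ≤ 2 * ε * (|D| + η) :=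
        mul_le_mul_of_nonneg_left (by linarith [le_abs_self D]) (by positivity)
      have h8 : 2 * ε * (|D| + η) = η / 2 := by
        rw [hε]
        field_simp
        ring
      linarith
    linarith

/-- Markov's inequality -/
theorem close_measure [Nonempty M] (hSf : Sf μ i a) (hB : IsB μ i b) (hW : Wl μ a b)
    (hex : ∀ φ, ∃ (e : ℕ → H) (E : ℕ → ℝ), Eg a (b φ) e E) (φ h : C(M, ℝ)) {α β : ℝ} (hαβ : α ≤ β)
    {s δ η : ℝ} (hs : 0 < s) (hδ : 0 < δ) (hη : 0 < η) :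
    ∀ᶠ j : ℕ in atTop, volume {t ∈ Icc α β | ∃ e E, Eg a (b (φ + t • h)) e E ∧ ∃ l k, l ≤ j ∧ j < k ∧
      (∫ x, Real.exp ((φ + t • h) x) ∂μ) / (4 * π) * E k -
        (∫ x, Real.exp ((φ + t • h) x) ∂μ) / (4 * π) * E l ≤ s ∧
      δ ≤ (wf i (h * cexp (φ + t • h)) (e l) (e k)) ^ 2} ≤
        ENNReal.ofReal (s / (2 * δ) * (avg μ h (φ + β • h) - avg μ h (φ + α • h) + η)) := by
  filter_upwards [close_bound hSf hB hW hex φ h hαβ hs hη] with j ⟨q, hq1, hq2, hq3⟩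
  have hδ' : ENNReal.ofReal δ ≠ 0 := by
    rw [ne_eq, ENNReal.ofReal_eq_zero, not_le]
    exact hδ
  have h1 : volume ({t | ENNReal.ofReal δ ≤ q t} ∩ Icc α β) ≤
      (∫⁻ t in Icc α β, q t) / ENNReal.ofReal δ := by
    rw [← Measure.restrict_apply (measurableSet_le measurable_const hq1)]
    exact meas_ge_le_lintegral_div hq1.aemeasurable hδ' ENNReal.ofReal_ne_top
  have h2 : (∫⁻ t in Icc α β, q t) / ENNReal.ofReal δ ≤
      ENNReal.ofReal (s / (2 * δ) * (avg μ h (φ + β • h) - avg μ h (φ + α • h) + η)) := by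
    refine (ENNReal.div_le_div_right hq3 _).trans (le_of_eq ?_)
    rw [← ENNReal.ofReal_div_of_pos hδ]
    congr 1
    field_simp
  refine le_trans (measure_mono ?_) (h1.trans h2)
  rintro t ⟨ht, e, E, hE, l, k, hl, hk, hc, hx⟩
  refine ⟨?_, ht⟩
  refine le_trans ?_ (hq2 t ht e E hE)
  refine (ENNReal.ofReal_le_ofReal hx).trans ?_
  unfold CC
  refine le_trans ?_ (Finset.single_le_sum (fun _ _ => zero_le)
    (Finset.mem_range.2 (Nat.lt_succ_of_le hl)))
  refine le_trans (le_of_eq ?_) (ENNReal.le_tsum k)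
  rw [if_pos ⟨hk, hc⟩]

/-- the variance of `h` -/
def var (μ : Measure M) (h φ : C(M, ℝ)) : ℝ :=
  (∫ x, (h * h) x * Real.exp (φ x) ∂μ) / (∫ x, Real.exp (φ x) ∂μ) - avg μ h φ ^ 2

theorem avg_deriv [Nonempty M] (hA : ∀ φ : C(M, ℝ), 0 < ∫ x, Real.exp (φ x) ∂μ) (φ h : C(M, ℝ))
    (t : ℝ) : HasDerivAt (fun s : ℝ => avg μ h (φ + s • h)) (var μ h (φ + t • h)) t := by
  have h1 := (Pool.Agent.Y155.QR.hd μ h φ h t).div (Pool.Agent.Y155.QR.hdA μ φ h t)
    (hA (φ + t • h)).ne'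
  refine h1.congr_deriv ?_
  have h2 := (hA (φ + t • h)).ne'
  unfold var avg
  field_simp

theorem avg_sub_eq [Nonempty M] (hA : ∀ φ : C(M, ℝ), 0 < ∫ x, Real.exp (φ x) ∂μ) (φ h : C(M, ℝ))
    (α β : ℝ) : avg μ h (φ + β • h) - avg μ h (φ + α • h) =
      ∫ t in α..β, var μ h (φ + t • h) := by
  symm
  refine intervalIntegral.integral_eq_sub_of_hasDerivAt (fun t _ => avg_deriv hA φ h t) ?_
  have hc : Continuous fun t : ℝ => var μ h (φ + t • h) := by
    unfold var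
    refine Continuous.sub (Continuous.div ?_ (Pool.Agent.Y155.QR.cA μ φ h) fun t =>
      (hA (φ + t • h)).ne') ((Pool.Agent.Y155.QR.avg_cont μ hA φ h).pow 2)
    exact continuous_iff_continuousAt.2 fun t =>
      (Pool.Agent.Y155.QR.hd μ (h * h) φ h t).continuousAt
  exact hc.intervalIntegrable _ _

end

end Pool.Agent.Run7.h307.LR
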