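import Pool.Agent.Run7.h307.LR.Close

/-!
# Random conformal metrics
-/

set_option autoImplicit false

open Set Filter Topology MeasureTheory Asymptotics
open scoped Real ContDiff ENNReal
open Pool.Agent.Y262.QE Pool.Agent.Y264.QR

noncomputable section

namespace Pool.Agent.Run7.h307.LR

section

variable {M : Type} [MetricSpace M] [CompactSpace M] [MeasurableSpace M] [BorelSpace M]
  {μ : Measure M} [IsFiniteMeasure μ] {H : Type} [NormedAddCommGroup H] [InnerProductSpace ℝ H]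
  {i : H →L[ℝ] Lp ℝ 2 μ} {a : H →L[ℝ] H →L[ℝ] ℝ} {b : C(M, ℝ) → H →L[ℝ] H →L[ℝ] ℝ}

/-- the second derivative at the metric `exp φ g` in the direction `h` -/
def qg (a : H →L[ℝ] H →L[ℝ] ℝ) (b : C(M, ℝ) → H →L[ℝ] H →L[ℝ] ℝ) (h : C(M, ℝ)) (κ m : ℕ)
    (φ : C(M, ℝ)) : ℝ≥0∞ := q2 (fN a b φ h κ m) 0

omit [IsFiniteMeasure μ] [MeasurableSpace M] [BorelSpace M] in
theorem qg_line (φ h : C(M, ℝ)) (κ m : ℕ) (t : ℝ) :
    q2 (fN a b φ h κ m) t = qg a b h κ m (φ + t • h) := by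
  unfold qg q2
  congr 1
  funext n
  unfold Dq fN
  have e1 : ∀ ε : ℝ, φ + (t + ε) • h = φ + t • h + ε • h := fun ε => by rw [add_smul, add_assoc]
  have e2 : ∀ ε : ℝ, φ + (t - ε) • h = φ + t • h + (0 - ε) • h := fun ε => by
    rw [sub_eq_add_neg, add_smul, add_assoc, zero_sub]
  rw [e1, e2]
  simp only [zero_add, zero_smul, add_zero]
  congr 2
  ring

theorem slp_nonneg {f : ℝ → ℝ} (hf : ConvexOn ℝ univ f) {α β r : ℝ} (hαβ : α ≤ β) (hr : 0 < r) :
    0 ≤ slp f α β r := by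
  have sec := fun (a x y : ℝ) (hx : x ≠ a) (hy : y ≠ a) (hxy : x ≤ y) =>
    hf.secant_mono (mem_univ a) (mem_univ x) (mem_univ y) hx hy hxy
  have h1 := sec (α - r) α (β + r) (by linarith) (by linarith) (by linarith)
  have h2 := sec (β + r) (α - r) β (by linarith) (by linarith) (by linarith)
  have h3 : (f (α - r) - f (β + r)) / (α - r - (β + r)) =
      (f (β + r) - f (α - r)) / (β + r - (α - r)) := by
    rw [← neg_sub (f (β + r)) (f (α - r)), ← neg_sub (β + r) (α - r), neg_div_neg_eq]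
  have h4 : (f β - f (β + r)) / (β - (β + r)) = (f (β + r) - f β) / r := by
    rw [← neg_sub (f (β + r)) (f β), ← neg_sub (β + r) β, neg_div_neg_eq]
    congr 1
    ring
  rw [h3, h4] at h2
  rw [sub_sub_cancel] at h1
  unfold slp
  linarith

/-- the facts on the number of zero eigenvalues -/
def Zero (a : H →L[ℝ] H →L[ℝ] ℝ) (b : C(M, ℝ) → H →L[ℝ] H →L[ℝ] ℝ) (κ : ℕ) : Prop :=
  (∀ φ, ∀ l < κ, Ev a (b φ) l = 0) ∧ ∀ φ l, κ ≤ l → 0 < Ev a (b φ) l

theorem exists_zero [Nonempty M] (hSf : Sf μ i a) (hB : IsB μ i b) (hW : Wl μ a b) :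
    ∃ κ, Zero a b κ := by
  obtain ⟨hF, hA, hexp, -⟩ := Pool.Agent.Q205.QLim.facts μ i a b hSf hB
  obtain ⟨l1, l2, -, l4, l5⟩ := Pool.Agent.Y390.QR.LIP.lip M μ H a b hF hexp
  have hpi : 0 < 4 * π := by positivity
  have hexp0 : ∃ j, 0 < Ev a (b 0) j := by
    have h1 := (hW 0).eventually (lt_mem_nhds (div_pos hpi (hA 0)))
    obtain ⟨j, hj⟩ := h1.exists
    refine ⟨j, ?_⟩
    have : (0 : ℝ) < (j : ℝ) + 1 := by positivity
    exact (div_pos_iff_of_pos_right this).1 hj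
  classical
  refine ⟨Nat.find hexp0, ?_, ?_⟩
  · intro ψ l hl
    rcases l5 l with h | h
    · exact h ψ
    · exact absurd (h 0) (Nat.find_min hexp0 hl)
  · intro ψ l hl
    rcases l5 l with h | h
    · have h1 := (Nat.find_spec hexp0).trans_le (l2 0 _ _ hl)
      rw [h 0] at h1
      exact absurd h1 (lt_irrefl _)
    · exact h ψ

theorem cont2 (hSf : Sf μ i a) (hB : IsB μ i b) {κ : ℕ} (hκ : Zero a b κ) (h : C(M, ℝ)) (m : ℕ)
    (t : ℝ) : Continuous fun φ : C(M, ℝ) => fN a b φ h κ m t := by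
  obtain ⟨hF, hA, hexp, -⟩ := Pool.Agent.Q205.QLim.facts μ i a b hSf hB
  obtain ⟨l1, l2, -, l4, l5⟩ := Pool.Agent.Y390.QR.LIP.lip M μ H a b hF hexp
  unfold fN
  refine Continuous.add (Continuous.neg (continuous_finsetSum _ fun r _ => ?_)) (by fun_prop)
  exact ((l4 (κ + r)).comp (by fun_prop : Continuous fun φ : C(M, ℝ) => φ + t • h)).log
    fun t => (hκ.2 _ _ (Nat.le_add_right _ _)).ne'

theorem cont1 (hSf : Sf μ i a) (hB : IsB μ i b) {κ : ℕ} (hκ : Zero a b κ) (φ h : C(M, ℝ)) (m : ℕ) :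
    Continuous (fN a b φ h κ m) := by
  obtain ⟨hF, hA, hexp, -⟩ := Pool.Agent.Q205.QLim.facts μ i a b hSf hB
  obtain ⟨l1, l2, -, l4, l5⟩ := Pool.Agent.Y390.QR.LIP.lip M μ H a b hF hexp
  unfold fN
  refine Continuous.add (Continuous.neg (continuous_finsetSum _ fun r _ => ?_)) (by fun_prop)
  exact ((l4 (κ + r)).comp (by fun_prop : Continuous fun t : ℝ => φ + t • h)).log
    fun t => (hκ.2 _ _ (Nat.le_add_right _ _)).ne'

theorem conv1 (hSf : Sf μ i a) (hB : IsB μ i b) (hex : ∀ φ, ∃ (e : ℕ → H) (E : ℕ → ℝ), Eg a (b φ) e E)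
    {κ : ℕ} (hκ : Zero a b κ) (φ h : C(M, ℝ)) (m : ℕ) : ConvexOn ℝ univ (fN a b φ h κ m) := by
  refine convex_of_low _ (cont1 hSf hB hκ φ h m) fun t => ?_
  obtain ⟨e, E, hE⟩ := hex (φ + t • h)
  have := low hSf hB hκ.1 hκ.2 φ h m t e E hE ∅ (fun k hk => absurd hk (Finset.notMem_empty k))
    fun _ _ => 0
  simpa using this

theorem meas_qg [MeasurableSpace C(M, ℝ)] [BorelSpace C(M, ℝ)] (hSf : Sf μ i a) (hB : IsB μ i b)
    {κ : ℕ} (hκ : Zero a b κ) (h : C(M, ℝ)) (m : ℕ) : Measurable (qg a b h κ m) := by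
  unfold qg q2
  refine Measurable.liminf fun n => ?_
  unfold Dq
  refine ENNReal.measurable_ofReal.comp (Continuous.measurable ?_)
  exact (((cont2 hSf hB hκ h m _).add (cont2 hSf hB hκ h m _)).sub
    ((cont2 hSf hB hκ h m _).const_mul 2)).div_const _

theorem QQ_le_qg (hSf : Sf μ i a) (hB : IsB μ i b) {κ : ℕ} (hκ : Zero a b κ) (h φ : C(M, ℝ))
    {j m : ℕ} (hj : j + 1 = κ + m) (e : ℕ → H) (E : ℕ → ℝ) (hE : Eg a (b φ) e E) :
    QQ (fun l k => wf i (h * cexp φ) (e l) (e k)) E j ≤ qg a b h κ m φ := by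
  obtain ⟨hF, hA, -, -⟩ := Pool.Agent.Q205.QLim.facts μ i a b hSf hB
  have hmm : ∀ l, Ev a (b φ) l = E l := Pool.Agent.Y592.QE.mm H a (b φ) (hF _) e E hE
  have e0 : φ + (0 : ℝ) • h = φ := by rw [zero_smul, add_zero]
  refine QQ_le hE.mono (fun l hl => by rw [← hmm, hκ.1 _ l hl])
    (fun l hl => by rw [← hmm]; exact hκ.2 _ l hl) hj fun S hS c => ?_
  have := low hSf hB hκ.1 hκ.2 φ h m 0 e E (by rw [e0]; exact hE) S hS c
  rwa [e0] at this

/-- the limit of the normalised functions -/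
theorem lim1 (hA : ∀ φ : C(M, ℝ), 0 < ∫ x, Real.exp (φ x) ∂μ) (hW : Wl μ a b) {κ : ℕ}
    (hκ : Zero a b κ) (φ h : C(M, ℝ)) (t : ℝ) :
    Tendsto (fun m : ℕ => fN a b φ h κ m t / m +
      (m : ℝ)⁻¹ * ∑ r ∈ Finset.range m, Real.log ((κ : ℝ) + r + 1)) atTop
      (𝓝 (Real.log (∫ x, Real.exp ((φ + t • h) x) ∂μ) - Real.log (4 * π))) := by
  have hpi : 0 < 4 * π := by positivity
  set A := ∫ x, Real.exp ((φ + t • h) x) ∂μ with hAd
  have hA0 : 0 < A := hA _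
  set u : ℕ → ℝ := fun n => Real.log (Ev a (b (φ + t • h)) (κ + n) / ((κ : ℝ) + n + 1)) with hu
  have hut : Tendsto u atTop (𝓝 (Real.log (4 * π / A))) := by
    have h1 := (hW (φ + t • h)).comp (tendsto_add_atTop_nat κ)
    have h2 := (h1.log (div_pos hpi hA0).ne')
    refine h2.congr fun n => ?_
    simp only [Function.comp, hu]
    rw [add_comm n κ]
    push_cast
    rfl
  have h3 := (hut.cesaro).neg
  have h4 : Tendsto (fun m : ℕ => κ * ‖h‖ ^ 2 * t ^ 2 * (m : ℝ)⁻¹) atTop (𝓝 0) := by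
    have := (tendsto_inv_atTop_nhds_zero_nat (𝕜 := ℝ)).const_mul (κ * ‖h‖ ^ 2 * t ^ 2)
    rwa [mul_zero] at this
  have h5 := h3.add h4
  have e : -Real.log (4 * π / A) + 0 = Real.log A - Real.log (4 * π) := by
    rw [Real.log_div hpi.ne' hA0.ne']
    ring
  rw [e] at h5
  refine h5.congr fun m => ?_
  have e2 : ∑ r ∈ Finset.range m, u r = ∑ r ∈ Finset.range m,
      Real.log (Ev a (b (φ + t • h)) (κ + r)) -
      ∑ r ∈ Finset.range m, Real.log ((κ : ℝ) + r + 1) := by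
    rw [← Finset.sum_sub_distrib]
    refine Finset.sum_congr rfl fun r _ => ?_
    have : (0 : ℝ) < (κ : ℝ) + r + 1 := by positivity
    rw [hu]
    exact Real.log_div (hκ.2 _ _ (Nat.le_add_right _ _)).ne' this.ne'
  rw [e2]
  simp only [fN, div_eq_mul_inv]
  ring

theorem slim (hA : ∀ φ : C(M, ℝ), 0 < ∫ x, Real.exp (φ x) ∂μ) (hW : Wl μ a b) {κ : ℕ}
    (hκ : Zero a b κ) (φ h : C(M, ℝ)) (α β r : ℝ) :
    Tendsto (fun m : ℕ => slp (fN a b φ h κ m) α β r / m) atTop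
      (𝓝 (slp (fun t => Real.log (∫ x, Real.exp ((φ + t • h) x) ∂μ)) α β r)) := by
  have hl := lim1 hA hW hκ φ h
  have h1 := (((hl (β + r)).sub (hl β)).div_const r).sub
    (((hl α).sub (hl (α - r))).div_const r)
  have e1 : (Real.log (∫ x, Real.exp ((φ + (β + r) • h) x) ∂μ) - Real.log (4 * π) -
      (Real.log (∫ x, Real.exp ((φ + β • h) x) ∂μ) - Real.log (4 * π))) / r -
      (Real.log (∫ x, Real.exp ((φ + α • h) x) ∂μ) - Real.log (4 * π) -
        (Real.log (∫ x, Real.exp ((φ + (α - r) • h) x) ∂μ) - Real.log (4 * π))) / r =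
      slp (fun t => Real.log (∫ x, Real.exp ((φ + t • h) x) ∂μ)) α β r := by
    unfold slp
    ring
  rw [e1] at h1
  refine h1.congr fun m => ?_
  unfold slp
  ring

end

end Pool.Agent.Run7.h307.LR
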