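import Mathlib

/-!
# Determinants of symmetric matrices: spectral lemmas
-/

set_option autoImplicit false

open Matrix Finset

namespace Pool.Agent.Run7.h307.LR

variable {ι : Type*} [Fintype ι] [DecidableEq ι]

theorem diag_real (G : Matrix ι ι ℝ) (hH : G.IsHermitian) : ∃ (U : Matrix ι ι ℝ),
    Uᵀ * U = 1 ∧ U * Uᵀ = 1 ∧ G = U * diagonal hH.eigenvalues * Uᵀ := by
  have h := hH.spectral_theorem
  rw [Unitary.conjStarAlgAut_apply] at h
  have e : ((star hH.eigenvectorUnitary : unitaryGroup ι ℝ) : Matrix ι ι ℝ) =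
      (hH.eigenvectorUnitary : Matrix ι ι ℝ)ᵀ := by
    rw [Unitary.coe_star, star_eq_conjTranspose, conjTranspose_eq_transpose_of_trivial]
  have e' : star (hH.eigenvectorUnitary : Matrix ι ι ℝ) =
      (hH.eigenvectorUnitary : Matrix ι ι ℝ)ᵀ := by
    rw [star_eq_conjTranspose, conjTranspose_eq_transpose_of_trivial]
  refine ⟨hH.eigenvectorUnitary, ?_, ?_, ?_⟩
  · have := Unitary.coe_star_mul_self hH.eigenvectorUnitary
    rwa [e'] at this
  · have := Unitary.coe_mul_star_self hH.eigenvectorUnitary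
    rwa [e] at this
  · rw [e'] at h
    exact h

theorem det_sq {U : Matrix ι ι ℝ} (h : Uᵀ * U = 1) : U.det * U.det = 1 := by
  have := congrArg det h
  rwa [det_mul, det_transpose, det_one] at this

theorem trace_diag {U : Matrix ι ι ℝ} {g : ι → ℝ} (h : Uᵀ * U = 1) :
    (U * diagonal g * Uᵀ).trace = ∑ i, g i := by
  rw [trace_mul_comm, ← Matrix.mul_assoc, h, Matrix.one_mul, trace_diagonal]

theorem sq_diag {U : Matrix ι ι ℝ} {g : ι → ℝ} (h : Uᵀ * U = 1) :
    (U * diagonal g * Uᵀ * (U * diagonal g * Uᵀ)).trace = ∑ i, g i ^ 2 := by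
  have e : U * diagonal g * Uᵀ * (U * diagonal g * Uᵀ) = U * diagonal (fun i => g i ^ 2) * Uᵀ := by
    calc U * diagonal g * Uᵀ * (U * diagonal g * Uᵀ)
        = U * diagonal g * (Uᵀ * U) * diagonal g * Uᵀ := by simp only [Matrix.mul_assoc]
      _ = U * (diagonal g * diagonal g) * Uᵀ := by rw [h]; simp only [Matrix.mul_assoc, Matrix.one_mul]
      _ = _ := by
        rw [diagonal_mul_diagonal]
        simp only [pow_two]
  rw [e, trace_diag h]

theorem log_lower {x ρ : ℝ} (hρ : ρ ≤ 1 / 2) (hx : |x| ≤ ρ) :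
    0 < 1 + x ∧ x - (1 / 2 + 2 * ρ) * x ^ 2 ≤ Real.log (1 + x) := by
  have hx2 : |x| ≤ 1 / 2 := hx.trans hρ
  have h1 : 0 < 1 + x := by
    have := abs_le.1 hx2
    linarith
  refine ⟨h1, ?_⟩
  have h2 := Real.abs_log_sub_add_sum_range_le (x := -x) (by rw [abs_neg]; linarith) 2
  rw [sum_range_succ, sum_range_succ, sum_range_zero, abs_neg] at h2
  have h3 := (abs_le.1 h2).1
  simp only [Nat.cast_zero, zero_add, pow_one, Nat.cast_one] at h3
  have h4 : |x| ^ (2 + 1) / (1 - |x|) ≤ 2 * ρ * x ^ 2 := by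
    rw [div_le_iff₀ (by linarith)]
    have e : |x| ^ (2 + 1) = |x| * x ^ 2 := by
      rw [pow_succ, sq_abs, mul_comm]
    rw [e]
    have : 0 ≤ x ^ 2 := sq_nonneg x
    have h0 : 0 ≤ ρ := (abs_nonneg x).trans hx
    nlinarith [mul_nonneg h0 this, abs_nonneg x]
  have e5 : (1 : ℝ) - -x = 1 + x := by ring
  rw [e5] at h3
  have e6 : (-x) / 1 + (-x) ^ (1 + 1) / (1 + 1) = - x + x ^ 2 / 2 := by ring
  linarith

theorem logdet_lower (G : Matrix ι ι ℝ) (hG : G.IsHermitian) (ρ : ℝ) (hρ : 0 ≤ ρ) (hρ2 : ρ ≤ 1 / 2)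
    (hs : ∑ i, ∑ l, (G i l - (1 : Matrix ι ι ℝ) i l) ^ 2 ≤ ρ ^ 2) :
    G.PosDef ∧ ∑ i, (G i i - 1) -
      (1 / 2 + 2 * ρ) * ∑ i, ∑ l, (G i l - (1 : Matrix ι ι ℝ) i l) ^ 2 ≤ Real.log G.det := by
  obtain ⟨U, h1, h2, h3⟩ := diag_real G hG
  set g := hG.eigenvalues
  have hdet : G.det = ∏ i, g i := by
    have := hG.det_eq_prod_eigenvalues
    simpa using this
  have e1 : ∑ i, (g i - 1) = ∑ i, (G i i - 1) := by
    have : G.trace = ∑ i, g i := by
      conv_lhs => rw [h3]
      exact trace_diag h1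
    rw [sum_sub_distrib, sum_sub_distrib, ← this]
    rfl
  have e0 : G - 1 = U * diagonal (fun i => g i - 1) * Uᵀ := by
    have : diagonal (fun i => g i - 1) = diagonal g - 1 := by
      rw [← diagonal_one, diagonal_sub]
    rw [this, Matrix.mul_sub, Matrix.sub_mul, ← h3, Matrix.mul_one, h2]
  have e2 : ∑ i, (g i - 1) ^ 2 = ∑ i, ∑ l, (G i l - (1 : Matrix ι ι ℝ) i l) ^ 2 := by
    rw [← sq_diag (g := fun i => g i - 1) h1, ← e0, trace]
    refine sum_congr rfl fun i _ => ?_
    rw [diag_apply, mul_apply]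
    refine sum_congr rfl fun l _ => ?_
    have hsym : (G - 1) l i = (G - 1) i l := by
      have : (G - 1)ᵀ = G - 1 := by
        rw [transpose_sub, transpose_one, ← conjTranspose_eq_transpose_of_trivial, hG.eq]
      rw [← this, transpose_apply, this]
    rw [hsym, Matrix.sub_apply, pow_two]
  have hb : ∀ i, |g i - 1| ≤ ρ := by
    intro i
    rw [← e2] at hs
    have h4 : (g i - 1) ^ 2 ≤ ρ ^ 2 :=
      (single_le_sum (f := fun i => (g i - 1) ^ 2) (fun i _ => sq_nonneg _) (mem_univ i)).trans hs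
    exact abs_le_of_sq_le_sq h4 hρ
  have hp : ∀ i, 0 < g i := by
    intro i
    have := (log_lower hρ2 (hb i)).1
    linarith
  refine ⟨hG.posDef_iff_eigenvalues_pos.2 hp, ?_⟩
  rw [hdet, Real.log_prod (fun i _ => (hp i).ne'), ← e1, ← e2, mul_sum, ← sum_sub_distrib]
  refine sum_le_sum fun i _ => ?_
  have := (log_lower hρ2 (hb i)).2
  have e : 1 + (g i - 1) = g i := by ring
  rwa [e] at this

theorem det_upper (G : Matrix ι ι ℝ) (hG : G.PosSemidef) (D : ι → ℝ) (hD : ∀ i, 0 < D i) :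
    G.det ≤ (∏ i, D i) * Real.exp (∑ i, (G i i / D i - 1)) := by
  set W : Matrix ι ι ℝ := diagonal fun i => (Real.sqrt (D i))⁻¹ with hW
  have hWT : Wᴴ = W := by
    rw [conjTranspose_eq_transpose_of_trivial, hW, diagonal_transpose]
  have hS : (W * G * W).PosSemidef := by
    have := hG.conjTranspose_mul_mul_same W
    rwa [hWT] at this
  have hsq : ∀ i, (Real.sqrt (D i))⁻¹ * (Real.sqrt (D i))⁻¹ = (D i)⁻¹ := by
    intro i
    rw [← mul_inv, Real.mul_self_sqrt (hD i).le]
  have hdet : (W * G * W).det * ∏ i, D i = G.det := by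
    rw [det_mul, det_mul, hW, det_diagonal]
    have h1 : (∏ i, (Real.sqrt (D i))⁻¹) * (∏ i, (Real.sqrt (D i))⁻¹) * ∏ i, D i = 1 := by
      rw [← prod_mul_distrib, ← prod_mul_distrib]
      refine prod_eq_one fun i _ => ?_
      rw [hsq, inv_mul_cancel₀ (hD i).ne']
    linear_combination G.det * h1
  have htr : (W * G * W).trace = ∑ i, G i i / D i := by
    rw [trace]
    refine sum_congr rfl fun i _ => ?_
    rw [diag_apply, hW, mul_diagonal, diagonal_mul]
    rw [div_eq_mul_inv, ← hsq i]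
    ring
  have h2 : (W * G * W).det = ∏ i, hS.1.eigenvalues i := by
    have := hS.1.det_eq_prod_eigenvalues
    simpa using this
  have h3 : (W * G * W).trace = ∑ i, hS.1.eigenvalues i := by
    have := hS.1.trace_eq_sum_eigenvalues
    simpa using this
  rw [← hdet, mul_comm]
  refine mul_le_mul_of_nonneg_left ?_ (prod_nonneg fun i _ => (hD i).le)
  rw [h2, sum_sub_distrib, ← htr, h3, ← sum_sub_distrib, Real.exp_sum]
  refine prod_le_prod (fun i _ => hS.eigenvalues_nonneg i) fun i _ => ?_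
  have := Real.add_one_le_exp (hS.1.eigenvalues i - 1)
  linarith

theorem simul (B A : Matrix ι ι ℝ) (hB : B.PosDef) (hA : A.IsHermitian) :
    ∃ (P : Matrix ι ι ℝ) (l : ι → ℝ), Pᵀ * B * P = 1 ∧ Pᵀ * A * P = diagonal l := by
  obtain ⟨U, h1, h2, h3⟩ := diag_real B hB.1
  have hpos := hB.eigenvalues_pos
  set β := hB.1.eigenvalues
  set W : Matrix ι ι ℝ := diagonal fun i => (Real.sqrt (β i))⁻¹ with hW
  have hWT : Wᵀ = W := by rw [hW, diagonal_transpose]
  have e1 : (U * W)ᵀ * B * (U * W) = 1 := by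
    rw [transpose_mul, hWT]
    conv_lhs => rw [h3]
    calc W * Uᵀ * (U * diagonal β * Uᵀ) * (U * W)
        = W * (Uᵀ * U) * diagonal β * (Uᵀ * U) * W := by simp only [Matrix.mul_assoc]
      _ = W * diagonal β * W := by rw [h1, Matrix.mul_one, Matrix.mul_one]
      _ = 1 := by
        rw [hW, diagonal_mul_diagonal, diagonal_mul_diagonal, ← diagonal_one]
        congr 1
        funext i
        have hb : Real.sqrt (β i) ≠ 0 := (Real.sqrt_pos.2 (hpos i)).ne'
        have := Real.mul_self_sqrt (hpos i).le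
        field_simp
        nlinarith
  have hS : ((U * W)ᵀ * A * (U * W)).IsHermitian := by
    have := isHermitian_conjTranspose_mul_mul (U * W) hA
    rwa [conjTranspose_eq_transpose_of_trivial] at this
  obtain ⟨V, k1, k2, k3⟩ := diag_real _ hS
  refine ⟨U * W * V, hS.eigenvalues, ?_, ?_⟩
  · calc (U * W * V)ᵀ * B * (U * W * V) = Vᵀ * ((U * W)ᵀ * B * (U * W)) * V := by
          rw [transpose_mul (U * W) V]; simp only [Matrix.mul_assoc]
      _ = 1 := by rw [e1, Matrix.mul_one, k1]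
  · calc (U * W * V)ᵀ * A * (U * W * V) = Vᵀ * ((U * W)ᵀ * A * (U * W)) * V := by
          rw [transpose_mul (U * W) V]; simp only [Matrix.mul_assoc]
      _ = Vᵀ * (V * diagonal hS.eigenvalues * Vᵀ) * V := by rw [← k3]
      _ = (Vᵀ * V) * diagonal hS.eigenvalues * (Vᵀ * V) := by simp only [Matrix.mul_assoc]
      _ = _ := by rw [k1, Matrix.one_mul, Matrix.mul_one]

end Pool.Agent.Run7.h307.LR
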