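import Pool.Agent.Run7.h307.LR.Rnd

/-!
# Random conformal metrics: several directions
-/

set_option autoImplicit false

open Set Filter Topology MeasureTheory Asymptotics
open scoped Real ContDiff ENNReal
open Pool.Agent.Y262.QE Pool.Agent.Y264.QR

noncomputable section

namespace Pool.Agent.Run7.h307.LR

section

variable {M : Type} [MetricSpace M] [CompactSpace M] [MeasurableSpace M] [BorelSpace M]
  {μ : Measure M} [IsFiniteMeasure μ] {H : Type} [NormedAddCommGroup H] [InnerProductSpace ℝ H]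
  {i : H →L[ℝ] Lp ℝ 2 μ} {a : H →L[ℝ] H →L[ℝ] ℝ} {b : C(M, ℝ) → H →L[ℝ] H →L[ℝ] ℝ}
  [MeasurableSpace C(M, ℝ)] [BorelSpace C(M, ℝ)]

omit [MeasurableSpace M] [BorelSpace M] in
theorem u1 {P P' : Measure C(M, ℝ)} [IsProbabilityMeasure P'] {h : C(M, ℝ)}
    (hP : P = (P'.prod (volume.restrict (Icc (0 : ℝ) 1))).map fun p => p.1 + p.2 • h)
    {q : C(M, ℝ) → ℝ≥0∞} (hq : Measurable q) :
    ∫⁻ φ, q φ ∂P = ∫⁻ ψ, (∫⁻ t in Icc (0 : ℝ) 1, q (ψ + t • h)) ∂P' := by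
  have hadd : Continuous fun p : C(M, ℝ) × ℝ => p.1 + p.2 • h := by fun_prop
  have hm2 : Measurable fun p : C(M, ℝ) × ℝ => q (p.1 + p.2 • h) := hq.comp hadd.measurable
  rw [hP, lintegral_map hq hadd.measurable, lintegral_prod _ hm2.aemeasurable]

omit [MeasurableSpace C(M, ℝ)] [BorelSpace C(M, ℝ)] in
theorem avg_cont' [MeasurableSpace C(M, ℝ)] [BorelSpace C(M, ℝ)] (f : C(M, ℝ)) :
    Continuous fun φ => avg μ f φ :=
  (Pool.Agent.Y689.QR.cm M μ).2.1 f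

theorem var_cont (h : C(M, ℝ)) : Continuous fun φ => var μ h φ := by
  have h1 : (fun φ => var μ h φ) = fun φ => avg μ (h * h) φ - avg μ h φ ^ 2 := by
    funext φ
    rfl
  rw [h1]
  exact (avg_cont' _).sub ((avg_cont' _).pow 2)

omit [MeasurableSpace C(M, ℝ)] [BorelSpace C(M, ℝ)] in
theorem var_le (hA : ∀ φ : C(M, ℝ), 0 < ∫ x, Real.exp (φ x) ∂μ) (h φ : C(M, ℝ)) :
    |var μ h φ| ≤ 2 * ‖h‖ ^ 2 := by
  have h1 : var μ h φ = avg μ (h * h) φ - avg μ h φ ^ 2 := rfl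
  have h2 := Pool.Agent.Y155.QR.avg_le μ hA φ (h * h)
  have h3 := Pool.Agent.Y155.QR.avg_le μ hA φ h
  have h4 : ‖h * h‖ ≤ ‖h‖ ^ 2 := by
    rw [pow_two]
    exact norm_mul_le h h
  have h5 : |avg μ h φ ^ 2| ≤ ‖h‖ ^ 2 := by
    rw [abs_pow]
    exact pow_le_pow_left₀ (abs_nonneg _) h3 2
  rw [h1]
  refine (abs_sub _ _).trans ?_
  linarith

theorem u2 [Nonempty M] (hA : ∀ φ : C(M, ℝ), 0 < ∫ x, Real.exp (φ x) ∂μ)
    {P P' : Measure C(M, ℝ)} [IsProbabilityMeasure P'] {h : C(M, ℝ)}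
    (hP : P = (P'.prod (volume.restrict (Icc (0 : ℝ) 1))).map fun p => p.1 + p.2 • h) :
    DD μ P' h 0 1 = ∫ φ, var μ h φ ∂P := by
  have hadd : Continuous fun p : C(M, ℝ) × ℝ => p.1 + p.2 • h := by fun_prop
  have hc : Continuous fun p : C(M, ℝ) × ℝ => var μ h (p.1 + p.2 • h) := (var_cont h).comp hadd
  rw [hP, integral_map hadd.measurable.aemeasurable (var_cont h).aestronglyMeasurable,
    integral_prod _ (Integrable.of_bound hc.aestronglyMeasurable (2 * ‖h‖ ^ 2)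
      (ae_of_all _ fun p => by rw [Real.norm_eq_abs]; exact var_le hA h _))]
  unfold DD
  refine integral_congr_ae (ae_of_all _ fun φ => ?_)
  simp only
  rw [avg_sub_eq hA φ h 0 1, intervalIntegral.integral_of_le zero_le_one,
    integral_Icc_eq_integral_Ioc]

omit [MeasurableSpace M] [BorelSpace M] [MeasurableSpace C(M, ℝ)] [BorelSpace C(M, ℝ)] in
/-- the bound of the slopes is summable -/
theorem sum_bd {h : ℕ → C(M, ℝ)} (hs : Summable fun n => ‖h n‖) (κ : ℕ) :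
    Summable fun n => 2 * ‖h n‖ + κ * ‖h n‖ ^ 2 * 4 := by
  refine (hs.mul_left 2).add ?_
  refine Summable.mul_right 4 (Summable.mul_left _ ?_)
  refine Summable.of_nonneg_of_le (fun n => sq_nonneg _) (fun n => ?_)
    (hs.mul_left (∑' n, ‖h n‖))
  rw [pow_two]
  exact mul_le_mul_of_nonneg_right (hs.le_tsum n fun _ _ => norm_nonneg _) (norm_nonneg _)

theorem mbound [Nonempty M] (hSf : Sf μ i a) (hB : IsB μ i b) (hW : Wl μ a b)
    (hex : ∀ φ, ∃ (e : ℕ → H) (E : ℕ → ℝ), Eg a (b φ) e E)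
    {κ : ℕ} (hκ : Zero a b κ) (h : ℕ → C(M, ℝ)) (hs : Summable fun n => ‖h n‖)
    (P : Measure C(M, ℝ)) (P' : ℕ → Measure C(M, ℝ)) [∀ n, IsProbabilityMeasure (P' n)]
    (hP : ∀ n, P = ((P' n).prod (volume.restrict (Icc (0 : ℝ) 1))).map fun p => p.1 + p.2 • h n)
    {η : ℝ} (hη : 0 < η) :
    ∀ᶠ j : ℕ in atTop, κ ≤ j ∧ ∫⁻ φ, (∑' n, qg a b (h n) κ (j + 1 - κ) φ) ∂P ≤
      ENNReal.ofReal (j * ((∑' n, ∫ φ, var μ (h n) φ ∂P) + η)) := by
  obtain ⟨hF, hA, hexp, -⟩ := Pool.Agent.Q205.QLim.facts μ i a b hSf hB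
  set V := ∑' n, ∫ φ, var μ (h n) φ ∂P with hV
  have hDV : ∀ n, DD μ (P' n) (h n) 0 1 = ∫ φ, var μ (h n) φ ∂P := fun n => u2 hA (hP n)
  -- limits
  have T2 : Tendsto (fun r : ℝ => ∑' n, ∫ φ, slp (fun t => Real.log (∫ x,
      Real.exp ((φ + t • h n) x) ∂μ)) 0 1 r ∂(P' n)) (𝓝[>] 0) (𝓝 V) := by
    rw [hV]
    refine tendsto_tsum_of_dominated_convergence (bound := fun n => 2 * ‖h n‖) (hs.mul_left 2)
      (fun n => ?_) ?_
    · rw [← hDV n]
      exact rl2 hA (P' n) (h n) 0 1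
    · filter_upwards [self_mem_nhdsWithin] with r hr n
      refine (norm_integral_le_of_norm_le_const (C := 2 * ‖h n‖) (ae_of_all _ fun φ => ?_)).trans
        (le_of_eq ?_)
      · rw [Real.norm_eq_abs]
        exact slp_area hA φ (h n) hr
      · simp
  have h6 := (T2.eventually (gt_mem_nhds (show V < V + η / 4 by linarith))).and
    (nhdsWithin_le_nhds (ge_mem_nhds (by norm_num : (0 : ℝ) < 1)) :
      ∀ᶠ r : ℝ in 𝓝[>] 0, r ≤ 1)
  obtain ⟨r, ⟨hr, hr1⟩, hr0⟩ := (h6.and self_mem_nhdsWithin).exists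
  have hr0' : 0 < r := hr0
  have hbd : ∀ (m n : ℕ), |∫ φ, slp (fN a b φ (h n) κ m) 0 1 r / m ∂(P' n)| ≤
      2 * ‖h n‖ + κ * ‖h n‖ ^ 2 * 4 := by
    intro m n
    rw [← Real.norm_eq_abs]
    refine (norm_integral_le_of_norm_le_const (C := 2 * ‖h n‖ + κ * ‖h n‖ ^ 2 * 4)
      (ae_of_all _ fun φ => ?_)).trans (le_of_eq (by simp))
    rw [Real.norm_eq_abs, abs_div, Nat.abs_cast]
    have hK : 0 ≤ κ * ‖h n‖ ^ 2 := by positivity
    rcases Nat.eq_zero_or_pos m with rfl | hm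
    · rw [Nat.cast_zero, div_zero]
      positivity
    · have hm1 : (1 : ℝ) ≤ m := by exact_mod_cast hm
      rw [div_le_iff₀ (by linarith)]
      have h1 := slp_fN hSf hB hκ φ (h n) m hr0' (zero_le_one (α := ℝ))
      have h2 : κ * ‖h n‖ ^ 2 * (2 * (1 - 0) + 2 * r) ≤ κ * ‖h n‖ ^ 2 * 4 :=
        mul_le_mul_of_nonneg_left (by linarith) hK
      nlinarith
  have T1 : Tendsto (fun m : ℕ => ∑' n, ∫ φ, slp (fN a b φ (h n) κ m) 0 1 r / m ∂(P' n)) atTop
      (𝓝 (∑' n, ∫ φ, slp (fun t => Real.log (∫ x,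
      Real.exp ((φ + t • h n) x) ∂μ)) 0 1 r ∂(P' n))) := by
    refine tendsto_tsum_of_dominated_convergence (sum_bd hs κ)
      (fun n => rl1 hSf hB hW hκ (P' n) (h n) zero_le_one hr0') ?_
    exact Eventually.of_forall fun m n => by
      rw [Real.norm_eq_abs]
      exact hbd m n
  have h7 := T1.eventually (gt_mem_nhds (show _ < V + η / 2 by linarith))
  have h8 : Tendsto (fun j : ℕ => j + 1 - κ) atTop atTop := by
    refine tendsto_atTop.2 fun N => ?_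
    filter_upwards [eventually_ge_atTop (N + κ)] with j hj
    omega
  have h9 := h8.eventually h7
  have h10 : ∀ᶠ j : ℕ in atTop, (1 + κ) * (|V| + η) ≤ (j : ℝ) * (η / 2) := by
    have : Tendsto (fun j : ℕ => (j : ℝ) * (η / 2)) atTop atTop :=
      tendsto_natCast_atTop_atTop.atTop_mul_const (by positivity)
    exact this.eventually_ge_atTop _
  filter_upwards [h9, h10, eventually_ge_atTop κ] with j k1 k2 k3
  refine ⟨k3, ?_⟩
  set m := j + 1 - κ with hm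
  have hjm : j + 1 = κ + m := by omega
  have hm0 : 0 < m := by omega
  have hmR : (0 : ℝ) < m := by exact_mod_cast hm0
  have hn0 : ∀ n, 0 ≤ ∫ φ, slp (fN a b φ (h n) κ m) 0 1 r / m ∂(P' n) := fun n =>
    integral_nonneg fun φ => div_nonneg
      (slp_nonneg (conv1 hSf hB hex hκ φ (h n) m) zero_le_one hr0') (Nat.cast_nonneg _)
  have hsm : Summable fun n => ∫ φ, slp (fN a b φ (h n) κ m) 0 1 r / m ∂(P' n) :=
    Summable.of_norm_bounded (sum_bd hs κ) fun n => by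
      rw [Real.norm_eq_abs]
      exact hbd m n
  have e1 : ∀ n, ∫⁻ φ, qg a b (h n) κ m φ ∂P ≤
      ENNReal.ofReal (m * ∫ φ, slp (fN a b φ (h n) κ m) 0 1 r / m ∂(P' n)) := by
    intro n
    rw [u1 (hP n) (meas_qg hSf hB hκ (h n) m), integral_div, mul_div_cancel₀ _ hmR.ne']
    exact rb1 hSf hB hex hκ (P' n) (h n) m zero_le_one hr0'
  rw [lintegral_tsum fun n => (meas_qg hSf hB hκ (h n) m).aemeasurable]
  refine (ENNReal.tsum_le_tsum e1).trans ?_
  rw [← ENNReal.ofReal_tsum_of_nonneg (fun n => mul_nonneg hmR.le (hn0 n)) (hsm.mul_left _),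
    tsum_mul_left]
  refine ENNReal.ofReal_le_ofReal ?_
  have hcast : (m : ℝ) = j + 1 - κ := by
    have : (j : ℝ) + 1 = κ + m := by exact_mod_cast hjm
    linarith
  refine (mul_le_mul_of_nonneg_left k1.le hmR.le).trans ?_
  rw [hcast]
  have hκ0 : (0 : ℝ) ≤ κ := Nat.cast_nonneg _
  have hDa : V ≤ |V| := le_abs_self V
  have hDb : -V ≤ |V| := neg_le_abs V
  have hb1 : (1 - (κ : ℝ)) * (V + η / 2) ≤ (1 + κ) * (|V| + η) := by
    have : |(1 - (κ : ℝ)) * (V + η / 2)| ≤ (1 + κ) * (|V| + η) := by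
      rw [abs_mul]
      refine mul_le_mul ?_ ?_ (abs_nonneg _) (by positivity)
      · rw [abs_le]
        constructor <;> linarith
      · rw [abs_le]
        constructor <;> linarith [abs_nonneg V]
    exact (le_abs_self _).trans this
  nlinarith

end

end Pool.Agent.Run7.h307.LR
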