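import Pool.Agent.Run7.h307.LR.Multi

/-!
# Random conformal metrics: several directions, pairs of levels
-/

set_option autoImplicit false

open Set Filter Topology MeasureTheory Asymptotics
open scoped Real ContDiff ENNReal
open Pool.Agent.Y262.QE Pool.Agent.Y264.QR

noncomputable section

namespace Pool.Agent.Run7.h307.LR

open Classical in
/-- the sum over the pairs of levels on the two sides of the level `j`, with the weights `O` -/
def QM (O : ℕ → ℕ → ℝ≥0∞) (E : ℕ → ℝ) (j : ℕ) : ℝ≥0∞ :=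
  ∑ i ∈ Finset.range (j + 1), ∑' k, if j < k ∧ 0 < E i then
    O i k * ENNReal.ofReal (E k + E i) / ENNReal.ofReal (E k - E i) else 0

theorem term_eq (x Ei Ek : ℝ) : term x Ei Ek =
    ENNReal.ofReal (x ^ 2) * ENNReal.ofReal (Ek + Ei) / ENNReal.ofReal (Ek - Ei) := by
  rw [term, ENNReal.ofReal_mul (sq_nonneg _)]

theorem QM_eq (X : ℕ → ℕ → ℕ → ℝ) (E : ℕ → ℝ) (j : ℕ) :
    QM (fun i k => ∑' n, ENNReal.ofReal (X n i k ^ 2)) E j = ∑' n, QQ (X n) E j := by
  unfold QM QQ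
  rw [Summable.tsum_finsetSum fun _ _ => ENNReal.summable]
  refine Finset.sum_congr rfl fun i _ => ?_
  rw [ENNReal.tsum_comm]
  refine tsum_congr fun k => ?_
  by_cases h : j < k ∧ 0 < E i
  · simp only [if_pos h, term_eq, div_eq_mul_inv, mul_assoc]
    rw [ENNReal.tsum_mul_right]
  · simp only [if_neg h, tsum_zero]

section

variable {M : Type} [MetricSpace M] [CompactSpace M] [MeasurableSpace M] [BorelSpace M]
  {μ : Measure M} [IsFiniteMeasure μ] {H : Type} [NormedAddCommGroup H] [InnerProductSpace ℝ H]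
  {i : H →L[ℝ] Lp ℝ 2 μ} {a : H →L[ℝ] H →L[ℝ] ℝ} {b : C(M, ℝ) → H →L[ℝ] H →L[ℝ] ℝ}
  [MeasurableSpace C(M, ℝ)] [BorelSpace C(M, ℝ)]

/-- the overlap -/
def ov (i : H →L[ℝ] Lp ℝ 2 μ) (h : ℕ → C(M, ℝ)) (φ : C(M, ℝ)) (u v : H) : ℝ≥0∞ :=
  ∑' n, ENNReal.ofReal (wf i (h n * cexp φ) u v ^ 2)

omit [MeasurableSpace C(M, ℝ)] [BorelSpace C(M, ℝ)] in
theorem QM_le (hSf : Sf μ i a) (hB : IsB μ i b) {κ : ℕ} (hκ : Zero a b κ) (h : ℕ → C(M, ℝ))
    (φ : C(M, ℝ)) {j m : ℕ} (hj : j + 1 = κ + m) (e : ℕ → H) (E : ℕ → ℝ) (hE : Eg a (b φ) e E) :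
    QM (fun l k => ov i h φ (e l) (e k)) E j ≤ ∑' n, qg a b (h n) κ m φ := by
  unfold ov
  rw [QM_eq fun n l k => wf i (h n * cexp φ) (e l) (e k)]
  exact ENNReal.tsum_le_tsum fun n => QQ_le_qg hSf hB hκ (h n) φ hj e E hE

theorem ov_le (hB : IsB μ i b) (h : ℕ → C(M, ℝ)) (hs : Summable fun n => ‖h n‖) (φ : C(M, ℝ))
    (e : ℕ → H) (orth : ∀ l r, b φ (e l) (e r) = if l = r then 1 else 0) (l k : ℕ) :
    ov i h φ (e l) (e k) ≤ ENNReal.ofReal (∑' n, ‖h n‖ ^ 2) := by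
  have hs2 : Summable fun n => ‖h n‖ ^ 2 := by
    refine Summable.of_nonneg_of_le (fun n => sq_nonneg _) (fun n => ?_)
      (hs.mul_left (∑' n, ‖h n‖))
    rw [pow_two]
    exact mul_le_mul_of_nonneg_right (hs.le_tsum n fun _ _ => norm_nonneg _) (norm_nonneg _)
  rw [ENNReal.ofReal_tsum_of_nonneg (fun n => sq_nonneg _) hs2]
  exact ENNReal.tsum_le_tsum fun n => ENNReal.ofReal_le_ofReal (wf_sq_le hB φ (h n) e orth l k)

/-- the normalised unfolded level -/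
def G1 (μ : Measure M) (a : H →L[ℝ] H →L[ℝ] ℝ) (b : C(M, ℝ) → H →L[ℝ] H →L[ℝ] ℝ)
    (j : ℕ) (φ : C(M, ℝ)) : ℝ :=
  (∫ x, Real.exp (φ x) ∂μ) / (4 * π) * (Ev a (b φ) (j + 1) / (((j + 1 : ℕ) : ℝ) + 1))

theorem mevent [Nonempty M] (hSf : Sf μ i a) (hB : IsB μ i b) (hW : Wl μ a b)
    (hex : ∀ φ, ∃ (e : ℕ → H) (E : ℕ → ℝ), Eg a (b φ) e E)
    (h : ℕ → C(M, ℝ)) (hs : Summable fun n => ‖h n‖)
    (P : Measure C(M, ℝ)) [IsProbabilityMeasure P] (P' : ℕ → Measure C(M, ℝ))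
    [∀ n, IsProbabilityMeasure (P' n)]
    (hP : ∀ n, P = ((P' n).prod (volume.restrict (Icc (0 : ℝ) 1))).map fun p => p.1 + p.2 • h n)
    {l η : ℝ} (hl : 0 < l) (hη : 0 < η) :
    ∀ᶠ j : ℕ in atTop, P {φ : C(M, ℝ) |
      ∃ e E, Eg a (b φ) e E ∧ ∃ n k, n ≤ j ∧ j < k ∧
      ENNReal.ofReal (l * ((∫ x, Real.exp (φ x) ∂μ) / (4 * π) * E k -
        (∫ x, Real.exp (φ x) ∂μ) / (4 * π) * E n)) < ov i h φ (e n) (e k)} ≤
        ENNReal.ofReal ((∑' n, ∫ φ, var μ (h n) φ ∂P) / (2 * l) + η) := by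
  obtain ⟨hF, hA, hexp, -⟩ := Pool.Agent.Q205.QLim.facts μ i a b hSf hB
  obtain ⟨l1, l2, l3, l4, l5⟩ := Pool.Agent.Y390.QR.LIP.lip M μ H a b hF hexp
  obtain ⟨κ, hκ⟩ := exists_zero hSf hB hW
  have hpi : 0 < 4 * π := by positivity
  set V := ∑' n, ∫ φ, var μ (h n) φ ∂P with hV
  set B2 := ∑' n, ‖h n‖ ^ 2 with hB2
  have hB20 : 0 ≤ B2 := tsum_nonneg fun n => sq_nonneg _
  set s := B2 / l with hsd
  have hs0 : 0 ≤ s := by positivity
  -- choice of ε
  have hlim : Tendsto (fun x : ℝ => (V + x) / (1 - 2 * x) / (2 * l)) (𝓝[>] 0)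
      (𝓝 ((V + 0) / (1 - 2 * 0) / (2 * l))) := by
    have hca : ContinuousAt (fun x : ℝ => (V + x) / (1 - 2 * x) / (2 * l)) 0 :=
      (ContinuousAt.div (by fun_prop) (by fun_prop) (by norm_num)).div_const _
    exact hca.tendsto.mono_left nhdsWithin_le_nhds
  rw [mul_zero, sub_zero, div_one, add_zero] at hlim
  have hev1 := hlim.eventually (gt_mem_nhds (show V / (2 * l) < V / (2 * l) + η / 2 by
    linarith))
  have hev2 : ∀ᶠ x : ℝ in 𝓝[>] 0, x < 1 / 4 :=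
    nhdsWithin_le_nhds (gt_mem_nhds (by norm_num : (0 : ℝ) < 1 / 4))
  obtain ⟨ε, ⟨hε1, hε2⟩, hε0⟩ := ((hev1.and hev2).and self_mem_nhdsWithin).exists
  have hε0' : 0 < ε := hε0
  -- Weyl's law in measure
  have hGc : ∀ j, Continuous (G1 μ a b j) := by
    intro j
    unfold G1
    exact ((cArea hA).div_const _).mul ((l4 (j + 1)).div_const _)
  have hGt : ∀ φ, Tendsto (fun j => G1 μ a b j φ) atTop (𝓝 1) := by
    intro φ
    have h1 := ((hW φ).comp (tendsto_add_atTop_nat 1)).const_mul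
      ((∫ x, Real.exp (φ x) ∂μ) / (4 * π))
    have e1 : (∫ x, Real.exp (φ x) ∂μ) / (4 * π) *
        (4 * π / ∫ x, Real.exp (φ x) ∂μ) = 1 := by
      have := (hA φ).ne'
      field_simp
    rw [e1] at h1
    exact h1
  have hmeas : TendstoInMeasure P (G1 μ a b) atTop fun _ => (1 : ℝ) :=
    tendstoInMeasure_of_tendsto_ae (fun j => (hGc j).aestronglyMeasurable)
      (ae_of_all _ hGt)
  rw [tendstoInMeasure_iff_norm] at hmeas
  have hm1 := (hmeas ε hε0').eventually (gt_mem_nhds (show (0 : ℝ≥0∞) < ENNReal.ofReal (η / 2) by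
    rw [ENNReal.ofReal_pos]; linarith))
  have h3 : ∀ᶠ j : ℕ in atTop, s ≤ ε * (j : ℝ) ∧ 0 < (j : ℝ) := by
    have h4 : Tendsto (fun j : ℕ => ε * (j : ℝ)) atTop atTop :=
      tendsto_natCast_atTop_atTop.const_mul_atTop hε0'
    exact (h4.eventually_ge_atTop _).and (tendsto_natCast_atTop_atTop.eventually_gt_atTop 0)
  filter_upwards [hm1, h3, mbound hSf hB hW hex hκ h hs P P' hP hε0'] with j k1 ⟨k3, k4⟩ ⟨k5, k6⟩
  set L := (1 - 2 * ε) * (j : ℝ) with hL
  have hL0 : 0 < L := mul_pos (by linarith) k4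
  set m := j + 1 - κ with hm
  have hjm : j + 1 = κ + m := by omega
  have hδ' : ENNReal.ofReal (2 * L * l) ≠ 0 := by
    rw [ne_eq, ENNReal.ofReal_eq_zero, not_le]
    positivity
  set q : C(M, ℝ) → ℝ≥0∞ := fun φ => ∑' n, qg a b (h n) κ m φ with hq
  have hqm : Measurable q := Measurable.tsum fun n => meas_qg hSf hB hκ (h n) m
  have hsub : {φ : C(M, ℝ) | ∃ e E, Eg a (b φ) e E ∧ ∃ n k, n ≤ j ∧ j < k ∧
      ENNReal.ofReal (l * ((∫ x, Real.exp (φ x) ∂μ) / (4 * π) * E k -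
        (∫ x, Real.exp (φ x) ∂μ) / (4 * π) * E n)) < ov i h φ (e n) (e k)} ⊆
      {φ | ε ≤ ‖G1 μ a b j φ - 1‖} ∪ {φ | ENNReal.ofReal (2 * L * l) ≤ q φ} := by
    rintro φ ⟨e, E, hE, n, k, hn, hk, hx⟩
    by_cases hG : ε ≤ ‖G1 μ a b j φ - 1‖
    · exact Or.inl hG
    · refine Or.inr ?_
      push Not at hG
      rw [Real.norm_eq_abs, abs_lt] at hG
      have hmm : ∀ l, Ev a (b φ) l = E l :=
        Pool.Agent.Y592.QE.mm H a (b φ) (hF _) e E hE
      have hc0 : 0 < (∫ x, Real.exp (φ x) ∂μ) / (4 * π) := div_pos (hA _) hpi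
      set c := (∫ x, Real.exp (φ x) ∂μ) / (4 * π) with hc
      have h5 : (1 - ε) * ((j : ℝ) + 1 + 1) ≤ c * E (j + 1) := by
        have h6 : 1 - ε ≤ G1 μ a b j φ := by linarith [hG.1]
        unfold G1 at h6
        rw [hmm, mul_div_assoc', le_div_iff₀ (by positivity)] at h6
        push_cast at h6
        exact h6
      have h7 : c * E (j + 1) ≤ c * E k := mul_le_mul_of_nonneg_left (hE.mono hk) hc0.le
      have hnk : E n ≤ E k := hE.mono (by omega : n ≤ k)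
      have hd0 : 0 ≤ l * (c * E k - c * E n) :=
        mul_nonneg hl.le (sub_nonneg.2 (mul_le_mul_of_nonneg_left hnk hc0.le))
      have hO := ov_le (b := b) hB h hs φ e hE.orth n k
      have hOf : ov i h φ (e n) (e k) ≠ ⊤ := (hO.trans_lt ENNReal.ofReal_lt_top).ne
      set y := (ov i h φ (e n) (e k)).toReal with hy
      have hy0 : 0 ≤ y := ENNReal.toReal_nonneg
      have hOy : ov i h φ (e n) (e k) = ENNReal.ofReal y := (ENNReal.ofReal_toReal hOf).symm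
      have hx2 : l * (c * E k - c * E n) < y := (ENNReal.ofReal_lt_iff_lt_toReal hd0 hOf).1 hx
      have hyB : y ≤ B2 := by
        rw [hOy] at hO
        exact (ENNReal.ofReal_le_ofReal_iff hB20).1 hO
      have h8 : c * E k - c * E n < s := by
        rw [hsd, lt_div_iff₀ hl, mul_comm]
        exact hx2.trans_le hyB
      have hLn : L ≤ c * E n := by
        rw [hL]
        nlinarith
      have hEn : 0 < E n := by
        by_contra h'
        push Not at h'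
        nlinarith
      show ENNReal.ofReal (2 * L * l) ≤ ∑' n, qg a b (h n) κ m φ
      refine le_trans ?_ (QM_le hSf hB hκ h φ hjm e E hE)
      have hsq : Real.sqrt y ^ 2 = y := Real.sq_sqrt hy0
      refine (rep_ge (x := Real.sqrt y) hl hL0 hc0 hnk (by rw [hsq]; exact hx2) hLn).trans ?_
      rw [term_eq, hsq, ← hOy]
      unfold QM
      refine le_trans ?_ (Finset.single_le_sum (fun _ _ => zero_le)
        (Finset.mem_range.2 (Nat.lt_succ_of_le hn)))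
      refine le_trans (le_of_eq ?_) (ENNReal.le_tsum k)
      rw [if_pos ⟨hk, hEn⟩]
  refine (measure_mono hsub).trans ((measure_union_le _ _).trans ?_)
  have h7 : P {φ | ENNReal.ofReal (2 * L * l) ≤ q φ} ≤ ENNReal.ofReal (V / (2 * l) + η / 2) := by
    refine (meas_ge_le_lintegral_div hqm.aemeasurable hδ' ENNReal.ofReal_ne_top).trans ?_
    refine (ENNReal.div_le_div_right k6 _).trans ?_
    rw [← ENNReal.ofReal_div_of_pos (by positivity)]
    refine ENNReal.ofReal_le_ofReal ?_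
    refine le_trans (le_of_eq ?_) hε1.le
    rw [hL, ← hV]
    have : (1 - 2 * ε) ≠ 0 := by
      have : 0 < 1 - 2 * ε := by linarith
      exact this.ne'
    field_simp
  have h0 : 0 ≤ V / (2 * l) + η / 2 := by
    have hV0 : 0 ≤ V := by
      refine tsum_nonneg fun n => ?_
      rw [← u2 hA (hP n)]
      exact DD_nonneg hSf hB hW hex hκ (P' n) (h n) zero_le_one
    positivity
  calc P {φ | ε ≤ ‖G1 μ a b j φ - 1‖} + P {φ | ENNReal.ofReal (2 * L * l) ≤ q φ}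
      ≤ ENNReal.ofReal (η / 2) + ENNReal.ofReal (V / (2 * l) + η / 2) := add_le_add k1.le h7
    _ = ENNReal.ofReal (V / (2 * l) + η) := by
        rw [← ENNReal.ofReal_add (by positivity) h0]
        congr 1
        ring

end

end Pool.Agent.Run7.h307.LR
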