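import Pool.Agent.Run7.h307.LR.Multi2

/-!
# Matrix elements between close levels
-/

set_option autoImplicit false

open Set Filter Topology MeasureTheory Asymptotics
open scoped Real ContDiff ENNReal
open Pool.Agent.Y262.QE Pool.Agent.Y264.QR

noncomputable section

namespace Pool.Agent.Run7.h307.LR

section

variable {M : Type} [MetricSpace M] [CompactSpace M] [MeasurableSpace M] [BorelSpace M]
  {μ : Measure M} [IsFiniteMeasure μ] {H : Type} [NormedAddCommGroup H] [InnerProductSpace ℝ H]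
  {i : H →L[ℝ] Lp ℝ 2 μ} {a : H →L[ℝ] H →L[ℝ] ℝ} {b : C(M, ℝ) → H →L[ℝ] H →L[ℝ] ℝ}

/-- the matrix elements of `g` are bounded by the overlap -/
def Dom (i : H →L[ℝ] Lp ℝ 2 μ) (h : ℕ → C(M, ℝ)) (g : C(M, ℝ)) : Prop :=
  ∃ C : ℝ, 0 ≤ C ∧ ∀ (φ : C(M, ℝ)) (u v : H),
    ENNReal.ofReal (wf i (g * cexp φ) u v ^ 2) ≤ ENNReal.ofReal C * ov i h φ u v

theorem dom_span (h : ℕ → C(M, ℝ)) {g : C(M, ℝ)} (hg : g ∈ Submodule.span ℝ (Set.range h)) :
    Dom i h g := by
  refine Submodule.span_induction (p := fun g _ => Dom i h g) ?_ ?_ ?_ ?_ hg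
  · rintro _ ⟨n, rfl⟩
    refine ⟨1, zero_le_one, fun φ u v => ?_⟩
    rw [ENNReal.ofReal_one, one_mul]
    unfold ov
    exact ENNReal.le_tsum (f := fun n => ENNReal.ofReal (wf i (h n * cexp φ) u v ^ 2)) n
  · refine ⟨0, le_rfl, fun φ u v => ?_⟩
    have : wf i ((0 : C(M, ℝ)) * cexp φ) u v = 0 := by
      unfold wf
      simp
    rw [this]
    simp
  · rintro x y - - ⟨C, hC, h1⟩ ⟨C', hC', h2⟩
    refine ⟨2 * C + 2 * C', by positivity, fun φ u v => ?_⟩
    have e1 : wf i ((x + y) * cexp φ) u v = wf i (x * cexp φ) u v + wf i (y * cexp φ) u v := by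
      rw [add_mul, wf_add]
    rw [e1]
    set A := wf i (x * cexp φ) u v with hA
    set B := wf i (y * cexp φ) u v with hB
    calc ENNReal.ofReal ((A + B) ^ 2) ≤ ENNReal.ofReal (2 * A ^ 2 + 2 * B ^ 2) :=
          ENNReal.ofReal_le_ofReal (by nlinarith [sq_nonneg (A - B)])
      _ = ENNReal.ofReal 2 * ENNReal.ofReal (A ^ 2) + ENNReal.ofReal 2 * ENNReal.ofReal (B ^ 2) := by
          rw [ENNReal.ofReal_add (by positivity) (by positivity), ENNReal.ofReal_mul (by norm_num),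
            ENNReal.ofReal_mul (by norm_num)]
      _ ≤ ENNReal.ofReal 2 * (ENNReal.ofReal C * ov i h φ u v) +
          ENNReal.ofReal 2 * (ENNReal.ofReal C' * ov i h φ u v) :=
          add_le_add (mul_le_mul_right (h1 φ u v) _) (mul_le_mul_right (h2 φ u v) _)
      _ = ENNReal.ofReal (2 * C + 2 * C') * ov i h φ u v := by
          rw [ENNReal.ofReal_add (by positivity) (by positivity), ENNReal.ofReal_mul (by norm_num),
            ENNReal.ofReal_mul (by norm_num), add_mul, mul_assoc, mul_assoc]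
  · rintro c x - ⟨C, hC, h1⟩
    refine ⟨c ^ 2 * C, by positivity, fun φ u v => ?_⟩
    have e1 : wf i ((c • x) * cexp φ) u v = c * wf i (x * cexp φ) u v := by
      rw [smul_mul_assoc, wf_smul]
    rw [e1, mul_pow, ENNReal.ofReal_mul (sq_nonneg c), ENNReal.ofReal_mul (sq_nonneg c), mul_assoc]
    exact mul_le_mul_right (h1 φ u v) _

variable [MeasurableSpace C(M, ℝ)] [BorelSpace C(M, ℝ)]

theorem off [Nonempty M] (hSf : Sf μ i a) (hB : IsB μ i b) (hW : Wl μ a b)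
    (hex : ∀ φ, ∃ (e : ℕ → H) (E : ℕ → ℝ), Eg a (b φ) e E)
    (h : ℕ → C(M, ℝ)) (hs : Summable fun n => ‖h n‖)
    (hd : Dense (Submodule.span ℝ (Set.range h) : Set C(M, ℝ)))
    (P : Measure C(M, ℝ)) [IsProbabilityMeasure P] (P' : ℕ → Measure C(M, ℝ))
    [∀ n, IsProbabilityMeasure (P' n)]
    (hP : ∀ n, P = ((P' n).prod (volume.restrict (Icc (0 : ℝ) 1))).map fun p => p.1 + p.2 • h n)
    (f : C(M, ℝ)) (s : ℕ → ℝ) (hs0 : Tendsto s atTop (𝓝 0)) {ε : ℝ} (hε : 0 < ε) :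
    Tendsto (fun j : ℕ => P {φ : C(M, ℝ) |
      ∃ e E, Eg a (b φ) e E ∧ ∃ n k, n ≤ j ∧ j < k ∧
      (∫ x, Real.exp (φ x) ∂μ) / (4 * π) * E k - (∫ x, Real.exp (φ x) ∂μ) / (4 * π) * E n ≤ s j ∧
      ε ≤ |wf i (f * cexp φ) (e n) (e k)|}) atTop (𝓝 0) := by
  obtain ⟨g, hg, hfg⟩ := Metric.dense_iff.1 hd f (ε / 2) (by positivity)
  rw [Metric.mem_ball, dist_comm, dist_eq_norm] at hg
  obtain ⟨C, hC, hdom⟩ := dom_span (i := i) h hfg
  rw [ENNReal.tendsto_atTop_zero]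
  intro η' hη'
  obtain ⟨η, hη, hηη⟩ : ∃ η : ℝ, 0 < η ∧ ENNReal.ofReal η ≤ η' := by
    rcases eq_or_ne η' ⊤ with rfl | hne
    · exact ⟨1, one_pos, le_top⟩
    · exact ⟨η'.toReal, ENNReal.toReal_pos hη'.ne' hne, (ENNReal.ofReal_toReal hne).le⟩
  set V := ∑' n, ∫ φ, var μ (h n) φ ∂P with hV
  set l := (|V| + 1) / η with hl
  have hl0 : 0 < l := by positivity
  have h1 := mevent hSf hB hW hex h hs P P' hP hl0 (show 0 < η / 2 by positivity)
  have h2 : ∀ᶠ j in atTop, C * (l * s j) < (ε / 2) ^ 2 := by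
    have h3 : Tendsto (fun j => C * (l * s j)) atTop (𝓝 (C * (l * 0))) :=
      (hs0.const_mul l).const_mul C
    rw [mul_zero, mul_zero] at h3
    exact h3.eventually (gt_mem_nhds (by positivity))
  obtain ⟨N, hN⟩ := eventually_atTop.1 (h1.and h2)
  refine ⟨N, fun j hj => ?_⟩
  obtain ⟨k1, k2⟩ := hN j hj
  refine le_trans (measure_mono ?_) (k1.trans (le_trans (ENNReal.ofReal_le_ofReal ?_) hηη))
  · rintro φ ⟨e, E, hE, n, k, hn, hk, hx, hfe⟩
    refine ⟨e, E, hE, n, k, hn, hk, ?_⟩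
    by_contra hcon
    push Not at hcon
    have h4 : wf i (g * cexp φ) (e n) (e k) ^ 2 ≤ C * (l * s j) := by
      have h5 : ENNReal.ofReal (wf i (g * cexp φ) (e n) (e k) ^ 2) ≤
          ENNReal.ofReal (C * (l * ((∫ x, Real.exp (φ x) ∂μ) / (4 * π) * E k -
            (∫ x, Real.exp (φ x) ∂μ) / (4 * π) * E n))) := by
        rw [ENNReal.ofReal_mul hC]
        exact (hdom φ (e n) (e k)).trans (mul_le_mul_right hcon _)
      have h6 : 0 ≤ C * (l * ((∫ x, Real.exp (φ x) ∂μ) / (4 * π) * E k -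
            (∫ x, Real.exp (φ x) ∂μ) / (4 * π) * E n)) := by
        obtain ⟨hF, hA, hexp, -⟩ := Pool.Agent.Q205.QLim.facts μ i a b hSf hB
        have hc0 : 0 < (∫ x, Real.exp (φ x) ∂μ) / (4 * π) := div_pos (hA φ) (by positivity)
        have hnk : E n ≤ E k := hE.mono (by omega : n ≤ k)
        exact mul_nonneg hC (mul_nonneg hl0.le
          (sub_nonneg.2 (mul_le_mul_of_nonneg_left hnk hc0.le)))
      have h7 := (ENNReal.ofReal_le_ofReal_iff h6).1 h5
      exact h7.trans (mul_le_mul_of_nonneg_left (mul_le_mul_of_nonneg_left hx hl0.le) hC)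
    have h8 : |wf i (g * cexp φ) (e n) (e k)| < ε / 2 :=
      abs_lt_of_sq_lt_sq (h4.trans_lt k2) (by positivity)
    have h9 : |wf i ((f - g) * cexp φ) (e n) (e k)| ≤ ‖f - g‖ :=
      abs_le_of_sq_le_sq (wf_sq_le hB φ (f - g) e hE.orth n k) (norm_nonneg _)
    have e1 : wf i (f * cexp φ) (e n) (e k) = wf i ((f - g) * cexp φ) (e n) (e k) +
        wf i (g * cexp φ) (e n) (e k) := by
      rw [← wf_add, ← add_mul, sub_add_cancel]
    rw [e1] at hfe
    have h10 := abs_add_le (wf i ((f - g) * cexp φ) (e n) (e k)) (wf i (g * cexp φ) (e n) (e k))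
    linarith
  · have h3 : V / (2 * l) ≤ η / 2 := by
      rw [hl, div_le_iff₀ (by positivity)]
      have : η / 2 * (2 * ((|V| + 1) / η)) = |V| + 1 := by
        field_simp
      rw [this]
      linarith [le_abs_self V]
    linarith

end

end Pool.Agent.Run7.h307.LR
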