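import Pool.Agent.Y262.QE.Stm
import Pool.Agent.Run7.h307.LR.Mat

/-!
# The product of the positive eigenvalues and Gram determinants
-/

set_option autoImplicit false

open Matrix Finset Filter Topology
open Pool.Agent.Y262.QE

noncomputable section

namespace Pool.Agent.Run7.h307.LR

variable {H : Type} [NormedAddCommGroup H] [InnerProductSpace ℝ H]

/-- Gram matrix -/
def gram {ι : Type*} (b : H →L[ℝ] H →L[ℝ] ℝ) (v : ι → H) : Matrix ι ι ℝ := fun i l => b (v i) (v l)

/-- linear combination -/
def comb {ι : Type*} [Fintype ι] (v : ι → H) (x : ι → ℝ) : H := ∑ i, x i • v i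

theorem form_comb {ι : Type*} [Fintype ι] (b : H →L[ℝ] H →L[ℝ] ℝ) (v : ι → H) (x y : ι → ℝ) :
    b (comb v x) (comb v y) = ∑ i, ∑ l, x i * y l * b (v i) (v l) := by
  unfold comb
  simp only [map_sum, map_smul, FunLike.coe_sum, Finset.sum_apply,
    FunLike.coe_smul, Pi.smul_apply, smul_eq_mul, mul_sum]
  rw [sum_comm]
  refine sum_congr rfl fun i _ => sum_congr rfl fun l _ => ?_
  ring

theorem form_comb' {ι : Type*} [Fintype ι] [DecidableEq ι] (b : H →L[ℝ] H →L[ℝ] ℝ) (v : ι → H)
    (P : Matrix ι ι ℝ) (i l : ι) :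
    b (comb v fun r => P r i) (comb v fun r => P r l) = (Pᵀ * gram b v * P) i l := by
  rw [form_comb, mul_apply]
  simp only [mul_apply, transpose_apply, gram, sum_mul]
  rw [sum_comm]
  refine sum_congr rfl fun i _ => sum_congr rfl fun l _ => ?_
  ring

/-- min-max for an orthonormal diagonal family -/
theorem ev_le (a b : H →L[ℝ] H →L[ℝ] ℝ) (nb : ∀ v, 0 ≤ b v v) {q : ℕ}
    (f : Fin (q + 1) → H) (l : Fin (q + 1) → ℝ) (hb : ∀ i r, b (f i) (f r) = if i = r then 1 else 0)
    (ha : ∀ i r, a (f i) (f r) = if i = r then l i else 0) (h0 : ∀ i, 0 ≤ l i) (L : ℝ)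
    (hL : ∀ i, l i ≤ L) : Ev a b q ≤ L := by
  refine csInf_le ⟨0, fun x hx => hx.1⟩ ⟨(h0 0).trans (hL 0), ?_⟩
  have hli : LinearIndependent ℝ f := by
    rw [Fintype.linearIndependent_iff]
    intro g hg i
    have h1 : b (comb f g) (f i) = g i := by
      unfold comb
      simp only [map_sum, map_smul, FunLike.coe_sum, Finset.sum_apply,
        FunLike.coe_smul, Pi.smul_apply, smul_eq_mul, hb, mul_ite, mul_one, mul_zero,
        sum_ite_eq', mem_univ, if_true]
    have h2 : comb f g = 0 := hg
    rw [h2] at h1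
    simpa using h1.symm
  refine ⟨Submodule.span ℝ (Set.range f), ?_, ?_⟩
  · rw [finrank_span_eq_card hli, Fintype.card_fin]
  · intro v hv
    rw [Submodule.mem_span_range_iff_exists_fun] at hv
    obtain ⟨c, rfl⟩ := hv
    have e1 : a (∑ i, c i • f i) (∑ i, c i • f i) = ∑ i, l i * c i ^ 2 := by
      have := form_comb a f c c
      unfold comb at this
      rw [this]
      refine sum_congr rfl fun i _ => ?_
      simp only [ha, mul_ite, mul_zero, sum_ite_eq, mem_univ, if_true]
      ring
    have e2 : b (∑ i, c i • f i) (∑ i, c i • f i) = ∑ i, c i ^ 2 := by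
      have := form_comb b f c c
      unfold comb at this
      rw [this]
      refine sum_congr rfl fun i _ => ?_
      simp only [hb, mul_ite, mul_zero, sum_ite_eq, mem_univ, if_true]
      ring
    rw [e1, e2, mul_sum]
    exact sum_le_sum fun i _ => mul_le_mul_of_nonneg_right (hL i) (sq_nonneg _)

theorem exists_sort {n : ℕ} {ι : Type*} [Fintype ι] (σ : Fin n ≃ ι) (l : ι → ℝ) :
    ∃ τ : Fin n ≃ ι, Monotone fun q => l (τ q) :=
  ⟨(Tuple.sort fun q => l (σ q)).trans σ, fun x y hxy => Tuple.monotone_sort (fun q => l (σ q)) hxy⟩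

/-- the product of the positive eigenvalues is at most a quotient of Gram determinants -/
theorem prod_ev (a b : H →L[ℝ] H →L[ℝ] ℝ) (hF : Fm a b) {κ m : ℕ} (z : Fin κ → H) (v : Fin m → H)
    (hz : ∀ i w, a (z i) w = 0) (hpos : (gram b (Sum.elim z v)).PosDef) :
    (gram b (Sum.elim z v)).det * ∏ r : Fin m, Ev a b (κ + r) ≤ (gram b z).det * (gram a v).det := by
  set w := Sum.elim z v with hw
  set B := gram b w with hB
  set A := gram a w with hA
  have hAH : A.IsHermitian := by
    ext i l
    simp only [conjTranspose_apply, star_trivial, hA, gram]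
    exact hF.sa _ _
  obtain ⟨P, l, hP1, hP2⟩ := simul B A hpos hAH
  have hl0 : ∀ i, 0 ≤ l i := by
    intro i
    have h1 := form_comb' a w P i i
    have h2 : (Pᵀ * gram a w * P) i i = l i := by
      show (Pᵀ * A * P) i i = l i
      rw [hP2, diagonal_apply_eq]
    rw [h2] at h1
    rw [← h1]
    exact hF.na _
  obtain ⟨τ, hτ⟩ := exists_sort (finSumFinEquiv (m := κ) (n := m)).symm l
  -- eigenvalues
  have hev : ∀ q : Fin (κ + m), Ev a b q ≤ l (τ q) := by
    intro q
    have hlt : ∀ r : Fin ((q : ℕ) + 1), (r : ℕ) < κ + m := fun r => by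
      have := r.2
      have := q.2
      omega
    refine ev_le a b hF.nb (fun r : Fin ((q : ℕ) + 1) => comb w fun s => P s (τ ⟨r, hlt r⟩))
      (fun r => l (τ ⟨r, hlt r⟩)) ?_ ?_ (fun _ => hl0 _) _ ?_
    · intro i r
      rw [form_comb']
      show (Pᵀ * B * P) _ _ = _
      rw [hP1, one_apply]
      refine if_congr ?_ rfl rfl
      rw [τ.injective.eq_iff, Fin.ext_iff, Fin.ext_iff]
    · intro i r
      rw [form_comb']
      show (Pᵀ * A * P) _ _ = _
      rw [hP2, diagonal_apply]
      refine if_congr ?_ rfl rfl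
      rw [τ.injective.eq_iff, Fin.ext_iff, Fin.ext_iff]
    · intro r
      apply hτ
      rw [Fin.le_iff_val_le_val]
      have := r.2
      show (r : ℕ) ≤ q
      omega
  have hdB : P.det * P.det * B.det = 1 := by
    have := congrArg det hP1
    rw [det_mul, det_mul, det_transpose, det_one] at this
    linarith
  -- the pencil
  have hdet : ∀ s : ℝ, (A + s • B).det = B.det * ∏ i, (l i + s) := by
    intro s
    have h1 : Pᵀ * (A + s • B) * P = diagonal fun i => l i + s := by
      rw [Matrix.mul_add, Matrix.add_mul, hP2, Matrix.mul_smul, Matrix.smul_mul, hP1]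
      ext i r
      by_cases h : i = r
      · subst h
        simp
      · simp [h]
    have h2 := congrArg det h1
    rw [det_mul, det_mul, det_transpose, det_diagonal] at h2
    linear_combination B.det * h2 - (A + s • B).det * hdB
  have hB0 : 0 < B.det := hpos.det_pos
  have hprod : ∀ s : ℝ, 0 < s → B.det * (s ^ κ * ∏ r : Fin m, Ev a b (κ + r)) ≤ (A + s • B).det := by
    intro s hs
    rw [hdet]
    refine mul_le_mul_of_nonneg_left ?_ hB0.le
    have e1 : ∏ i, (l i + s) = ∏ q : Fin (κ + m), (l (τ q) + s) :=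
      (Equiv.prod_comp τ fun i => l i + s).symm
    rw [e1, Fin.prod_univ_add]
    have e2 : s ^ κ = ∏ _i : Fin κ, s := by simp
    rw [e2]
    have hE0 : ∀ q, 0 ≤ Ev a b q := fun q => Real.sInf_nonneg fun x hx => hx.1
    refine mul_le_mul (prod_le_prod (fun _ _ => hs.le) fun i _ => ?_)
      (prod_le_prod (fun i _ => hE0 _) fun i _ => ?_) (prod_nonneg fun i _ => hE0 _)
      (prod_nonneg fun i _ => add_nonneg (hl0 _) hs.le)
    · have := hl0 (τ (Fin.castAdd m i))
      linarith
    · have := hev (Fin.natAdd κ i)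
      rw [Fin.val_natAdd] at this
      linarith
  -- blocks
  set B11 := gram b z with hB11
  set B12 : Matrix (Fin κ) (Fin m) ℝ := fun i r => b (z i) (v r) with hB12
  set B21 : Matrix (Fin m) (Fin κ) ℝ := fun r i => b (v r) (z i) with hB21
  set B22 := gram b v with hB22
  have hblk : ∀ s : ℝ, A + s • B = fromBlocks (s • B11) (s • B12) (s • B21) (gram a v + s • B22) := by
    intro s
    ext i r
    rcases i with i | i <;> rcases r with r | r
    · simp [hA, hB, gram, hw, hz, hB11]
    · simp only [hA, hB, gram, hw, Matrix.add_apply, Matrix.smul_apply, Sum.elim_inr, Sum.elim_inl,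
        fromBlocks_apply₁₂]
      rw [hz, zero_add]
    · simp only [hA, hB, gram, hw, Matrix.add_apply, Matrix.smul_apply, Sum.elim_inr, Sum.elim_inl,
        fromBlocks_apply₂₁]
      rw [hF.sa, hz, zero_add]
    · simp [hA, hB, gram, hw, hB22]
  set f : ℝ → ℝ := fun s => (fromBlocks B11 B12 (s • B21) (gram a v + s • B22)).det with hf
  have hfs : ∀ s : ℝ, (A + s • B).det = s ^ κ * f s := by
    intro s
    have e1 : A + s • B = fromBlocks (s • (1 : Matrix (Fin κ) (Fin κ) ℝ)) 0 0 1 *
        fromBlocks B11 B12 (s • B21) (gram a v + s • B22) := by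
      rw [hblk, fromBlocks_multiply]
      simp
    rw [e1, det_mul, det_fromBlocks_zero₂₁, det_one, mul_one, det_smul, det_one, mul_one,
      Fintype.card_fin]
  have hf1 : ∀ s : ℝ, 0 < s → B.det * ∏ r : Fin m, Ev a b (κ + r) ≤ f s := by
    intro s hs
    have h1 := hprod s hs
    rw [hfs] at h1
    have h2 : 0 < s ^ κ := pow_pos hs κ
    refine le_of_mul_le_mul_left ?_ h2
    linarith
  have hf0 : f 0 = B11.det * (gram a v).det := by
    simp only [hf, zero_smul, add_zero]
    rw [det_fromBlocks_zero₂₁]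
  have hfc : Continuous f := by
    refine Continuous.matrix_det ?_
    refine Continuous.matrix_fromBlocks continuous_const continuous_const ?_ ?_
    · exact continuous_id.smul continuous_const
    · exact continuous_const.add (continuous_id.smul continuous_const)
  have hlim : Tendsto f (𝓝[>] 0) (𝓝 (f 0)) := (hfc.tendsto 0).mono_left nhdsWithin_le_nhds
  rw [← hf0]
  refine ge_of_tendsto hlim ?_
  filter_upwards [self_mem_nhdsWithin] with s hs using hf1 s hs

end Pool.Agent.Run7.h307.LR
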