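import Mathlib

/-!
# Second differences of convex functions
-/

set_option autoImplicit false

open Set Filter Topology MeasureTheory
open scoped ENNReal

noncomputable section

namespace Pool.Agent.Run7.h307.LR

/-- lower support to second order -/
def Low (f : ℝ → ℝ) (t R : ℝ) : Prop :=
  ∃ T C : ℝ, ∀ᶠ ε in 𝓝 (0 : ℝ), f t + ε * T + ε ^ 2 * R - C * |ε| ^ 3 ≤ f (t + ε)

theorem convex_of_low (f : ℝ → ℝ) (hc : Continuous f) (h : ∀ t, Low f t 0) :
    ConvexOn ℝ univ f := by
  -- the key inequality
  have key : ∀ x y : ℝ, x < y → ∀ p q : ℝ, f x ≤ p * x + q → f y ≤ p * y + q →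
      ∀ u ∈ Icc x y, f u ≤ p * u + q := by
    intro x y hxy p q hx hy u hu
    have hδ : ∀ δ : ℝ, 0 < δ → f u - (p * u + q) + δ * ((u - x) * (u - y)) ≤ 0 := by
      intro δ hδ
      by_contra hcon
      push Not at hcon
      set g : ℝ → ℝ := fun s => f s - (p * s + q) + δ * ((s - x) * (s - y)) with hg
      have hgc : Continuous g := by fun_prop
      obtain ⟨w, hw, hmax⟩ := isCompact_Icc.exists_isMaxOn (nonempty_Icc.2 hxy.le) hgc.continuousOn
      have hgw : 0 < g w := lt_of_lt_of_le hcon (hmax hu)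
      have hwx : w ≠ x := by
        rintro rfl
        simp only [hg, sub_self, zero_mul, mul_zero, add_zero] at hgw
        linarith
      have hwy : w ≠ y := by
        rintro rfl
        simp only [hg, sub_self, mul_zero, add_zero] at hgw
        linarith
      have hw' : w ∈ Ioo x y := ⟨lt_of_le_of_ne hw.1 (Ne.symm hwx), lt_of_le_of_ne hw.2 hwy⟩
      obtain ⟨T, C, hTC⟩ := h w
      set T' := T - p + δ * (2 * w - x - y) with hT'
      have hlow : ∀ᶠ ε in 𝓝 (0 : ℝ), g w + ε * T' + δ * ε ^ 2 - C * |ε| ^ 3 ≤ g (w + ε) := by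
        filter_upwards [hTC] with ε hε
        simp only [hg]
        nlinarith
      have hmx : ∀ᶠ ε in 𝓝 (0 : ℝ), g (w + ε) ≤ g w := by
        have h1 : Tendsto (fun ε : ℝ => w + ε) (𝓝 0) (𝓝 (w + 0)) :=
          (continuous_const.add continuous_id).tendsto 0
        rw [add_zero] at h1
        filter_upwards [h1.eventually (Icc_mem_nhds hw'.1 hw'.2)] with ε hε using hmax hε
      have hC : ∀ᶠ ε in 𝓝 (0 : ℝ), |ε| * (|C| + 1) < δ := by
        have : Continuous fun ε : ℝ => |ε| * (|C| + 1) := by fun_prop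
        have h1 := this.tendsto 0
        simp only [abs_zero, zero_mul] at h1
        exact h1.eventually (gt_mem_nhds hδ)
      obtain ⟨r, hr, hball⟩ := Metric.eventually_nhds_iff.1 (hlow.and (hmx.and hC))
      have hE : ∀ ε : ℝ, |ε| = r / 2 → 0 ≤ ε * T' → False := by
        intro ε he hT
        have hd : dist ε 0 < r := by
          rw [Real.dist_eq, sub_zero, he]
          linarith
        obtain ⟨k1, k2, k3⟩ := hball hd
        have h2 : 0 < |ε| := by rw [he]; linarith
        have h3 : C * |ε| ^ 3 ≤ (|C| * |ε|) * ε ^ 2 := by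
          have : (|C| * |ε|) * ε ^ 2 = |C| * |ε| ^ 3 := by
            rw [← sq_abs ε]
            ring
          rw [this]
          exact mul_le_mul_of_nonneg_right (le_abs_self C) (by positivity)
        have h4 : 0 < ε ^ 2 := by
          rw [← sq_abs]
          positivity
        nlinarith
      rcases le_total 0 T' with hT | hT
      · exact hE (r / 2) (abs_of_pos (by linarith)) (mul_nonneg (by linarith) hT)
      · refine hE (-(r / 2)) (by rw [abs_neg, abs_of_pos (by linarith)]) ?_
        nlinarith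
    by_contra hcon
    push Not at hcon
    have hne : 0 ≤ -((u - x) * (u - y)) := by
      have h1 := hu.1
      have h2 := hu.2
      nlinarith
    set A := f u - (p * u + q) with hA
    have hA0 : 0 < A := by linarith
    have h5 := hδ (A / (2 * (-((u - x) * (u - y)) + 1))) (by positivity)
    set B := -((u - x) * (u - y)) with hB
    have h6 : (u - x) * (u - y) = -B := by rw [hB]; ring
    rw [h6] at h5
    have h7 : A / (2 * (B + 1)) * (-B) ≥ -(A / 2) := by
      rw [ge_iff_le, div_mul_eq_mul_div, le_div_iff₀ (by positivity)]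
      nlinarith
    linarith
  refine ⟨convex_univ, fun x _ y _ α β hα hβ hαβ => ?_⟩
  simp only [smul_eq_mul]
  obtain rfl : α = 1 - β := by linarith
  rcases lt_trichotomy x y with hxy | hxy | hxy
  · have h1 := key x y hxy ((f y - f x) / (y - x)) (f x - (f y - f x) / (y - x) * x) (by linarith)
      (by
        have : (f y - f x) / (y - x) * (y - x) = f y - f x :=
          div_mul_cancel₀ _ (sub_ne_zero.2 hxy.ne')
        nlinarith) ((1 - β) * x + β * y) ⟨by nlinarith [mul_nonneg hβ (sub_nonneg.2 hxy.le)],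
          by nlinarith [mul_nonneg hα (sub_nonneg.2 hxy.le)]⟩
    refine h1.trans (le_of_eq ?_)
    have h2 : (f y - f x) / (y - x) * (y - x) = f y - f x :=
      div_mul_cancel₀ _ (sub_ne_zero.2 hxy.ne')
    linear_combination β * h2
  · subst hxy
    have : (1 - β) * x + β * x = x := by ring
    rw [this]
    have : (1 - β) * f x + β * f x = f x := by ring
    rw [this]
  · have h1 := key y x hxy ((f x - f y) / (x - y)) (f y - (f x - f y) / (x - y) * y) (by linarith)
      (by
        have : (f x - f y) / (x - y) * (x - y) = f x - f y :=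
          div_mul_cancel₀ _ (sub_ne_zero.2 hxy.ne')
        nlinarith) ((1 - β) * x + β * y) ⟨by nlinarith [mul_nonneg hα (sub_nonneg.2 hxy.le)],
          by nlinarith [mul_nonneg hβ (sub_nonneg.2 hxy.le)]⟩
    refine h1.trans (le_of_eq ?_)
    have h2 : (f x - f y) / (x - y) * (x - y) = f x - f y :=
      div_mul_cancel₀ _ (sub_ne_zero.2 hxy.ne')
    linear_combination (1 - β) * h2

/-- difference of slopes -/
def slp (f : ℝ → ℝ) (α β r : ℝ) : ℝ := (f (β + r) - f β) / r - (f α - f (α - r)) / r

theorem convex_nonneg {f : ℝ → ℝ} (hf : ConvexOn ℝ univ f) (t ε : ℝ) :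
    0 ≤ f (t + ε) + f (t - ε) - 2 * f t := by
  have h := hf.2 (mem_univ (t + ε)) (mem_univ (t - ε)) (by norm_num : (0 : ℝ) ≤ 1 / 2)
    (by norm_num : (0 : ℝ) ≤ 1 / 2) (by norm_num)
  simp only [smul_eq_mul] at h
  have e : 1 / 2 * (t + ε) + 1 / 2 * (t - ε) = t := by ring
  rw [e] at h
  linarith

theorem int_second {f : ℝ → ℝ} (hf : ConvexOn ℝ univ f) (hc : Continuous f) {α β ε r : ℝ}
    (hε : 0 < ε) (hr : ε ≤ r) :
    ∫ t in α..β, (f (t + ε) + f (t - ε) - 2 * f t) ≤ ε ^ 2 * slp f α β r := by
  have hr0 : 0 < r := hε.trans_le hr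
  set h : ℝ → ℝ := fun x => f (x + ε) - f x with hh
  have hhc : Continuous h := by fun_prop
  have e1 : ∫ t in α..β, (f (t + ε) + f (t - ε) - 2 * f t) = ∫ t in α..β, (h t - h (t - ε)) := by
    refine intervalIntegral.integral_congr fun t _ => ?_
    simp only [hh, sub_add_cancel]
    ring
  have e2 : ∫ t in α..β, (h t - h (t - ε)) =
      (∫ t in (β - ε)..β, h t) - ∫ t in (α - ε)..α, h t := by
    rw [intervalIntegral.integral_sub (hhc.intervalIntegrable _ _)
      ((by fun_prop : Continuous fun t => h (t - ε)).intervalIntegrable _ _),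
      intervalIntegral.integral_comp_sub_right h ε]
    have a1 := intervalIntegral.integral_add_adjacent_intervals (hhc.intervalIntegrable (α - ε) α)
      (hhc.intervalIntegrable α β) (μ := volume)
    have a2 := intervalIntegral.integral_add_adjacent_intervals
      (hhc.intervalIntegrable (α - ε) (β - ε)) (hhc.intervalIntegrable (β - ε) β) (μ := volume)
    linarith
  have sec := fun (a x y : ℝ) (hx : x ≠ a) (hy : y ≠ a) (hxy : x ≤ y) =>
    hf.secant_mono (mem_univ a) (mem_univ x) (mem_univ y) hx hy hxy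
  have b1 : ∀ x ∈ Icc (β - ε) β, h x ≤ ε * ((f (β + r) - f β) / r) := by
    intro x hx
    have h1 := sec x (x + ε) (β + r) (by linarith) (by linarith [hx.2]) (by linarith [hx.2])
    have h2 := sec (β + r) x β (by linarith [hx.2]) (by linarith) hx.2
    have h3 : (f x - f (β + r)) / (x - (β + r)) = (f (β + r) - f x) / (β + r - x) := by
      rw [← neg_sub (f (β + r)) (f x), ← neg_sub (β + r) x, neg_div_neg_eq]
    have h4 : (f β - f (β + r)) / (β - (β + r)) = (f (β + r) - f β) / r := by
      rw [← neg_sub (f (β + r)) (f β), ← neg_sub (β + r) β, neg_div_neg_eq]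
      congr 1
      ring
    rw [h3, h4] at h2
    have h5 := h1.trans h2
    rw [add_sub_cancel_left, div_le_iff₀ hε] at h5
    simp only [hh]
    linarith
  have b2 : ∀ x ∈ Icc (α - ε) α, ε * ((f α - f (α - r)) / r) ≤ h x := by
    intro x hx
    have h1 := sec (α - r) α (x + ε) (by linarith) (by linarith [hx.1]) (by linarith [hx.1])
    have h2 := sec (x + ε) (α - r) x (by linarith [hx.1]) (by linarith) (by linarith [hx.1])
    have h3 : (f (α - r) - f (x + ε)) / (α - r - (x + ε)) =
        (f (x + ε) - f (α - r)) / (x + ε - (α - r)) := by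
      rw [← neg_sub (f (x + ε)) (f (α - r)), ← neg_sub (x + ε) (α - r), neg_div_neg_eq]
    have h4 : (f x - f (x + ε)) / (x - (x + ε)) = (f (x + ε) - f x) / ε := by
      rw [← neg_sub (f (x + ε)) (f x), ← neg_sub (x + ε) x, neg_div_neg_eq]
      congr 1
      ring
    rw [h3, h4] at h2
    have h5 := h1.trans h2
    rw [sub_sub_cancel, le_div_iff₀ hε] at h5
    simp only [hh]
    linarith
  have c1 : ∫ t in (β - ε)..β, h t ≤ ε * (ε * ((f (β + r) - f β) / r)) := by
    have := intervalIntegral.integral_mono_on (by linarith : β - ε ≤ β)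
      (hhc.intervalIntegrable _ _) (intervalIntegrable_const (μ := volume)) b1
    rw [intervalIntegral.integral_const, sub_sub_cancel, smul_eq_mul] at this
    exact this
  have c2 : ε * (ε * ((f α - f (α - r)) / r)) ≤ ∫ t in (α - ε)..α, h t := by
    have := intervalIntegral.integral_mono_on (by linarith : α - ε ≤ α)
      (intervalIntegrable_const (μ := volume)) (hhc.intervalIntegrable _ _) b2
    rw [intervalIntegral.integral_const, sub_sub_cancel, smul_eq_mul] at this
    exact this
  rw [e1, e2]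
  unfold slp
  nlinarith

/-- second difference quotient -/
def Dq (f : ℝ → ℝ) (n : ℕ) (t : ℝ) : ℝ≥0∞ :=
  ENNReal.ofReal ((f (t + 1 / (n + 1)) + f (t - 1 / (n + 1)) - 2 * f t) / (1 / (n + 1)) ^ 2)

/-- lower second derivative -/
def q2 (f : ℝ → ℝ) (t : ℝ) : ℝ≥0∞ := liminf (fun n => Dq f n t) atTop

theorem meas_Dq {f : ℝ → ℝ} (hc : Continuous f) (n : ℕ) : Measurable (Dq f n) := by
  unfold Dq
  refine ENNReal.measurable_ofReal.comp ?_
  refine Continuous.measurable ?_
  fun_prop

theorem meas_q2 {f : ℝ → ℝ} (hc : Continuous f) : Measurable (q2 f) :=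
  Measurable.liminf fun n => meas_Dq hc n

theorem int_q2 {f : ℝ → ℝ} (hf : ConvexOn ℝ univ f) (hc : Continuous f) {α β r : ℝ} (hαβ : α ≤ β)
    (hr : 0 < r) : ∫⁻ t in Icc α β, q2 f t ≤ ENNReal.ofReal (slp f α β r) := by
  refine (lintegral_liminf_le fun n => meas_Dq hc n).trans ?_
  have hev : ∀ᶠ n : ℕ in atTop, ∫⁻ t in Icc α β, Dq f n t ≤ ENNReal.ofReal (slp f α β r) := by
    have h1 : ∀ᶠ n : ℕ in atTop, 1 / ((n : ℝ) + 1) ≤ r :=
      (tendsto_one_div_add_atTop_nhds_zero_nat (𝕜 := ℝ)).eventually (ge_mem_nhds hr)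
    filter_upwards [h1] with n hn
    have hε : (0 : ℝ) < 1 / (n + 1) := by positivity
    set ε : ℝ := 1 / (n + 1) with hεd
    have hint : Continuous fun t => (f (t + ε) + f (t - ε) - 2 * f t) / ε ^ 2 := by fun_prop
    unfold Dq
    rw [← ofReal_integral_eq_lintegral_ofReal]
    · refine ENNReal.ofReal_le_ofReal ?_
      rw [integral_Icc_eq_integral_Ioc, ← intervalIntegral.integral_of_le hαβ,
        intervalIntegral.integral_div, div_le_iff₀ (by positivity), mul_comm]
      exact int_second hf hc hε hn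
    · exact hint.integrableOn_Icc
    · exact Eventually.of_forall fun t => div_nonneg (convex_nonneg hf t ε) (sq_nonneg _)
  exact liminf_le_of_frequently_le' hev.frequently

theorem le_q2 {f : ℝ → ℝ} {t R : ℝ} (h : Low f t R) : ENNReal.ofReal (2 * R) ≤ q2 f t := by
  obtain ⟨T, C, hTC⟩ := h
  have h1 : Tendsto (fun n : ℕ => 1 / ((n : ℝ) + 1)) atTop (𝓝 0) :=
    tendsto_one_div_add_atTop_nhds_zero_nat
  have h2 : Tendsto (fun n : ℕ => -(1 / ((n : ℝ) + 1))) atTop (𝓝 0) := by
    have := h1.neg
    rwa [neg_zero] at this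
  have h3 : Tendsto (fun n : ℕ => ENNReal.ofReal (2 * R - 2 * C * (1 / ((n : ℝ) + 1)))) atTop
      (𝓝 (ENNReal.ofReal (2 * R - 2 * C * 0))) :=
    (ENNReal.continuous_ofReal.tendsto _).comp (tendsto_const_nhds.sub (h1.const_mul (2 * C)))
  rw [mul_zero, sub_zero] at h3
  rw [← h3.liminf_eq]
  refine liminf_le_liminf ?_
  filter_upwards [h1.eventually hTC, h2.eventually hTC] with n k1 k2
  have hε : (0 : ℝ) < 1 / (n + 1) := by positivity
  unfold Dq
  set ε : ℝ := 1 / (n + 1) with hεd
  refine ENNReal.ofReal_le_ofReal ?_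
  rw [le_div_iff₀ (by positivity)]
  rw [abs_neg, ← sub_eq_add_neg] at k2
  rw [abs_of_pos hε] at k1 k2
  nlinarith

end Pool.Agent.Run7.h307.LR
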