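import Pool.Agent.Run7.h307.LR.Glob

/-!
# Random conformal metrics: dominated convergence
-/

set_option autoImplicit false

open Set Filter Topology MeasureTheory Asymptotics
open scoped Real ContDiff ENNReal
open Pool.Agent.Y262.QE Pool.Agent.Y264.QR

noncomputable section

namespace Pool.Agent.Run7.h307.LR

theorem slp_lip {f : ℝ → ℝ} {L α β r : ℝ} (hr : 0 < r) (h : ∀ t t', |f t - f t'| ≤ L * |t - t'|) :
    |slp f α β r| ≤ 2 * L := by
  have h1 := h (β + r) β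
  have h2 := h α (α - r)
  rw [add_sub_cancel_left, abs_of_pos hr] at h1
  rw [sub_sub_cancel, abs_of_pos hr] at h2
  have k1 : |(f (β + r) - f β) / r| ≤ L := by
    rw [abs_div, abs_of_pos hr, div_le_iff₀ hr]
    exact h1
  have k2 : |(f α - f (α - r)) / r| ≤ L := by
    rw [abs_div, abs_of_pos hr, div_le_iff₀ hr]
    exact h2
  unfold slp
  refine (abs_sub _ _).trans ?_
  linarith

theorem log_le {x y d : ℝ} (hx : 0 < x) (hy : 0 < y) (h1 : x ≤ Real.exp d * y)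
    (h2 : y ≤ Real.exp d * x) : |Real.log x - Real.log y| ≤ d := by
  have k1 := Real.log_le_log hx h1
  have k2 := Real.log_le_log hy h2
  rw [Real.log_mul (Real.exp_pos _).ne' hy.ne', Real.log_exp] at k1
  rw [Real.log_mul (Real.exp_pos _).ne' hx.ne', Real.log_exp] at k2
  rw [abs_le]
  constructor <;> linarith

section

variable {M : Type} [MetricSpace M] [CompactSpace M] [MeasurableSpace M] [BorelSpace M]
  {μ : Measure M} [IsFiniteMeasure μ] {H : Type} [NormedAddCommGroup H] [InnerProductSpace ℝ H]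
  {i : H →L[ℝ] Lp ℝ 2 μ} {a : H →L[ℝ] H →L[ℝ] ℝ} {b : C(M, ℝ) → H →L[ℝ] H →L[ℝ] ℝ}

theorem area_le' (φ ψ : C(M, ℝ)) :
    ∫ x, Real.exp (φ x) ∂μ ≤ Real.exp ‖φ - ψ‖ * ∫ x, Real.exp (ψ x) ∂μ := by
  rw [← integral_const_mul]
  refine integral_mono (Pool.Agent.Y155.QR.int_cont μ (by fun_prop))
    (Pool.Agent.Y155.QR.int_cont μ (by fun_prop)) fun x => ?_
  simp only
  rw [← Real.exp_add]
  refine Real.exp_le_exp.2 ?_
  have h1 := (le_abs_self _).trans (habs (φ - ψ) x)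
  rw [ContinuousMap.sub_apply] at h1
  linarith

theorem cLogA (hA : ∀ φ : C(M, ℝ), 0 < ∫ x, Real.exp (φ x) ∂μ) :
    Continuous fun φ : C(M, ℝ) => Real.log (∫ x, Real.exp (φ x) ∂μ) := by
  refine LipschitzWith.continuous (K := 1) (LipschitzWith.of_dist_le_mul fun φ ψ => ?_)
  rw [Real.dist_eq, NNReal.coe_one, one_mul, dist_eq_norm]
  refine log_le (hA _) (hA _) (area_le' φ ψ) ?_
  rw [norm_sub_rev]
  exact area_le' ψ φ

theorem cArea (hA : ∀ φ : C(M, ℝ), 0 < ∫ x, Real.exp (φ x) ∂μ) :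
    Continuous fun φ : C(M, ℝ) => ∫ x, Real.exp (φ x) ∂μ := by
  refine (Real.continuous_exp.comp (cLogA hA)).congr fun φ => ?_
  exact Real.exp_log (hA φ)

theorem slp_area (hA : ∀ φ : C(M, ℝ), 0 < ∫ x, Real.exp (φ x) ∂μ) (φ h : C(M, ℝ)) {α β r : ℝ}
    (hr : 0 < r) : |slp (fun t => Real.log (∫ x, Real.exp ((φ + t • h) x) ∂μ)) α β r| ≤
      2 * ‖h‖ := by
  refine slp_lip hr fun t t' => ?_
  refine log_le (hA _) (hA _) (area_le φ h t t') ?_
  rw [abs_sub_comm]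
  exact area_le φ h t' t

theorem slp_fN (hSf : Sf μ i a) (hB : IsB μ i b) {κ : ℕ} (hκ : Zero a b κ) (φ h : C(M, ℝ)) (m : ℕ)
    {α β r : ℝ} (hr : 0 < r) (hαβ : α ≤ β) :
    |slp (fN a b φ h κ m) α β r| ≤ 2 * (m * ‖h‖) + κ * ‖h‖ ^ 2 * (2 * (β - α) + 2 * r) := by
  obtain ⟨hF, hA, hexp, -⟩ := Pool.Agent.Q205.QLim.facts μ i a b hSf hB
  obtain ⟨l1, l2, l3, l4, l5⟩ := Pool.Agent.Y390.QR.LIP.lip M μ H a b hF hexp
  set g : ℝ → ℝ := fun t => -(∑ r ∈ Finset.range m, Real.log (Ev a (b (φ + t • h)) (κ + r))) with hg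
  have e1 : slp (fN a b φ h κ m) α β r = slp g α β r + κ * ‖h‖ ^ 2 * (2 * (β - α) + 2 * r) := by
    unfold slp fN
    simp only [hg]
    field_simp
    ring
  have h1 : |slp g α β r| ≤ 2 * (m * ‖h‖) := by
    refine slp_lip hr fun t t' => ?_
    have h3 : g t - g t' = -∑ r ∈ Finset.range m, (Real.log (Ev a (b (φ + t • h)) (κ + r)) -
        Real.log (Ev a (b (φ + t' • h)) (κ + r))) := by
      simp only [hg, Finset.sum_sub_distrib]
      ring
    rw [h3, abs_neg]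
    refine (Finset.abs_sum_le_sum_abs _ _).trans ?_
    have h4 : ∀ r ∈ Finset.range m, |Real.log (Ev a (b (φ + t • h)) (κ + r)) -
        Real.log (Ev a (b (φ + t' • h)) (κ + r))| ≤ ‖h‖ * |t - t'| := by
      intro r _
      refine log_le (hκ.2 _ _ (Nat.le_add_right _ _)) (hκ.2 _ _ (Nat.le_add_right _ _)) ?_ ?_
      · have k := l3 (φ + t • h) (φ + t' • h) (κ + r)
        have e2 : (φ + t • h) - (φ + t' • h) = (t - t') • h := by
          rw [sub_smul]
          abel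
        rw [e2, norm_smul, Real.norm_eq_abs, mul_comm |t - t'|] at k
        exact k
      · have k := l3 (φ + t' • h) (φ + t • h) (κ + r)
        have e2 : (φ + t' • h) - (φ + t • h) = (t' - t) • h := by
          rw [sub_smul]
          abel
        rw [e2, norm_smul, Real.norm_eq_abs, mul_comm |t' - t|, abs_sub_comm t' t] at k
        exact k
    refine (Finset.sum_le_sum h4).trans (le_of_eq ?_)
    rw [Finset.sum_const, Finset.card_range, nsmul_eq_mul]
    ring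
  rw [e1]
  refine (abs_add_le _ _).trans ?_
  have h2 : 0 ≤ κ * ‖h‖ ^ 2 * (2 * (β - α) + 2 * r) := by
    have := sub_nonneg.2 hαβ
    positivity
  rw [abs_of_nonneg h2]
  linarith

variable [MeasurableSpace C(M, ℝ)] [BorelSpace C(M, ℝ)]

/-- the mean of the increase of the average -/
def DD (μ : Measure M) (P : Measure C(M, ℝ)) (h : C(M, ℝ)) (α β : ℝ) : ℝ :=
  ∫ φ, (avg μ h (φ + β • h) - avg μ h (φ + α • h)) ∂P

omit [MeasurableSpace C(M, ℝ)] [BorelSpace C(M, ℝ)] in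
theorem cslp (hSf : Sf μ i a) (hB : IsB μ i b) {κ : ℕ} (hκ : Zero a b κ) (h : C(M, ℝ)) (m : ℕ)
    (α β r : ℝ) : Continuous fun φ : C(M, ℝ) => slp (fN a b φ h κ m) α β r := by
  unfold slp
  exact (((cont2 hSf hB hκ h m _).sub (cont2 hSf hB hκ h m _)).div_const _).sub
    (((cont2 hSf hB hκ h m _).sub (cont2 hSf hB hκ h m _)).div_const _)

omit [MeasurableSpace C(M, ℝ)] [BorelSpace C(M, ℝ)] in
theorem cslpA (hA : ∀ φ : C(M, ℝ), 0 < ∫ x, Real.exp (φ x) ∂μ) (h : C(M, ℝ)) (α β r : ℝ) :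
    Continuous fun φ : C(M, ℝ) =>
      slp (fun t => Real.log (∫ x, Real.exp ((φ + t • h) x) ∂μ)) α β r := by
  have hc : ∀ t : ℝ, Continuous fun φ : C(M, ℝ) => Real.log (∫ x, Real.exp ((φ + t • h) x) ∂μ) := by
    intro t
    exact (cLogA hA).comp (by fun_prop : Continuous fun φ : C(M, ℝ) => φ + t • h)
  unfold slp
  exact (((hc _).sub (hc _)).div_const _).sub (((hc _).sub (hc _)).div_const _)

theorem rb1 (hSf : Sf μ i a) (hB : IsB μ i b) (hex : ∀ φ, ∃ (e : ℕ → H) (E : ℕ → ℝ), Eg a (b φ) e E)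
    {κ : ℕ} (hκ : Zero a b κ) (P : Measure C(M, ℝ)) [IsProbabilityMeasure P] (h : C(M, ℝ)) (m : ℕ)
    {α β r : ℝ} (hαβ : α ≤ β) (hr : 0 < r) :
    ∫⁻ φ, (∫⁻ t in Icc α β, qg a b h κ m (φ + t • h)) ∂P ≤
      ENNReal.ofReal (∫ φ, slp (fN a b φ h κ m) α β r ∂P) := by
  rw [ofReal_integral_eq_lintegral_ofReal]
  · refine lintegral_mono fun φ => ?_
    simp only [← qg_line]
    exact int_q2 (conv1 hSf hB hex hκ φ h m) (cont1 hSf hB hκ φ h m) hαβ hr
  · refine Integrable.of_bound (cslp hSf hB hκ h m α β r).aestronglyMeasurable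
      (2 * (m * ‖h‖) + κ * ‖h‖ ^ 2 * (2 * (β - α) + 2 * r)) (ae_of_all _ fun φ => ?_)
    rw [Real.norm_eq_abs]
    exact slp_fN hSf hB hκ φ h m hr hαβ
  · exact ae_of_all _ fun φ => slp_nonneg (conv1 hSf hB hex hκ φ h m) hαβ hr

theorem rl1 (hSf : Sf μ i a) (hB : IsB μ i b) (hW : Wl μ a b)
    {κ : ℕ} (hκ : Zero a b κ) (P : Measure C(M, ℝ)) [IsProbabilityMeasure P] (h : C(M, ℝ))
    {α β r : ℝ} (hαβ : α ≤ β) (hr : 0 < r) :
    Tendsto (fun m : ℕ => ∫ φ, slp (fN a b φ h κ m) α β r / m ∂P) atTop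
      (𝓝 (∫ φ, slp (fun t => Real.log (∫ x, Real.exp ((φ + t • h) x) ∂μ)) α β r ∂P)) := by
  obtain ⟨hF, hA, hexp, -⟩ := Pool.Agent.Q205.QLim.facts μ i a b hSf hB
  refine tendsto_integral_of_dominated_convergence
    (fun _ => 2 * ‖h‖ + κ * ‖h‖ ^ 2 * (2 * (β - α) + 2 * r)) ?_ (integrable_const _) ?_ ?_
  · intro m
    exact ((cslp hSf hB hκ h m α β r).div_const _).aestronglyMeasurable
  · intro m
    refine ae_of_all _ fun φ => ?_
    rw [Real.norm_eq_abs, abs_div, Nat.abs_cast]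
    have hK : 0 ≤ κ * ‖h‖ ^ 2 * (2 * (β - α) + 2 * r) := by
      have := sub_nonneg.2 hαβ
      positivity
    rcases Nat.eq_zero_or_pos m with rfl | hm
    · rw [Nat.cast_zero, div_zero]
      positivity
    · have hm1 : (1 : ℝ) ≤ m := by exact_mod_cast hm
      rw [div_le_iff₀ (by linarith)]
      have := slp_fN hSf hB hκ φ h m hr hαβ
      nlinarith
  · exact ae_of_all _ fun φ => slim hA hW hκ φ h α β r

theorem rl2 (hA : ∀ φ : C(M, ℝ), 0 < ∫ x, Real.exp (φ x) ∂μ) (P : Measure C(M, ℝ))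
    [IsProbabilityMeasure P] (h : C(M, ℝ)) (α β : ℝ) :
    Tendsto (fun r : ℝ => ∫ φ, slp (fun t => Real.log (∫ x, Real.exp ((φ + t • h) x) ∂μ)) α β r ∂P)
      (𝓝[>] 0) (𝓝 (DD μ P h α β)) := by
  refine tendsto_integral_filter_of_dominated_convergence (fun _ => 2 * ‖h‖) ?_ ?_
    (integrable_const _) ?_
  · exact Eventually.of_forall fun r => (cslpA hA h α β r).aestronglyMeasurable
  · filter_upwards [self_mem_nhdsWithin] with r hr
    refine ae_of_all _ fun φ => ?_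
    rw [Real.norm_eq_abs]
    exact slp_area hA φ h hr
  · refine ae_of_all _ fun φ => slp_tendsto ?_ ?_
    · exact (Pool.Agent.Y155.QR.hdA μ φ h α).log (hA (φ + α • h)).ne'
    · exact (Pool.Agent.Y155.QR.hdA μ φ h β).log (hA (φ + β • h)).ne'

theorem DD_nonneg (hSf : Sf μ i a) (hB : IsB μ i b) (hW : Wl μ a b)
    (hex : ∀ φ, ∃ (e : ℕ → H) (E : ℕ → ℝ), Eg a (b φ) e E)
    {κ : ℕ} (hκ : Zero a b κ) (P : Measure C(M, ℝ)) [IsProbabilityMeasure P] (h : C(M, ℝ))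
    {α β : ℝ} (hαβ : α ≤ β) : 0 ≤ DD μ P h α β := by
  obtain ⟨hF, hA, hexp, -⟩ := Pool.Agent.Q205.QLim.facts μ i a b hSf hB
  refine ge_of_tendsto (rl2 hA P h α β) ?_
  filter_upwards [self_mem_nhdsWithin] with r hr
  refine ge_of_tendsto' (rl1 hSf hB hW hκ P h hαβ hr) fun m => ?_
  exact integral_nonneg fun φ => div_nonneg
    (slp_nonneg (conv1 hSf hB hex hκ φ h m) hαβ hr) (Nat.cast_nonneg _)

theorem rbound [Nonempty M] (hSf : Sf μ i a) (hB : IsB μ i b) (hW : Wl μ a b)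
    (hex : ∀ φ, ∃ (e : ℕ → H) (E : ℕ → ℝ), Eg a (b φ) e E)
    {κ : ℕ} (hκ : Zero a b κ) (P : Measure C(M, ℝ)) [IsProbabilityMeasure P] (h : C(M, ℝ))
    {α β : ℝ} (hαβ : α ≤ β) {η : ℝ} (hη : 0 < η) :
    ∀ᶠ j : ℕ in atTop, κ ≤ j ∧
      ∫⁻ φ, (∫⁻ t in Icc α β, qg a b h κ (j + 1 - κ) (φ + t • h)) ∂P ≤
        ENNReal.ofReal (j * (DD μ P h α β + η)) := by
  obtain ⟨hF, hA, hexp, -⟩ := Pool.Agent.Q205.QLim.facts μ i a b hSf hB
  set D := DD μ P h α β with hD
  have h6 := (rl2 hA P h α β).eventually (gt_mem_nhds (show D < D + η / 4 by linarith))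
  obtain ⟨r, hr, hr0⟩ := (h6.and self_mem_nhdsWithin).exists
  have hr0' : 0 < r := hr0
  have h7 := (rl1 hSf hB hW hκ P h hαβ hr0').eventually (gt_mem_nhds (show
    ∫ φ, slp (fun t => Real.log (∫ x, Real.exp ((φ + t • h) x) ∂μ)) α β r ∂P <
    D + η / 2 by linarith))
  have h8 : Tendsto (fun j : ℕ => j + 1 - κ) atTop atTop := by
    refine tendsto_atTop.2 fun N => ?_
    filter_upwards [eventually_ge_atTop (N + κ)] with j hj
    omega
  have h9 := h8.eventually h7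
  have h10 : ∀ᶠ j : ℕ in atTop, (1 + κ) * (|D| + η) ≤ (j : ℝ) * (η / 2) := by
    have : Tendsto (fun j : ℕ => (j : ℝ) * (η / 2)) atTop atTop :=
      tendsto_natCast_atTop_atTop.atTop_mul_const (by positivity)
    exact this.eventually_ge_atTop _
  filter_upwards [h9, h10, eventually_ge_atTop κ] with j k1 k2 k3
  refine ⟨k3, ?_⟩
  set m := j + 1 - κ with hm
  have hjm : j + 1 = κ + m := by omega
  have hm0 : 0 < m := by omega
  refine (rb1 hSf hB hex hκ P h m hαβ hr0').trans (ENNReal.ofReal_le_ofReal ?_)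
  have hmR : (0 : ℝ) < m := by exact_mod_cast hm0
  rw [integral_div, div_lt_iff₀ hmR] at k1
  have hcast : (m : ℝ) = j + 1 - κ := by
    have : (j : ℝ) + 1 = κ + m := by exact_mod_cast hjm
    linarith
  refine k1.le.trans ?_
  rw [hcast]
  have hκ0 : (0 : ℝ) ≤ κ := Nat.cast_nonneg _
  have hDa : D ≤ |D| := le_abs_self D
  have hDb : -D ≤ |D| := neg_le_abs D
  have hb1 : (1 - (κ : ℝ)) * (D + η / 2) ≤ (1 + κ) * (|D| + η) := by
    have : |(1 - (κ : ℝ)) * (D + η / 2)| ≤ (1 + κ) * (|D| + η) := by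
      rw [abs_mul]
      refine mul_le_mul ?_ ?_ (abs_nonneg _) (by positivity)
      · rw [abs_le]
        constructor <;> linarith
      · rw [abs_le]
        constructor <;> linarith [abs_nonneg D]
    exact (le_abs_self _).trans this
  nlinarith

/-- the normalised unfolded level -/
def GG (μ : Measure M) (a : H →L[ℝ] H →L[ℝ] ℝ) (b : C(M, ℝ) → H →L[ℝ] H →L[ℝ] ℝ) (h : C(M, ℝ))
    (j : ℕ) (p : C(M, ℝ) × ℝ) : ℝ :=
  (∫ x, Real.exp ((p.1 + p.2 • h) x) ∂μ) / (4 * π) *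
    (Ev a (b (p.1 + p.2 • h)) (j + 1) / (((j + 1 : ℕ) : ℝ) + 1))

theorem wf_sq_le (hB : IsB μ i b) (φ h : C(M, ℝ)) (e : ℕ → H)
    (orth : ∀ l r, b φ (e l) (e r) = if l = r then 1 else 0) (l k : ℕ) :
    wf i (h * cexp φ) (e l) (e k) ^ 2 ≤ ‖h‖ ^ 2 := by
  obtain ⟨H1, hH1⟩ := exists_form i (h * cexp φ)
  have h1 := bes i hB φ h H1 hH1 e orth l {k}
  rw [Finset.sum_singleton, hH1] at h1
  refine h1.trans ?_
  have h2 : wf i (h * h * cexp φ) (e l) (e l) ≤ wf i ((‖h‖ ^ 2) • cexp φ) (e l) (e l) := by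
    refine wf_mono i (fun x => ?_) _
    simp only [ContinuousMap.mul_apply, ContinuousMap.smul_apply, cexp_apply, smul_eq_mul]
    have h3 : h x * h x ≤ ‖h‖ ^ 2 := by
      rw [← pow_two, ← sq_abs]
      exact pow_le_pow_left₀ (abs_nonneg _) (habs h x) 2
    exact mul_le_mul_of_nonneg_right h3 (Real.exp_pos _).le
  refine h2.trans (le_of_eq ?_)
  rw [wf_smul, ← b_eq i hB, orth, if_pos rfl, mul_one]

/-- one pair of levels which do not repel each other -/
theorem rep_ge {x Ei Ek c l L : ℝ} (hl : 0 < l) (hL : 0 < L) (hc : 0 < c) (hE : Ei ≤ Ek)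
    (hx : l * (c * Ek - c * Ei) < x ^ 2) (hLi : L ≤ c * Ei) :
    ENNReal.ofReal (2 * L * l) ≤ term x Ei Ek := by
  have hEi : 0 < Ei := by
    by_contra h
    push Not at h
    nlinarith
  unfold term
  rcases eq_or_lt_of_le hE with h | h
  · subst h
    rw [sub_self, mul_zero] at hx
    rw [sub_self, ENNReal.ofReal_zero, ENNReal.div_zero]
    · exact le_top
    · rw [ne_eq, ENNReal.ofReal_eq_zero, not_le]
      positivity
  · have hd : 0 < Ek - Ei := sub_pos.2 h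
    rw [← ENNReal.ofReal_div_of_pos hd]
    refine ENNReal.ofReal_le_ofReal ?_
    rw [le_div_iff₀ hd]
    have h1 : 2 * L * l * (Ek - Ei) ≤ 2 * (c * Ei) * l * (Ek - Ei) := by
      have : 2 * L * l ≤ 2 * (c * Ei) * l := by nlinarith
      exact mul_le_mul_of_nonneg_right this hd.le
    have h2 : 2 * (c * Ei) * l * (Ek - Ei) = 2 * Ei * (l * (c * Ek - c * Ei)) := by ring
    have h3 : 2 * Ei * (l * (c * Ek - c * Ei)) ≤ 2 * Ei * x ^ 2 :=
      mul_le_mul_of_nonneg_left hx.le (by positivity)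
    have h4 : 2 * Ei * x ^ 2 ≤ x ^ 2 * (Ek + Ei) := by
      have := sq_nonneg x
      nlinarith
    linarith

theorem revent [Nonempty M] (hSf : Sf μ i a) (hB : IsB μ i b) (hW : Wl μ a b)
    (hex : ∀ φ, ∃ (e : ℕ → H) (E : ℕ → ℝ), Eg a (b φ) e E)
    (P : Measure C(M, ℝ)) [IsProbabilityMeasure P] (h : C(M, ℝ))
    {α β : ℝ} (hαβ : α ≤ β) {l η : ℝ} (hl : 0 < l) (hη : 0 < η) :
    ∀ᶠ j : ℕ in atTop, (P.prod (volume.restrict (Icc α β))) {p : C(M, ℝ) × ℝ |
      ∃ e E, Eg a (b (p.1 + p.2 • h)) e E ∧ ∃ n k, n ≤ j ∧ j < k ∧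
      l * ((∫ x, Real.exp ((p.1 + p.2 • h) x) ∂μ) / (4 * π) * E k -
        (∫ x, Real.exp ((p.1 + p.2 • h) x) ∂μ) / (4 * π) * E n) <
      (wf i (h * cexp (p.1 + p.2 • h)) (e n) (e k)) ^ 2} ≤
        ENNReal.ofReal (DD μ P h α β / (2 * l) + η) := by
  obtain ⟨hF, hA, hexp, -⟩ := Pool.Agent.Q205.QLim.facts μ i a b hSf hB
  obtain ⟨l1, l2, l3, l4, l5⟩ := Pool.Agent.Y390.QR.LIP.lip M μ H a b hF hexp
  obtain ⟨κ, hκ⟩ := exists_zero hSf hB hW
  have hpi : 0 < 4 * π := by positivity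
  have hadd : Continuous fun p : C(M, ℝ) × ℝ => p.1 + p.2 • h := by fun_prop
  set ν := P.prod (volume.restrict (Icc α β)) with hν
  set V := DD μ P h α β with hV
  set s := ‖h‖ ^ 2 / l with hs
  have hs0 : 0 ≤ s := by positivity
  -- choice of ε
  have hlim : Tendsto (fun x : ℝ => (V + x) / (1 - 2 * x) / (2 * l)) (𝓝[>] 0)
      (𝓝 ((V + 0) / (1 - 2 * 0) / (2 * l))) := by
    have hca : ContinuousAt (fun x : ℝ => (V + x) / (1 - 2 * x) / (2 * l)) 0 :=
      (ContinuousAt.div (by fun_prop) (by fun_prop) (by norm_num)).div_const _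
    exact hca.tendsto.mono_left nhdsWithin_le_nhds
  rw [mul_zero, sub_zero, div_one, add_zero] at hlim
  have hev1 := hlim.eventually (gt_mem_nhds (show V / (2 * l) < V / (2 * l) + η / 2 by
    linarith))
  have hev2 : ∀ᶠ x : ℝ in 𝓝[>] 0, x < 1 / 4 :=
    nhdsWithin_le_nhds (gt_mem_nhds (by norm_num : (0 : ℝ) < 1 / 4))
  obtain ⟨ε, ⟨hε1, hε2⟩, hε0⟩ := ((hev1.and hev2).and self_mem_nhdsWithin).exists
  have hε0' : 0 < ε := hε0
  -- Weyl's law in measure
  have hGc : ∀ j, Continuous (GG μ a b h j) := by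
    intro j
    unfold GG
    exact (((cArea hA).comp hadd).div_const _).mul (((l4 (j + 1)).comp hadd).div_const _)
  have hGt : ∀ p, Tendsto (fun j => GG μ a b h j p) atTop (𝓝 1) := by
    intro p
    have h1 := ((hW (p.1 + p.2 • h)).comp (tendsto_add_atTop_nat 1)).const_mul
      ((∫ x, Real.exp ((p.1 + p.2 • h) x) ∂μ) / (4 * π))
    have e1 : (∫ x, Real.exp ((p.1 + p.2 • h) x) ∂μ) / (4 * π) *
        (4 * π / ∫ x, Real.exp ((p.1 + p.2 • h) x) ∂μ) = 1 := by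
      have := (hA (p.1 + p.2 • h)).ne'
      field_simp
    rw [e1] at h1
    exact h1
  have hmeas : TendstoInMeasure ν (GG μ a b h) atTop fun _ => (1 : ℝ) :=
    tendstoInMeasure_of_tendsto_ae (fun j => (hGc j).aestronglyMeasurable)
      (ae_of_all _ hGt)
  rw [tendstoInMeasure_iff_norm] at hmeas
  have hm1 := (hmeas ε hε0').eventually (gt_mem_nhds (show (0 : ℝ≥0∞) < ENNReal.ofReal (η / 2) by
    rw [ENNReal.ofReal_pos]; linarith))
  have h3 : ∀ᶠ j : ℕ in atTop, s ≤ ε * (j : ℝ) ∧ 0 < (j : ℝ) := by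
    have h4 : Tendsto (fun j : ℕ => ε * (j : ℝ)) atTop atTop :=
      tendsto_natCast_atTop_atTop.const_mul_atTop hε0'
    exact (h4.eventually_ge_atTop _).and (tendsto_natCast_atTop_atTop.eventually_gt_atTop 0)
  filter_upwards [hm1, h3, rbound hSf hB hW hex hκ P h hαβ hε0'] with j k1 ⟨k3, k4⟩ ⟨k5, k6⟩
  set L := (1 - 2 * ε) * (j : ℝ) with hL
  have hL0 : 0 < L := mul_pos (by linarith) k4
  set m := j + 1 - κ with hm
  have hjm : j + 1 = κ + m := by omega
  have hδ' : ENNReal.ofReal (2 * L * l) ≠ 0 := by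
    rw [ne_eq, ENNReal.ofReal_eq_zero, not_le]
    positivity
  set q : C(M, ℝ) × ℝ → ℝ≥0∞ := fun p => qg a b h κ m (p.1 + p.2 • h) with hq
  have hqm : Measurable q := (meas_qg hSf hB hκ h m).comp hadd.measurable
  have hsub : {p : C(M, ℝ) × ℝ | ∃ e E, Eg a (b (p.1 + p.2 • h)) e E ∧ ∃ n k, n ≤ j ∧ j < k ∧
      l * ((∫ x, Real.exp ((p.1 + p.2 • h) x) ∂μ) / (4 * π) * E k -
        (∫ x, Real.exp ((p.1 + p.2 • h) x) ∂μ) / (4 * π) * E n) <
      (wf i (h * cexp (p.1 + p.2 • h)) (e n) (e k)) ^ 2} ⊆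
      {p | ε ≤ ‖GG μ a b h j p - 1‖} ∪ {p | ENNReal.ofReal (2 * L * l) ≤ q p} := by
    rintro p ⟨e, E, hE, n, k, hn, hk, hx⟩
    by_cases hG : ε ≤ ‖GG μ a b h j p - 1‖
    · exact Or.inl hG
    · refine Or.inr ?_
      push Not at hG
      rw [Real.norm_eq_abs, abs_lt] at hG
      have hmm : ∀ l, Ev a (b (p.1 + p.2 • h)) l = E l :=
        Pool.Agent.Y592.QE.mm H a (b (p.1 + p.2 • h)) (hF _) e E hE
      have hc0 : 0 < (∫ x, Real.exp ((p.1 + p.2 • h) x) ∂μ) / (4 * π) := div_pos (hA _) hpi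
      set c := (∫ x, Real.exp ((p.1 + p.2 • h) x) ∂μ) / (4 * π) with hc
      have h5 : (1 - ε) * ((j : ℝ) + 1 + 1) ≤ c * E (j + 1) := by
        have h6 : 1 - ε ≤ GG μ a b h j p := by linarith [hG.1]
        unfold GG at h6
        rw [hmm, mul_div_assoc', le_div_iff₀ (by positivity)] at h6
        push_cast at h6
        exact h6
      have h7 : c * E (j + 1) ≤ c * E k := mul_le_mul_of_nonneg_left (hE.mono hk) hc0.le
      have h8 : c * E k - c * E n < s := by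
        rw [hs, lt_div_iff₀ hl, mul_comm]
        exact hx.trans_le (wf_sq_le hB (p.1 + p.2 • h) h e hE.orth n k)
      have hLn : L ≤ c * E n := by
        rw [hL]
        nlinarith
      have hEn : 0 < E n := by
        by_contra h'
        push Not at h'
        nlinarith
      show ENNReal.ofReal (2 * L * l) ≤ qg a b h κ m (p.1 + p.2 • h)
      refine le_trans ?_ (QQ_le_qg hSf hB hκ h (p.1 + p.2 • h) hjm e E hE)
      refine (rep_ge hl hL0 hc0 (hE.mono (by omega : n ≤ k)) hx hLn).trans ?_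
      unfold QQ
      refine le_trans ?_ (Finset.single_le_sum (fun _ _ => zero_le)
        (Finset.mem_range.2 (Nat.lt_succ_of_le hn)))
      refine le_trans (le_of_eq ?_) (ENNReal.le_tsum k)
      rw [if_pos ⟨hk, hEn⟩]
  refine (measure_mono hsub).trans ((measure_union_le _ _).trans ?_)
  have h7 : ν {p | ENNReal.ofReal (2 * L * l) ≤ q p} ≤ ENNReal.ofReal (V / (2 * l) + η / 2) := by
    refine (meas_ge_le_lintegral_div hqm.aemeasurable hδ' ENNReal.ofReal_ne_top).trans ?_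
    have h8 : ∫⁻ p, q p ∂ν ≤ ENNReal.ofReal (j * (V + ε)) := by
      rw [hν, lintegral_prod _ hqm.aemeasurable]
      exact k6
    refine (ENNReal.div_le_div_right h8 _).trans ?_
    rw [← ENNReal.ofReal_div_of_pos (by positivity)]
    refine ENNReal.ofReal_le_ofReal ?_
    refine le_trans (le_of_eq ?_) hε1.le
    rw [hL]
    have : (1 - 2 * ε) ≠ 0 := by
      have : 0 < 1 - 2 * ε := by linarith
      exact this.ne'
    field_simp
  have h0 : 0 ≤ V / (2 * l) + η / 2 := by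
    have hV0 : 0 ≤ V := DD_nonneg hSf hB hW hex hκ P h hαβ
    positivity
  calc ν {p | ε ≤ ‖GG μ a b h j p - 1‖} + ν {p | ENNReal.ofReal (2 * L * l) ≤ q p}
      ≤ ENNReal.ofReal (η / 2) + ENNReal.ofReal (V / (2 * l) + η / 2) := add_le_add k1.le h7
    _ = ENNReal.ofReal (V / (2 * l) + η) := by
        rw [← ENNReal.ofReal_add (by positivity) h0]
        congr 1
        ring

end

end Pool.Agent.Run7.h307.LR
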