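import Pool.Agent.Run7.h307.LR.Off

/-!
# Superpositions of eigenfunctions of close levels
-/

set_option autoImplicit false

open Set Filter Topology MeasureTheory Asymptotics
open scoped Real ContDiff ENNReal
open Pool.Agent.Y262.QE Pool.Agent.Y264.QR

noncomputable section

namespace Pool.Agent.Run7.h307.LR

section

variable {M : Type} [MetricSpace M] [CompactSpace M] [MeasurableSpace M] [BorelSpace M]
  {μ : Measure M} [IsFiniteMeasure μ] {H : Type} [NormedAddCommGroup H] [InnerProductSpace ℝ H]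
  {i : H →L[ℝ] Lp ℝ 2 μ} {a : H →L[ℝ] H →L[ℝ] ℝ} {b : C(M, ℝ) → H →L[ℝ] H →L[ℝ] ℝ}

theorem wf_symm (w : C(M, ℝ)) (u v : H) : wf i w u v = wf i w v u := by
  unfold wf
  refine integral_congr_ae (Eventually.of_forall fun x => ?_)
  simp only
  ring

theorem quad (w : C(M, ℝ)) (s : Finset ℕ) (c : ℕ → ℝ) (v : ℕ → H) :
    ∫ x, w x * (∑ r ∈ s, c r * i (v r) x) ^ 2 ∂μ =
      ∑ r ∈ s, ∑ q ∈ s, c r * c q * wf i w (v r) (v q) := by
  have e1 : ∀ x, w x * (∑ r ∈ s, c r * i (v r) x) ^ 2 =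
      ∑ r ∈ s, ∑ q ∈ s, (c r * c q) * (w x * (i (v r) x * i (v q) x)) := by
    intro x
    rw [pow_two, Finset.sum_mul_sum, Finset.mul_sum]
    refine Finset.sum_congr rfl fun r _ => ?_
    rw [Finset.mul_sum]
    refine Finset.sum_congr rfl fun q _ => ?_
    ring
  simp only [e1]
  rw [integral_finsetSum _ fun r _ => integrable_finsetSum _ fun q _ =>
    (int_w i w (v r) (v q)).const_mul _]
  refine Finset.sum_congr rfl fun r _ => ?_
  rw [integral_finsetSum _ fun q _ => (int_w i w (v r) (v q)).const_mul _]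
  refine Finset.sum_congr rfl fun q _ => ?_
  rw [integral_const_mul]
  rfl

theorem cross {F : ℕ → ℕ → ℝ} {c : ℕ → ℝ} {m : ℕ} {ε : ℝ} (hε : 0 ≤ ε)
    (hF : ∀ r ∈ Finset.range (m + 1), ∀ q ∈ Finset.range (m + 1), r ≠ q → |F r q| ≤ ε)
    (hc : ∑ r ∈ Finset.range (m + 1), c r ^ 2 = 1) :
    |∑ r ∈ Finset.range (m + 1), ∑ q ∈ Finset.range (m + 1), c r * c q * F r q -
      ∑ r ∈ Finset.range (m + 1), c r ^ 2 * F r r| ≤ ε * (m + 1) := by
  have e1 : ∑ r ∈ Finset.range (m + 1), ∑ q ∈ Finset.range (m + 1), c r * c q * F r q -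
      ∑ r ∈ Finset.range (m + 1), c r ^ 2 * F r r =
      ∑ r ∈ Finset.range (m + 1), ∑ q ∈ Finset.range (m + 1),
        (c r * c q * F r q - if r = q then c r * c q * F r q else 0) := by
    simp only [Finset.sum_sub_distrib]
    congr 1
    refine Finset.sum_congr rfl fun r hr => ?_
    rw [Finset.sum_ite_eq, if_pos hr, pow_two]
  rw [e1]
  have h1 : ∀ r ∈ Finset.range (m + 1), |∑ q ∈ Finset.range (m + 1),
      (c r * c q * F r q - if r = q then c r * c q * F r q else 0)| ≤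
      ∑ q ∈ Finset.range (m + 1), |c r| * |c q| * ε := by
    intro r hr
    refine (Finset.abs_sum_le_sum_abs _ _).trans (Finset.sum_le_sum fun q hq => ?_)
    by_cases h : r = q
    · rw [if_pos h, sub_self, abs_zero]
      positivity
    · rw [if_neg h, sub_zero, abs_mul, abs_mul]
      exact mul_le_mul_of_nonneg_left (hF r hr q hq h) (by positivity)
  refine (Finset.abs_sum_le_sum_abs _ _).trans ((Finset.sum_le_sum h1).trans ?_)
  have e2 : ∑ r ∈ Finset.range (m + 1), ∑ q ∈ Finset.range (m + 1), |c r| * |c q| * ε =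
      ε * (∑ r ∈ Finset.range (m + 1), |c r|) ^ 2 := by
    rw [pow_two, Finset.sum_mul_sum, Finset.mul_sum]
    refine Finset.sum_congr rfl fun r _ => ?_
    rw [Finset.mul_sum]
    refine Finset.sum_congr rfl fun q _ => ?_
    ring
  rw [e2]
  refine mul_le_mul_of_nonneg_left ?_ hε
  have h2 := sq_sum_le_card_mul_sum_sq (s := Finset.range (m + 1)) (f := fun r => |c r|)
  simp only [sq_abs, Finset.card_range, hc, mul_one] at h2
  push_cast at h2
  exact h2

variable [MeasurableSpace C(M, ℝ)] [BorelSpace C(M, ℝ)]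

theorem sup_off [Nonempty M] (hSf : Sf μ i a) (hB : IsB μ i b) (hW : Wl μ a b)
    (hex : ∀ φ, ∃ (e : ℕ → H) (E : ℕ → ℝ), Eg a (b φ) e E)
    (h : ℕ → C(M, ℝ)) (hs : Summable fun n => ‖h n‖)
    (hd : Dense (Submodule.span ℝ (Set.range h) : Set C(M, ℝ)))
    (P : Measure C(M, ℝ)) [IsProbabilityMeasure P] (P' : ℕ → Measure C(M, ℝ))
    [∀ n, IsProbabilityMeasure (P' n)]
    (hP : ∀ n, P = ((P' n).prod (volume.restrict (Icc (0 : ℝ) 1))).map fun p => p.1 + p.2 • h n)
    (f : C(M, ℝ)) (m : ℕ) (s : ℕ → ℝ) (hs0 : Tendsto s atTop (𝓝 0)) {ε : ℝ} (hε : 0 < ε) :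
    Tendsto (fun j : ℕ => P {φ : C(M, ℝ) |
      ∃ e E, Eg a (b φ) e E ∧
      (∫ x, Real.exp (φ x) ∂μ) / (4 * π) * E (j + m) -
        (∫ x, Real.exp (φ x) ∂μ) / (4 * π) * E j ≤ s j ∧
      ∃ c : ℕ → ℝ, ∑ r ∈ Finset.range (m + 1), c r ^ 2 = 1 ∧
      ε ≤ |∑ r ∈ Finset.range (m + 1), ∑ q ∈ Finset.range (m + 1), c r * c q *
        wf i (f * cexp φ) (e (j + r)) (e (j + q)) -
        ∑ r ∈ Finset.range (m + 1), c r ^ 2 * wf i (f * cexp φ) (e (j + r)) (e (j + r))|})
      atTop (𝓝 0) := by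
  obtain ⟨hF, hA, hexp, -⟩ := Pool.Agent.Q205.QLim.facts μ i a b hSf hB
  set s' : ℕ → ℝ := fun j => ∑ r ∈ Finset.range (m + 1), |s (j - r)| with hs'
  have hs'0 : Tendsto s' atTop (𝓝 0) := by
    have h1 : ∀ r ∈ Finset.range (m + 1), Tendsto (fun j => |s (j - r)|) atTop (𝓝 |(0 : ℝ)|) :=
      fun r _ => (hs0.comp (tendsto_sub_atTop_nat r)).abs
    have h2 := tendsto_finsetSum _ h1
    simpa using h2
  set ε' := ε / (m + 2) with hε'
  have hm0 : (0 : ℝ) < (m : ℝ) + 2 := by positivity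
  have hε'0 : 0 < ε' := by positivity
  have h1 := off hSf hB hW hex h hs hd P P' hP f s' hs'0 hε'0
  have h2 : Tendsto (fun j : ℕ => ∑ t ∈ Finset.range (m + 1), P {φ : C(M, ℝ) |
      ∃ e E, Eg a (b φ) e E ∧ ∃ n k, n ≤ j + t ∧ j + t < k ∧
      (∫ x, Real.exp (φ x) ∂μ) / (4 * π) * E k - (∫ x, Real.exp (φ x) ∂μ) / (4 * π) * E n ≤
        s' (j + t) ∧
      ε' ≤ |wf i (f * cexp φ) (e n) (e k)|}) atTop (𝓝 (∑ t ∈ Finset.range (m + 1), 0)) :=
    tendsto_finsetSum _ fun t _ => h1.comp (tendsto_add_atTop_nat t)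
  rw [Finset.sum_const_zero] at h2
  refine tendsto_of_tendsto_of_tendsto_of_le_of_le tendsto_const_nhds h2 (fun _ => zero_le)
    fun j => ?_
  refine le_trans (measure_mono ?_) (measure_biUnion_finset_le (Finset.range (m + 1)) _)
  rintro φ ⟨e, E, hE, hx, c, hc, hfe⟩
  by_contra hcon
  simp only [mem_iUnion, not_exists] at hcon
  have hc0 : 0 < (∫ x, Real.exp (φ x) ∂μ) / (4 * π) := div_pos (hA φ) (by positivity)
  have key : ∀ r ∈ Finset.range (m + 1), ∀ q ∈ Finset.range (m + 1), r < q →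
      |wf i (f * cexp φ) (e (j + r)) (e (j + q))| ≤ ε' := by
    intro r hr q hq hrq
    by_contra hlt
    push Not at hlt
    refine hcon r hr ⟨e, E, hE, j + r, j + q, le_rfl, by omega, ?_, hlt.le⟩
    have hr' := Finset.mem_range.1 hr
    have hq' := Finset.mem_range.1 hq
    have k1 : (∫ x, Real.exp (φ x) ∂μ) / (4 * π) * E (j + q) ≤
        (∫ x, Real.exp (φ x) ∂μ) / (4 * π) * E (j + m) :=
      mul_le_mul_of_nonneg_left (hE.mono (by omega)) hc0.le
    have k2 : (∫ x, Real.exp (φ x) ∂μ) / (4 * π) * E j ≤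
        (∫ x, Real.exp (φ x) ∂μ) / (4 * π) * E (j + r) :=
      mul_le_mul_of_nonneg_left (hE.mono (by omega)) hc0.le
    have k3 : s j ≤ s' (j + r) := by
      have k4 : |s (j + r - r)| ≤ s' (j + r) :=
        Finset.single_le_sum (f := fun r' => |s (j + r - r')|) (fun _ _ => abs_nonneg _) hr
      rw [Nat.add_sub_cancel] at k4
      exact (le_abs_self _).trans k4
    linarith
  have hle := cross (F := fun r q => wf i (f * cexp φ) (e (j + r)) (e (j + q))) (c := c)
    hε'0.le (fun r hr q hq hrq => by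
      rcases lt_or_gt_of_ne hrq with h3 | h3
      · exact key r hr q hq h3
      · rw [wf_symm]
        exact key q hq r hr h3) hc
  have h4 : ε' * ((m : ℝ) + 1) < ε := by
    rw [hε', div_mul_eq_mul_div, div_lt_iff₀ hm0]
    nlinarith
  linarith

end

end Pool.Agent.Run7.h307.LR
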